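import Pool.Agent.Helper262.RU4
set_option autoImplicit false
open MeasureTheory Set Filter
open scoped ENNReal NNReal BigOperators

namespace H262RU

variable {E : Type*} [MeasurableSpace E] {T : TS E} {CL : ℝ}

lemma sq_sum_range (x : ℕ → ℝ) (N : ℕ) :
    (∑ i ∈ Finset.range N, x i) ^ 2 =
      ∑ l ∈ Finset.range N, x l * (2 * ∑ i ∈ Finset.range l, x i + x l) := by
  induction N with
  | zero => simp
  | succ N ih => rw [Finset.sum_range_succ, Finset.sum_range_succ, ← ih]; ring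

namespace Sel

variable {b m : ℕ} {τ Λ : ℝ} (S : Sel T CL b m τ Λ)

/-- the cost -/
noncomputable def N2 : ℝ := ∑ l ∈ Finset.range S.C.N, S.A l ^ 2 * S.C.h l ^ T.n

lemma N2_nonneg : 0 ≤ S.N2 :=
  Finset.sum_nonneg (fun l _ => mul_nonneg (sq_nonneg _) (pow_nonneg (S.C.h_pos l).le _))

noncomputable def Cao (T : TS E) (b : ℕ) : ℝ := 2 * 8 ^ b * T.Ci b

lemma Cao_pos : 0 < Cao T b := by unfold Cao; have := T.Ci_pos b; positivity

lemma kk_int (i l : ℕ) : Integrable (fun ζ => S.C.kp i ζ ^ b * S.C.kp l ζ ^ b) T.σ := by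
  apply T.integ (((S.C.kp_meas i).pow_const b).mul ((S.C.kp_meas l).pow_const b)) (C := 2 ^ b * 2 ^ b)
  intro x
  change |S.C.kp i x ^ b * S.C.kp l x ^ b| ≤ _
  rw [abs_of_nonneg (mul_nonneg (pow_nonneg (S.C.kp_nonneg _ _) _) (pow_nonneg (S.C.kp_nonneg _ _) _))]
  exact mul_le_mul (pow_le_pow_left₀ (S.C.kp_nonneg _ _) (S.C.kp_le_two _ _) b)
        (pow_le_pow_left₀ (S.C.kp_nonneg _ _) (S.C.kp_le_two _ _) b)
        (pow_nonneg (S.C.kp_nonneg _ _) _) (by positivity)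

lemma a_meas : Measurable S.a := by
  unfold a
  exact Finset.measurable_sum _ (fun j _ => ((S.C.kp_meas j).pow_const b).const_mul _)

lemma a_bdd : ∃ K, ∀ x, |S.a x| ≤ K := by
  refine ⟨∑ j ∈ Finset.range S.C.N, S.A j * 2 ^ b, fun x => ?_⟩
  rw [abs_of_nonneg (S.a_nonneg x)]
  unfold a
  apply Finset.sum_le_sum
  intro j _
  exact mul_le_mul_of_nonneg_left (pow_le_pow_left₀ (S.C.kp_nonneg _ _) (S.C.kp_le_two _ _) b) (S.A_nonneg j)

lemma a_int : Integrable S.a T.σ := by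
  obtain ⟨K, hK⟩ := S.a_bdd
  exact T.integ S.a_meas hK

lemma a_sq_int : Integrable (fun x => S.a x ^ 2) T.σ := by
  obtain ⟨K, hK⟩ := S.a_bdd
  apply T.integ (S.a_meas.pow_const 2) (C := K ^ 2)
  intro x
  rw [abs_pow]
  exact pow_le_pow_left₀ (abs_nonneg _) (hK x) 2

/-- ‖a‖₂² ≤ C_ao (2/τ + 1) N2 -/
lemma int_a_sq (hb : T.n + 1 ≤ b) (hτ : 0 < τ) :
    ∫ ζ, S.a ζ ^ 2 ∂T.σ ≤ Cao T b * (2 / τ + 1) * S.N2 := by
  have hao : ∀ i l, i ≤ l → l < S.C.N → ∫ ζ, S.C.kp i ζ ^ b * S.C.kp l ζ ^ b ∂T.σ ≤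
      Cao T b * S.C.h l ^ T.n * S.C.kp i (S.C.w l) ^ b := by
    intro i l hil hl
    have h1 := T.ao b hb (S.C.s_pos (lt_of_le_of_lt hil hl)) (S.C.s_pos hl) (S.C.s_anti hil hl)
    rw [S.C.s_h hl] at h1
    exact h1
  have h1 : ∀ ζ, S.a ζ ^ 2 = ∑ l ∈ Finset.range S.C.N,
      (2 * ∑ i ∈ Finset.range l, S.A i * S.A l * (S.C.kp i ζ ^ b * S.C.kp l ζ ^ b) +
        S.A l ^ 2 * (S.C.kp l ζ ^ b * S.C.kp l ζ ^ b)) := by
    intro ζ
    unfold a
    rw [sq_sum_range]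
    apply Finset.sum_congr rfl
    intro l _
    rw [mul_add, ← mul_assoc, mul_comm (S.A l * S.C.kp l ζ ^ b) 2, mul_assoc, Finset.mul_sum]
    congr 1
    · congr 1
      apply Finset.sum_congr rfl
      intro i _
      ring
    · ring
  have h2 : ∫ ζ, S.a ζ ^ 2 ∂T.σ = ∑ l ∈ Finset.range S.C.N,
      (2 * ∑ i ∈ Finset.range l, S.A i * S.A l * ∫ ζ, (S.C.kp i ζ ^ b * S.C.kp l ζ ^ b) ∂T.σ +
        S.A l ^ 2 * ∫ ζ, (S.C.kp l ζ ^ b * S.C.kp l ζ ^ b) ∂T.σ) := by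
    have i1 : ∀ l, Integrable (fun ζ => ∑ i ∈ Finset.range l, S.A i * S.A l * (S.C.kp i ζ ^ b * S.C.kp l ζ ^ b)) T.σ :=
      fun l => integrable_finset_sum _ (fun i _ => (S.kk_int i l).const_mul _)
    rw [integral_congr_ae (Eventually.of_forall h1), integral_finset_sum]
    · apply Finset.sum_congr rfl
      intro l _
      rw [integral_add ((i1 l).const_mul 2) ((S.kk_int l l).const_mul _), integral_const_mul,
        integral_const_mul, integral_finset_sum _ (fun i _ => (S.kk_int i l).const_mul _)]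
      congr 2
      apply Finset.sum_congr rfl
      intro i _
      rw [integral_const_mul]
    · intro l _
      exact ((i1 l).const_mul 2).add ((S.kk_int l l).const_mul _)
  rw [h2]
  unfold N2
  rw [Finset.mul_sum]
  apply Finset.sum_le_sum
  intro l hl
  have hlN := Finset.mem_range.1 hl
  have hh := S.C.h_pos l
  have hCao := Cao_pos (T := T) (b := b)
  rcases eq_or_lt_of_le (S.A_nonneg l) with h0 | hpos
  · rw [← h0]; simp
  · have h3 : ∑ i ∈ Finset.range l, S.A i * S.A l * ∫ ζ, (S.C.kp i ζ ^ b * S.C.kp l ζ ^ b) ∂T.σ ≤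
        S.A l * (Cao T b * S.C.h l ^ T.n) * ∑ i ∈ Finset.range l, S.A i * S.C.kp i (S.C.w l) ^ b := by
      rw [Finset.mul_sum]
      apply Finset.sum_le_sum
      intro i hi
      have hi' := Finset.mem_range.1 hi
      calc S.A i * S.A l * ∫ ζ, (S.C.kp i ζ ^ b * S.C.kp l ζ ^ b) ∂T.σ
          ≤ S.A i * S.A l * (Cao T b * S.C.h l ^ T.n * S.C.kp i (S.C.w l) ^ b) :=
            mul_le_mul_of_nonneg_left (hao i l hi'.le hlN) (mul_nonneg (S.A_nonneg i) hpos.le)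
        _ = _ := by ring
    have h4 := S.early_le_A hτ hpos
    have h5 := hao l l le_rfl hlN
    rw [S.C.kp_self hlN, one_pow, mul_one] at h5
    calc 2 * ∑ i ∈ Finset.range l, S.A i * S.A l * ∫ ζ, (S.C.kp i ζ ^ b * S.C.kp l ζ ^ b) ∂T.σ +
        S.A l ^ 2 * ∫ ζ, (S.C.kp l ζ ^ b * S.C.kp l ζ ^ b) ∂T.σ
        ≤ 2 * (S.A l * (Cao T b * S.C.h l ^ T.n) * (S.A l / τ)) + S.A l ^ 2 * (Cao T b * S.C.h l ^ T.n) := by
          have h6 : S.A l * (Cao T b * S.C.h l ^ T.n) * ∑ i ∈ Finset.range l, S.A i * S.C.kp i (S.C.w l) ^ b ≤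
              S.A l * (Cao T b * S.C.h l ^ T.n) * (S.A l / τ) := by gcongr
          have h7 : S.A l ^ 2 * ∫ ζ, (S.C.kp l ζ ^ b * S.C.kp l ζ ^ b) ∂T.σ ≤
              S.A l ^ 2 * (Cao T b * S.C.h l ^ T.n) := by gcongr
          linarith
      _ = _ := by field_simp

/-- shadows -/
def sh (l : ℕ) : Set E := {ζ | T.d ζ (S.C.w l) < 2 * S.C.h l}

lemma sh_meas (l : ℕ) : MeasurableSet (S.sh l) := measurableSet_lt (T.d_meas _) measurable_const

lemma sh_ge {l : ℕ} (hl : l < S.C.N) : T.cσ * (2 * S.C.h l) ^ T.n ≤ T.σ.real (S.sh l) := by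
  have h1 := T.σ_ge (S.C.w l) (2 * S.C.h l) (S.C.s_pos hl) (by rw [S.C.s_h hl])
    (by have := S.C.h_le_one l; linarith)
  rw [Measure.real]
  have h2 : T.σ (S.sh l) ≠ ⊤ := measure_ne_top _ _
  rw [← ENNReal.ofReal_le_iff_le_toReal h2]
  exact h1

/-- in common shadows amplitudes double -/
lemma double (hΛm : 2 * 16 ^ m ≤ Λ) {i l : ℕ} (hil : i < l) (hl : 0 < S.A l) {ζ : E}
    (h1 : ζ ∈ S.sh i) (h2 : ζ ∈ S.sh l) : 2 * S.A i ≤ S.A l := by
  obtain ⟨_, hlN, _⟩ := S.A_pos_iff hl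
  have hiN : i < S.C.N := lt_trans hil hlN
  have hh := S.C.h_anti hil.le hlN
  have hΛ : 0 < Λ := lt_of_lt_of_le (by positivity) hΛm
  have hk : (1/16 : ℝ) ≤ S.C.kp i (S.C.w l) := by
    unfold Cand.kp TS.kap
    rw [S.C.s_h hiN, le_div_iff₀ (TS.d_pos (S.C.s_pos hiN) _)]
    have h3 := T.tri (S.C.w l) ζ (S.C.w i)
    have h4 : T.d ζ (S.C.w i) < 2 * S.C.h i := h1
    have h5 : T.d ζ (S.C.w l) < 2 * S.C.h l := h2
    rw [T.d_symm] at h5
    linarith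
  have h3 := S.growth hΛ hil hl (by norm_num) hk
  have h4 : (2:ℝ) ≤ Λ * (1/16) ^ m := by
    have : (16:ℝ)^m * (1/16)^m = 1 := by rw [← mul_pow]; norm_num
    have h5 : (0:ℝ) < (1/16)^m := by positivity
    calc (2:ℝ) = 2 * 16 ^ m * (1/16)^m := by rw [mul_assoc, this, mul_one]
      _ ≤ Λ * (1/16)^m := by gcongr
  calc 2 * S.A i ≤ Λ * (1/16)^m * S.A i := mul_le_mul_of_nonneg_right h4 (S.A_nonneg i)
    _ ≤ S.A l := h3

/-- forced boxes -/
def forced (l : ℕ) : Prop := 0 < S.A l ∧ S.A l = τ * ∑ j ∈ Finset.range l, S.A j * S.C.kp j (S.C.w l) ^ b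

lemma forced_le (hτ : 0 < τ) {l : ℕ} (hl : S.forced l) {ζ : E} (hζ : ζ ∈ S.sh l) :
    S.A l ≤ τ * 20 ^ b * ∑ j ∈ Finset.range l, S.A j * S.C.kp j ζ ^ b := by
  obtain ⟨_, hlN, _⟩ := S.A_pos_iff hl.1
  have h0 : T.d ζ (S.C.w l) < 2 * S.C.h l := hζ
  have h1 := S.early_comp' hlN (z := ζ) (ρ := 2) (by norm_num) h0.le
  norm_num at h1
  rw [hl.2]
  calc τ * ∑ j ∈ Finset.range l, S.A j * S.C.kp j (S.C.w l) ^ b
      ≤ τ * (20 ^ b * ∑ j ∈ Finset.range l, S.A j * S.C.kp j ζ ^ b) := by gcongr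
    _ = _ := by ring

lemma early_le_a {l : ℕ} (hl : l ≤ S.C.N) (z : E) :
    ∑ j ∈ Finset.range l, S.A j * S.C.kp j z ^ b ≤ S.a z := by
  unfold a
  apply Finset.sum_le_sum_of_subset_of_nonneg
  · intro j hj; rw [Finset.mem_range] at hj ⊢; omega
  · intro j _ _; exact mul_nonneg (S.A_nonneg j) (pow_nonneg (S.C.kp_nonneg _ _) _)

/-- integral of a sum over shadows -/
lemma sh_integral (G : Finset ℕ) (hG : ∀ l ∈ G, l < S.C.N) (x : ℕ → ℝ) (hx : ∀ l, 0 ≤ x l) :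
    T.cσ * 2 ^ T.n * ∑ l ∈ G, x l * S.C.h l ^ T.n ≤
      ∫ ζ, ∑ l ∈ G, (S.sh l).indicator (fun _ => x l) ζ ∂T.σ := by
  rw [integral_finset_sum]
  · rw [Finset.mul_sum]
    apply Finset.sum_le_sum
    intro l hl
    rw [integral_indicator_const _ (S.sh_meas l), smul_eq_mul]
    have h1 := S.sh_ge (hG l hl)
    calc T.cσ * 2 ^ T.n * (x l * S.C.h l ^ T.n) = (T.cσ * (2 * S.C.h l) ^ T.n) * x l := by
          rw [mul_pow]; ring
      _ ≤ _ := mul_le_mul_of_nonneg_right h1 (hx l)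
  · intro l _
    exact (integrable_const _).indicator (S.sh_meas l)

lemma ind_sum_int (G : Finset ℕ) (x : ℕ → ℝ) :
    Integrable (fun ζ => ∑ l ∈ G, (S.sh l).indicator (fun _ => x l) ζ) T.σ :=
  integrable_finset_sum _ (fun l _ => (integrable_const _).indicator (S.sh_meas l))

/-- **(B4)** the cost estimate -/
lemma cost (hb : T.n + 1 ≤ b) (hτ : 0 < τ) (hτ1 : τ ≤ 1) (hΛm : 2 * 16 ^ m ≤ Λ)
    (hτ2 : 16 * 400 ^ b * Cao T b * τ ≤ T.cσ * 2 ^ T.n) :
    S.N2 ≤ 2 * (Cao T b * (2 / τ + 1)) * ∫ ζ, S.u.u ζ ^ 2 ∂T.σ := by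
  classical
  have hCao := Cao_pos (T := T) (b := b)
  set Q : ℝ := Cao T b * (2 / τ + 1) with hQ
  have hQ0 : 0 < Q := by positivity
  have hasq := S.int_a_sq hb hτ
  rw [← hQ] at hasq
  have hN := S.N2_nonneg
  -- split
  set F : Finset ℕ := (Finset.range S.C.N).filter (fun l => S.forced l) with hF
  have hFN : ∀ l ∈ F, l < S.C.N := fun l hl => Finset.mem_range.1 (Finset.mem_filter.1 hl).1
  have hFf : ∀ l ∈ F, S.forced l := fun l hl => (Finset.mem_filter.1 hl).2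
  have hsplit : S.N2 ≤ ∑ l ∈ Finset.range S.C.N, S.A l * (S.u.A0 b (S.C.w l) * S.C.h l ^ T.n) +
      ∑ l ∈ F, S.A l ^ 2 * S.C.h l ^ T.n := by
    unfold N2
    rw [hF, Finset.sum_filter, ← Finset.sum_add_distrib]
    apply Finset.sum_le_sum
    intro l _
    have hh := pow_pos (S.C.h_pos l) T.n
    have hA0 := S.u.A0_nonneg b (S.C.w l)
    have hAn := S.A_nonneg l
    by_cases hf : S.forced l
    · rw [if_pos hf]
      have : 0 ≤ S.A l * (S.u.A0 b (S.C.w l) * S.C.h l ^ T.n) := by positivity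
      linarith
    · rw [if_neg hf, add_zero]
      rcases eq_or_lt_of_le hAn with h0 | hpos
      · rw [← h0]; simp
      · have h1 := (S.A_pos_iff hpos).1
        have h2 : S.A l = S.u.A0 b (S.C.w l) := by
          rcases max_choice (S.u.A0 b (S.C.w l)) (τ * ∑ j ∈ Finset.range l, S.A j * S.C.kp j (S.C.w l) ^ b) with h | h
          · rw [h1]; unfold t; exact h
          · exact absurd ⟨hpos, by rw [h1]; unfold t; exact h⟩ hf
        rw [sq, mul_assoc]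
        conv_lhs => rw [h2]
        rw [← h2]
  -- natural part
  have hnat : ∑ l ∈ Finset.range S.C.N, S.A l * (S.u.A0 b (S.C.w l) * S.C.h l ^ T.n) =
      ∫ ζ, S.u.u ζ * S.a ζ ∂T.σ := by
    have h1 : ∀ ζ, S.u.u ζ * S.a ζ = ∑ l ∈ Finset.range S.C.N, S.A l * (S.u.u ζ * S.C.kp l ζ ^ b) := by
      intro ζ; unfold a; rw [Finset.mul_sum]; apply Finset.sum_congr rfl; intro l _; ring
    rw [integral_congr_ae (Eventually.of_forall h1), integral_finset_sum]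
    · apply Finset.sum_congr rfl
      intro l hl
      have hlN := Finset.mem_range.1 hl
      rw [integral_const_mul]
      congr 1
      unfold Dens.A0
      rw [S.C.s_h hlN]
      have := pow_pos (S.C.h_pos l) T.n
      unfold Cand.kp
      field_simp
    · intro l _
      exact (S.u.integrable_mul b (S.C.w l)).const_mul _
  have hu2 : Integrable (fun ζ => S.u.u ζ ^ 2) T.σ := by
    apply T.integ (S.u.meas.pow_const 2) (C := S.u.U ^ 2)
    intro x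
    rw [abs_of_nonneg (sq_nonneg _)]
    exact pow_le_pow_left₀ (S.u.nonneg x) (S.u.le x) 2
  have hyoung : ∫ ζ, S.u.u ζ * S.a ζ ∂T.σ ≤ Q * ∫ ζ, S.u.u ζ ^ 2 ∂T.σ + 1 / (4 * Q) * ∫ ζ, S.a ζ ^ 2 ∂T.σ := by
    rw [← integral_const_mul, ← integral_const_mul, ← integral_add (hu2.const_mul _) (S.a_sq_int.const_mul _)]
    apply integral_mono_of_nonneg
    · exact Eventually.of_forall (fun ζ => mul_nonneg (S.u.nonneg ζ) (S.a_nonneg ζ))
    · exact (hu2.const_mul _).add (S.a_sq_int.const_mul _)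
    · apply Eventually.of_forall
      intro ζ
      simp only
      have h1 : 0 ≤ (Q * S.u.u ζ - S.a ζ / 2) ^ 2 / Q := by positivity
      have h2 : (Q * S.u.u ζ - S.a ζ / 2) ^ 2 / Q = Q * S.u.u ζ ^ 2 + 1 / (4 * Q) * S.a ζ ^ 2 - S.u.u ζ * S.a ζ := by
        field_simp; ring
      linarith
  -- forced part
  have hforced : T.cσ * 2 ^ T.n * ∑ l ∈ F, S.A l ^ 2 * S.C.h l ^ T.n ≤
      4/3 * (τ ^ 2 * 400 ^ b) * ∫ ζ, S.a ζ ^ 2 ∂T.σ := by
    refine (S.sh_integral F hFN (fun l => S.A l ^ 2) (fun l => sq_nonneg _)).trans ?_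
    rw [← integral_const_mul]
    apply integral_mono (S.ind_sum_int F _) (S.a_sq_int.const_mul _)
    intro ζ
    simp only
    -- pointwise
    have h1 : ∑ l ∈ F, (S.sh l).indicator (fun _ => S.A l ^ 2) ζ =
        ∑ l ∈ F.filter (fun l => ζ ∈ S.sh l), S.A l ^ 2 := by
      rw [show ∑ l ∈ F.filter (fun l => ζ ∈ S.sh l), S.A l ^ 2 =
        ∑ l ∈ F, if ζ ∈ S.sh l then S.A l ^ 2 else 0 from Finset.sum_filter _ _]
      apply Finset.sum_congr rfl
      intro l _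
      rw [Set.indicator_apply]
    rw [h1]
    have haz := S.a_nonneg ζ
    have h2 := lac_sum (fun l => S.A l ^ 2) (fun l => sq_nonneg _) (θ := 1/4) (by norm_num) (by norm_num)
      (F.filter (fun l => ζ ∈ S.sh l)) ((τ * 20 ^ b * S.a ζ) ^ 2) (by positivity)
      (by
        intro l hl
        rw [Finset.mem_filter] at hl
        have h3 := S.forced_le hτ (hFf l hl.1) hl.2
        have h4 := S.early_le_a (hFN l hl.1).le ζ
        apply pow_le_pow_left₀ (S.A_nonneg l)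
        refine h3.trans ?_
        gcongr)
      (by
        intro i hi l hl hil
        rw [Finset.mem_filter] at hi hl
        have h3 := S.double hΛm hil (hFf l hl.1).1 hi.2 hl.2
        have h4 := S.A_nonneg i
        nlinarith)
    refine h2.trans (le_of_eq ?_)
    rw [show (400:ℝ)^b = (20^b)^2 by rw [← pow_mul, mul_comm, pow_mul]; norm_num]
    ring
  -- combine
  have hτQ : 4/3 * (τ ^ 2 * 400 ^ b) * Q ≤ 1/4 * (T.cσ * 2 ^ T.n) := by
    rw [hQ]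
    have h1 : τ ^ 2 * (2 / τ + 1) ≤ 3 * τ := by
      have : τ ^ 2 * (2 / τ + 1) = 2 * τ + τ ^ 2 := by field_simp
      rw [this]; nlinarith
    calc 4/3 * (τ ^ 2 * 400 ^ b) * (Cao T b * (2 / τ + 1))
        = 4/3 * 400 ^ b * Cao T b * (τ ^ 2 * (2 / τ + 1)) := by ring
      _ ≤ 4/3 * 400 ^ b * Cao T b * (3 * τ) := by gcongr
      _ ≤ _ := by linarith
  have hc := T.cσ_pos
  have hF2 : ∑ l ∈ F, S.A l ^ 2 * S.C.h l ^ T.n ≤ 1/4 * S.N2 := by
    have h1 : T.cσ * 2 ^ T.n * ∑ l ∈ F, S.A l ^ 2 * S.C.h l ^ T.n ≤ T.cσ * 2 ^ T.n * (1/4 * S.N2) := by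
      calc T.cσ * 2 ^ T.n * ∑ l ∈ F, S.A l ^ 2 * S.C.h l ^ T.n
          ≤ 4/3 * (τ ^ 2 * 400 ^ b) * ∫ ζ, S.a ζ ^ 2 ∂T.σ := hforced
        _ ≤ 4/3 * (τ ^ 2 * 400 ^ b) * (Q * S.N2) := by gcongr
        _ = 4/3 * (τ ^ 2 * 400 ^ b) * Q * S.N2 := by ring
        _ ≤ 1/4 * (T.cσ * 2 ^ T.n) * S.N2 := by gcongr
        _ = _ := by ring
    exact le_of_mul_le_mul_left h1 (by positivity)
  have hnat2 : ∑ l ∈ Finset.range S.C.N, S.A l * (S.u.A0 b (S.C.w l) * S.C.h l ^ T.n) ≤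
      Q * ∫ ζ, S.u.u ζ ^ 2 ∂T.σ + 1/4 * S.N2 := by
    rw [hnat]
    refine hyoung.trans ?_
    have h1 : 1 / (4 * Q) * ∫ ζ, S.a ζ ^ 2 ∂T.σ ≤ 1 / (4 * Q) * (Q * S.N2) := by gcongr
    have h2 : 1 / (4 * Q) * (Q * S.N2) = 1/4 * S.N2 := by field_simp
    linarith
  linarith

end Sel

end H262RU
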