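import Mathlib
set_option autoImplicit false
open MeasureTheory Set Filter
open scoped ENNReal NNReal BigOperators

namespace H262RU

/-- abstract tent space: points of the closed ball, d(z,w) = |1-<z,w>|, s(z) = 1-|z|^2,
sigma = surface measure, V = volume on the ball. -/
structure TS (E : Type*) [MeasurableSpace E] where
  n : ℕ
  d : E → E → ℝ
  s : E → ℝ
  σ : Measure E
  V : Measure E
  Cσ : ℝ
  cσ : ℝ
  CV : ℝ
  n_pos : 1 ≤ n
  Cσ_pos : 0 < Cσ
  cσ_pos : 0 < cσ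
  CV_pos : 0 < CV
  d_symm : ∀ z w, d z w = d w z
  s_nonneg : ∀ z, 0 ≤ s z
  s_le_one : ∀ z, s z ≤ 1
  s_le : ∀ z w, s z ≤ 2 * d z w
  tri : ∀ z v w, d z w ≤ 4 * (d z v + d v w)
  d_self : ∀ w, d w w = s w
  d_le : ∀ z w, d z w ≤ 2
  d_meas : ∀ w, Measurable (fun z => d z w)
  s_meas : Measurable s
  σ_le : ∀ z r, 0 < r → σ {ζ | d ζ z < r} ≤ ENNReal.ofReal (Cσ * r ^ n)
  σ_ge : ∀ w r, 0 < s w → 2 * s w ≤ r → r ≤ 10 →
    ENNReal.ofReal (cσ * r ^ n) ≤ σ {ζ | d ζ w < r}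
  V_le : ∀ z r, 0 < r → V {w | d w z < r} ≤ ENNReal.ofReal (CV * r ^ (n + 1))

/-- a finite lattice of candidate points, ordered by decreasing height -/
structure Cand {E : Type*} [MeasurableSpace E] (T : TS E) (CL : ℝ) where
  N : ℕ
  w : ℕ → E
  L : ℕ → ℕ
  Lmax : ℕ
  L_mono : ∀ i j, i ≤ j → j < N → L i ≤ L j
  L_le : ∀ i, i < N → L i ≤ Lmax
  s_eq : ∀ i, i < N → T.s (w i) = (1/2 : ℝ) ^ (L i)
  count : ∀ (l : ℕ) (z : E) (r : ℝ), (1/2 : ℝ) ^ l ≤ r →
    (((Finset.range N).filter (fun i => L i = l ∧ T.d (w i) z < r)).card : ℝ) ≤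
      CL * (r * 2 ^ l) ^ T.n
  cover : ∀ (z : E) (l : ℕ), l ≤ Lmax → T.s z ≤ (1/2 : ℝ) ^ l →
    ∃ k, k < N ∧ L k = l ∧ T.d z (w k) ≤ 3 * (1/2 : ℝ) ^ l

variable {E : Type*} [MeasurableSpace E] (T : TS E)

namespace TS

lemma d_nonneg (z w : E) : 0 ≤ T.d z w := by
  have h1 := T.s_le z w
  have h2 := T.s_nonneg z
  linarith

lemma s_le' (z w : E) : T.s w ≤ 2 * T.d z w := by
  rw [T.d_symm]; exact T.s_le w z

/-- kap w z = s(w)/d(z,w) = 1/K_w(z) -/
noncomputable def kap (w z : E) : ℝ := T.s w / T.d z w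

variable {T}

lemma d_pos {w : E} (hw : 0 < T.s w) (z : E) : 0 < T.d z w := by
  have := T.s_le' z w; linarith

lemma kap_pos {w : E} (hw : 0 < T.s w) (z : E) : 0 < T.kap w z := div_pos hw (d_pos hw z)

lemma kap_nonneg (w z : E) : 0 ≤ T.kap w z := div_nonneg (T.s_nonneg w) (T.d_nonneg z w)

lemma kap_le_two (w z : E) : T.kap w z ≤ 2 := by
  unfold kap
  rcases eq_or_lt_of_le (T.d_nonneg z w) with h | h
  · rw [← h]; simp
  · rw [div_le_iff₀ h]; exact T.s_le' z w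

lemma kap_self {w : E} (hw : 0 < T.s w) : T.kap w w = 1 := by
  unfold kap; rw [T.d_self]; exact div_self hw.ne'

lemma kap_mul_d {w : E} (hw : 0 < T.s w) (z : E) : T.kap w z * T.d z w = T.s w := by
  unfold kap; exact div_mul_cancel₀ _ (d_pos hw z).ne'

/-- if d(z,z') ≤ ρ s_w then kap w z' ≤ 4 (2ρ+1) kap w z -/
lemma kap_comp {w : E} (hw : 0 < T.s w) {z z' : E} {ρ : ℝ} (hρ : 0 ≤ ρ)
    (h : T.d z z' ≤ ρ * T.s w) : T.kap w z' ≤ 4 * (2 * ρ + 1) * T.kap w z := by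
  have h1 : T.d z w ≤ 4 * (T.d z z' + T.d z' w) := T.tri z z' w
  have h2 : T.s w ≤ 2 * T.d z' w := T.s_le' z' w
  have h3 : T.d z w ≤ 4 * (2 * ρ + 1) * T.d z' w := by nlinarith
  unfold kap
  rw [div_le_iff₀ (d_pos hw z'), mul_assoc, div_mul_eq_mul_div, mul_div_assoc', le_div_iff₀ (d_pos hw z)]
  nlinarith [T.s_nonneg w]

/-- kap w z' ≤ 4 (1 + 2 d(z,z')/s(z')) kap w z -/
lemma kap_comp' {w : E} (hw : 0 < T.s w) {z z' : E} {ρ : ℝ} (hρ : 0 ≤ ρ)
    (h : T.d z z' ≤ ρ * T.s z') : T.kap w z' ≤ 4 * (2 * ρ + 1) * T.kap w z := by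
  have h1 : T.d z w ≤ 4 * (T.d z z' + T.d z' w) := T.tri z z' w
  have h2 : T.s z' ≤ 2 * T.d z' w := T.s_le z' w
  have h3 : T.d z w ≤ 4 * (2 * ρ + 1) * T.d z' w := by nlinarith
  unfold kap
  rw [div_le_iff₀ (d_pos hw z'), mul_assoc, div_mul_eq_mul_div, mul_div_assoc', le_div_iff₀ (d_pos hw z)]
  nlinarith [T.s_nonneg w]

/-- dichotomy: either d(v,w) ≥ d(z,w)/8 or d(z,v) ≥ d(z,w)/8 -/
lemma dich (z v w : E) : T.d z w ≤ 8 * T.d v w ∨ T.d z w ≤ 8 * T.d z v := by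
  have h := T.tri z v w
  rcases le_total (T.d v w) (T.d z v) with h1 | h1
  · right; linarith
  · left; linarith

variable (T)

/-- tail estimate -/
lemma tail (μ : Measure E) (k p : ℕ) (hp : k + 1 ≤ p) (C : ℝ) (hC : 0 ≤ C) (z : E) (ρ : ℝ)
    (hρ : 0 < ρ) (h : ∀ r, ρ ≤ r → μ {ζ | T.d ζ z < r} ≤ ENNReal.ofReal (C * r ^ k)) :
    ∫⁻ ζ, ENNReal.ofReal ((ρ / (ρ + T.d ζ z)) ^ p) ∂μ ≤ ENNReal.ofReal (2 ^ (p + 1) * C * ρ ^ k) := by
  have hmeas : ∀ r, MeasurableSet {ζ | T.d ζ z < r} := fun r =>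
    measurableSet_lt (T.d_meas z) measurable_const
  have hpt : ∀ ζ, ENNReal.ofReal ((ρ / (ρ + T.d ζ z)) ^ p) ≤
      ∑' j : ℕ, ENNReal.ofReal (2 ^ p * (1/2) ^ (j * p)) *
        (Set.indicator {ζ | T.d ζ z < 2 ^ j * ρ} (fun _ => (1:ℝ≥0∞)) ζ) := by
    intro ζ
    have hd := T.d_nonneg ζ z
    have hex : ∃ j : ℕ, T.d ζ z < 2 ^ j * ρ := by
      obtain ⟨j, hj⟩ := pow_unbounded_of_one_lt (T.d ζ z / ρ) (by norm_num : (1:ℝ) < 2)
      exact ⟨j, by rwa [div_lt_iff₀ hρ] at hj⟩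
    classical
    let j := Nat.find hex
    have hj : T.d ζ z < 2 ^ j * ρ := Nat.find_spec hex
    refine le_trans ?_ (ENNReal.le_tsum j)
    have hmem : ζ ∈ {ζ | T.d ζ z < 2 ^ j * ρ} := hj
    rw [Set.indicator_of_mem hmem, mul_one]
    apply ENNReal.ofReal_le_ofReal
    rcases Nat.eq_zero_or_pos j with h0 | hpos
    · rw [h0]; simp only [Nat.zero_mul, pow_zero, mul_one]
      have h1 : ρ / (ρ + T.d ζ z) ≤ 1 := by
        rw [div_le_one (by linarith)]; linarith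
      calc (ρ / (ρ + T.d ζ z)) ^ p ≤ 1 ^ p := pow_le_pow_left₀ (by positivity) h1 p
        _ = 1 := one_pow p
        _ ≤ 2 ^ p := one_le_pow₀ (by norm_num)
    · obtain ⟨i, hi⟩ : ∃ i, j = i + 1 := ⟨j - 1, by omega⟩
      have hmin : ¬ T.d ζ z < 2 ^ i * ρ := Nat.find_min hex (by omega)
      push Not at hmin
      have h1 : ρ / (ρ + T.d ζ z) ≤ 2 * (1/2)^j := by
        rw [hi, pow_succ]
        rw [div_le_iff₀ (by linarith)]
        have : (1/2:ℝ)^i * 2^i = 1 := by rw [← mul_pow]; norm_num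
        have h5 : (0:ℝ) < (1/2)^i := by positivity
        nlinarith [mul_le_mul_of_nonneg_left hmin h5.le]
      calc (ρ / (ρ + T.d ζ z)) ^ p ≤ (2 * (1/2)^j) ^ p := pow_le_pow_left₀ (by positivity) h1 p
        _ = 2 ^ p * (1/2) ^ (j * p) := by rw [mul_pow, ← pow_mul]
  calc ∫⁻ ζ, ENNReal.ofReal ((ρ / (ρ + T.d ζ z)) ^ p) ∂μ
      ≤ ∫⁻ ζ, ∑' j : ℕ, ENNReal.ofReal (2 ^ p * (1/2) ^ (j * p)) *
        (Set.indicator {ζ | T.d ζ z < 2 ^ j * ρ} (fun _ => (1:ℝ≥0∞)) ζ) ∂μ := lintegral_mono hpt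
    _ = ∑' j : ℕ, ENNReal.ofReal (2 ^ p * (1/2) ^ (j * p)) * μ {ζ | T.d ζ z < 2 ^ j * ρ} := by
        rw [lintegral_tsum]
        · congr 1; ext j
          rw [lintegral_const_mul _ (measurable_const.indicator (hmeas _)), lintegral_indicator (hmeas _)]
          simp
        · intro j
          exact ((measurable_const.indicator (hmeas _)).const_mul _).aemeasurable
    _ ≤ ∑' j : ℕ, ENNReal.ofReal (2 ^ p * C * ρ ^ k * (1/2) ^ j) := by
        apply ENNReal.tsum_le_tsum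
        intro j
        have h1 := h (2 ^ j * ρ) (by
          have : (1:ℝ) ≤ 2 ^ j := one_le_pow₀ (by norm_num)
          nlinarith)
        calc ENNReal.ofReal (2 ^ p * (1/2) ^ (j * p)) * μ {ζ | T.d ζ z < 2 ^ j * ρ}
            ≤ ENNReal.ofReal (2 ^ p * (1/2) ^ (j * p)) * ENNReal.ofReal (C * (2 ^ j * ρ) ^ k) := by
              gcongr
          _ = ENNReal.ofReal (2 ^ p * (1/2) ^ (j * p) * (C * (2 ^ j * ρ) ^ k)) :=
              (ENNReal.ofReal_mul (by positivity)).symm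
          _ ≤ ENNReal.ofReal (2 ^ p * C * ρ ^ k * (1/2) ^ j) := by
              apply ENNReal.ofReal_le_ofReal
              obtain ⟨e, he⟩ := Nat.exists_eq_add_of_le hp
              have h2 : ((1/2:ℝ) ^ (j * p)) * (2 ^ j) ^ k = (1/2) ^ j * (1/2) ^ (j * e) := by
                rw [he]
                rw [show j * (k + 1 + e) = j * k + (j + j * e) by ring, pow_add, pow_add, ← pow_mul]
                have : (1/2:ℝ) ^ (j * k) * 2 ^ (j * k) = 1 := by rw [← mul_pow]; norm_num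
                calc (1/2:ℝ) ^ (j * k) * ((1/2) ^ j * (1/2) ^ (j * e)) * 2 ^ (j * k)
                    = ((1/2:ℝ) ^ (j * k) * 2 ^ (j * k)) * ((1/2) ^ j * (1/2) ^ (j * e)) := by ring
                  _ = _ := by rw [this, one_mul]
              have h3 : (1/2:ℝ) ^ (j * e) ≤ 1 := pow_le_one₀ (by norm_num) (by norm_num)
              calc 2 ^ p * (1/2) ^ (j * p) * (C * (2 ^ j * ρ) ^ k)
                  = 2 ^ p * C * ρ ^ k * ((1/2) ^ (j * p) * (2 ^ j) ^ k) := by rw [mul_pow]; ring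
                _ = 2 ^ p * C * ρ ^ k * (1/2) ^ j * (1/2) ^ (j * e) := by rw [h2]; ring
                _ ≤ 2 ^ p * C * ρ ^ k * (1/2) ^ j * 1 := by gcongr
                _ = _ := by ring
    _ = ENNReal.ofReal (2 ^ (p + 1) * C * ρ ^ k) := by
        rw [← ENNReal.ofReal_tsum_of_nonneg]
        · rw [tsum_mul_left, tsum_geometric_two]
          congr 1; rw [pow_succ]; ring
        · intro j; positivity
        · exact (summable_geometric_two).mul_left _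

instance : IsFiniteMeasure T.σ := ⟨by
  by_cases hne : Nonempty E
  · obtain ⟨z⟩ := hne
    have h := T.σ_le z 3 (by norm_num)
    have h2 : {ζ | T.d ζ z < 3} = univ := by
      ext ζ; simp; have := T.d_le ζ z; linarith
    rw [h2] at h
    exact lt_of_le_of_lt h ENNReal.ofReal_lt_top
  · have := not_nonempty_iff.1 hne
    have : (univ : Set E) = ∅ := Set.eq_empty_of_isEmpty univ
    rw [this]; simp⟩

instance : IsFiniteMeasure T.V := ⟨by
  by_cases hne : Nonempty E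
  · obtain ⟨z⟩ := hne
    have h := T.V_le z 3 (by norm_num)
    have h2 : {ζ | T.d ζ z < 3} = univ := by
      ext ζ; simp; have := T.d_le ζ z; linarith
    rw [h2] at h
    exact lt_of_le_of_lt h ENNReal.ofReal_lt_top
  · have := not_nonempty_iff.1 hne
    have : (univ : Set E) = ∅ := Set.eq_empty_of_isEmpty univ
    rw [this]; simp⟩

lemma kap_meas (w : E) : Measurable (fun z => T.kap w z) := by
  unfold kap; exact measurable_const.div (T.d_meas w)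

lemma kap_le_reg {w : E} (hw : 0 < T.s w) (z : E) :
    T.kap w z ≤ 3 * (T.s w / (T.s w + T.d z w)) := by
  have h1 := T.s_le' z w
  have h2 := d_pos hw z
  unfold kap
  rw [mul_div_assoc', div_le_div_iff₀ h2 (by linarith)]
  nlinarith

/-- ∫ kap^p dσ ≤ C s^n -/
lemma int_kap (p : ℕ) (hp : T.n + 1 ≤ p) {w : E} (hw : 0 < T.s w) :
    ∫⁻ ζ, ENNReal.ofReal (T.kap w ζ ^ p) ∂T.σ ≤
      ENNReal.ofReal (3 ^ p * (2 ^ (p+1) * T.Cσ) * T.s w ^ T.n) := by
  have h := T.tail T.σ T.n p hp T.Cσ T.Cσ_pos.le w (T.s w) hw (fun r hr => T.σ_le w r (by linarith))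
  calc ∫⁻ ζ, ENNReal.ofReal (T.kap w ζ ^ p) ∂T.σ
      ≤ ∫⁻ ζ, ENNReal.ofReal (3 ^ p) * ENNReal.ofReal ((T.s w / (T.s w + T.d ζ w)) ^ p) ∂T.σ := by
        apply lintegral_mono
        intro ζ
        simp only
        rw [← ENNReal.ofReal_mul (by positivity)]
        apply ENNReal.ofReal_le_ofReal
        rw [← mul_pow]
        exact pow_le_pow_left₀ (kap_nonneg _ _) (T.kap_le_reg hw ζ) p
    _ = ENNReal.ofReal (3 ^ p) * ∫⁻ ζ, ENNReal.ofReal ((T.s w / (T.s w + T.d ζ w)) ^ p) ∂T.σ := by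
        rw [lintegral_const_mul]
        apply ENNReal.measurable_ofReal.comp
        exact (measurable_const.div (measurable_const.add (T.d_meas w))).pow_const p
    _ ≤ ENNReal.ofReal (3 ^ p) * ENNReal.ofReal (2 ^ (p + 1) * T.Cσ * T.s w ^ T.n) := by gcongr
    _ = _ := by
        rw [← ENNReal.ofReal_mul (by positivity)]; congr 1; ring

/-- constant for int_kap -/
noncomputable def Ci (p : ℕ) : ℝ := 3 ^ p * (2 ^ (p+1) * T.Cσ)

lemma Ci_pos (p : ℕ) : 0 < T.Ci p := by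
  unfold Ci; have := T.Cσ_pos; positivity

/-- bounded measurable functions are integrable -/
lemma integ {f : E → ℝ} (hf : Measurable f) {C : ℝ} (hC : ∀ x, |f x| ≤ C) : Integrable f T.σ :=
  Integrable.of_bound hf.aestronglyMeasurable C (Eventually.of_forall (fun x => by
    rw [Real.norm_eq_abs]; exact hC x))

lemma real_int_le {f : E → ℝ} (hf : Measurable f) (h0 : ∀ x, 0 ≤ f x) {C : ℝ} (hC : 0 ≤ C)
    (h : ∫⁻ ζ, ENNReal.ofReal (f ζ) ∂T.σ ≤ ENNReal.ofReal C) : ∫ ζ, f ζ ∂T.σ ≤ C := by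
  rw [integral_eq_lintegral_of_nonneg_ae (Eventually.of_forall h0) hf.aestronglyMeasurable]
  exact ENNReal.toReal_le_of_le_ofReal hC h

lemma int_kap_real (p : ℕ) (hp : T.n + 1 ≤ p) {w : E} (hw : 0 < T.s w) :
    ∫ ζ, T.kap w ζ ^ p ∂T.σ ≤ T.Ci p * T.s w ^ T.n := by
  apply T.real_int_le ((T.kap_meas w).pow_const p) (fun x => pow_nonneg (kap_nonneg _ _) _)
  · have := T.Ci_pos p; positivity
  · exact T.int_kap p hp hw

/-- almost orthogonality -/
lemma ao (b : ℕ) (hb : T.n + 1 ≤ b) {w v : E} (hw : 0 < T.s w) (hv : 0 < T.s v)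
    (hvw : T.s v ≤ T.s w) :
    ∫ ζ, T.kap w ζ ^ b * T.kap v ζ ^ b ∂T.σ ≤ 2 * 8 ^ b * T.Ci b * T.s v ^ T.n * T.kap w v ^ b := by
  have hpt : ∀ ζ, T.kap w ζ ^ b * T.kap v ζ ^ b ≤
      8 ^ b * T.kap w v ^ b * T.kap v ζ ^ b +
        8 ^ b * T.kap w v ^ b * (T.s v / T.s w) ^ b * T.kap w ζ ^ b := by
    intro ζ
    have hkv := kap_nonneg (T := T) v ζ
    have hkw := kap_nonneg (T := T) w ζ
    have hkwv := kap_pos hw v
    rcases dich (T := T) v ζ w with h | h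
    · -- d v w ≤ 8 d ζ w
      have h1 : T.kap w ζ ≤ 8 * T.kap w v := by
        unfold kap
        rw [mul_div_assoc', div_le_div_iff₀ (d_pos hw ζ) (d_pos hw v)]
        nlinarith
      have h2 : T.kap w ζ ^ b ≤ (8 * T.kap w v) ^ b := pow_le_pow_left₀ hkw h1 b
      have h3 : T.kap w ζ ^ b * T.kap v ζ ^ b ≤ 8 ^ b * T.kap w v ^ b * T.kap v ζ ^ b := by
        rw [← mul_pow 8]; gcongr
      have h4 : 0 ≤ 8 ^ b * T.kap w v ^ b * (T.s v / T.s w) ^ b * T.kap w ζ ^ b := by positivity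
      linarith
    · -- d v w ≤ 8 d v ζ
      have h1 : T.kap v ζ ≤ 8 * T.kap w v * (T.s v / T.s w) := by
        unfold kap
        rw [T.d_symm ζ v]
        have hd1 : 0 < T.d v ζ := by rw [T.d_symm]; exact d_pos hv ζ
        rw [show 8 * (T.s w / T.d v w) * (T.s v / T.s w) = 8 * T.s v / T.d v w by
          field_simp]
        rw [div_le_div_iff₀ hd1 (d_pos hw v)]
        nlinarith
      have h2 : T.kap v ζ ^ b ≤ (8 * T.kap w v * (T.s v / T.s w)) ^ b := pow_le_pow_left₀ hkv h1 b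
      have h3 : T.kap w ζ ^ b * T.kap v ζ ^ b ≤
          8 ^ b * T.kap w v ^ b * (T.s v / T.s w) ^ b * T.kap w ζ ^ b := by
        calc T.kap w ζ ^ b * T.kap v ζ ^ b ≤ T.kap w ζ ^ b * (8 * T.kap w v * (T.s v / T.s w)) ^ b := by gcongr
          _ = 8 ^ b * T.kap w v ^ b * (T.s v / T.s w) ^ b * T.kap w ζ ^ b := by
            rw [mul_pow, mul_pow]; ring
      have h4 : 0 ≤ 8 ^ b * T.kap w v ^ b * T.kap v ζ ^ b := by positivity
      linarith
  have hkwv := kap_pos hw v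
  have hi1 : Integrable (fun ζ => T.kap v ζ ^ b) T.σ :=
    T.integ ((T.kap_meas v).pow_const b) (C := 2 ^ b) (fun x => by
      rw [abs_of_nonneg (pow_nonneg (kap_nonneg _ _) _)]
      exact pow_le_pow_left₀ (kap_nonneg _ _) (kap_le_two _ _) b)
  have hi2 : Integrable (fun ζ => T.kap w ζ ^ b) T.σ :=
    T.integ ((T.kap_meas w).pow_const b) (C := 2 ^ b) (fun x => by
      rw [abs_of_nonneg (pow_nonneg (kap_nonneg _ _) _)]
      exact pow_le_pow_left₀ (kap_nonneg _ _) (kap_le_two _ _) b)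
  have hi3 : Integrable (fun ζ => T.kap w ζ ^ b * T.kap v ζ ^ b) T.σ :=
    T.integ (((T.kap_meas w).pow_const b).mul ((T.kap_meas v).pow_const b)) (C := 2 ^ b * 2 ^ b)
      (fun x => by
      rw [abs_of_nonneg (mul_nonneg (pow_nonneg (kap_nonneg _ _) _) (pow_nonneg (kap_nonneg _ _) _))]
      exact mul_le_mul (pow_le_pow_left₀ (kap_nonneg _ _) (kap_le_two _ _) b)
        (pow_le_pow_left₀ (kap_nonneg _ _) (kap_le_two _ _) b)
        (pow_nonneg (kap_nonneg _ _) _) (by positivity))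
  have hI := integral_mono hi3 ((hi1.const_mul (8 ^ b * T.kap w v ^ b)).add
    (hi2.const_mul (8 ^ b * T.kap w v ^ b * (T.s v / T.s w) ^ b))) hpt
  refine hI.trans ?_
  rw [integral_add' (hi1.const_mul _) (hi2.const_mul _), integral_const_mul, integral_const_mul]
  have e1 := T.int_kap_real b hb hv
  have e2 := T.int_kap_real b hb hw
  have hCi := T.Ci_pos b
  have e3 : (T.s v / T.s w) ^ b * T.s w ^ T.n ≤ T.s v ^ T.n := by
    obtain ⟨e, he⟩ := Nat.exists_eq_add_of_le (show T.n ≤ b by omega)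
    rw [he, pow_add]
    have h1 : T.s v / T.s w ≤ 1 := by rw [div_le_one hw]; exact hvw
    have h2 : (T.s v / T.s w) ^ e ≤ 1 := pow_le_one₀ (by positivity) h1
    have h3 : (T.s v / T.s w) ^ T.n * T.s w ^ T.n = T.s v ^ T.n := by
      rw [← mul_pow, div_mul_cancel₀ _ hw.ne']
    calc (T.s v / T.s w) ^ T.n * (T.s v / T.s w) ^ e * T.s w ^ T.n
        = (T.s v / T.s w) ^ T.n * T.s w ^ T.n * (T.s v / T.s w) ^ e := by ring
      _ = T.s v ^ T.n * (T.s v / T.s w) ^ e := by rw [h3]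
      _ ≤ T.s v ^ T.n * 1 := by gcongr
      _ = _ := by ring
  have k1 : 8 ^ b * T.kap w v ^ b * ∫ ζ, T.kap v ζ ^ b ∂T.σ ≤
      8 ^ b * T.kap w v ^ b * (T.Ci b * T.s v ^ T.n) := by gcongr
  have k2 : 8 ^ b * T.kap w v ^ b * (T.s v / T.s w) ^ b * ∫ ζ, T.kap w ζ ^ b ∂T.σ ≤
      8 ^ b * T.kap w v ^ b * (T.Ci b * T.s v ^ T.n) := by
    calc 8 ^ b * T.kap w v ^ b * (T.s v / T.s w) ^ b * ∫ ζ, T.kap w ζ ^ b ∂T.σ
        ≤ 8 ^ b * T.kap w v ^ b * (T.s v / T.s w) ^ b * (T.Ci b * T.s w ^ T.n) := by gcongr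
      _ = 8 ^ b * T.kap w v ^ b * T.Ci b * ((T.s v / T.s w) ^ b * T.s w ^ T.n) := by ring
      _ ≤ 8 ^ b * T.kap w v ^ b * T.Ci b * (T.s v ^ T.n) := by gcongr
      _ = _ := by ring
  linarith

end TS

end H262RU
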