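import Pool.Agent.Helper262.RU9
import Pool.Agent.Helper157.RF.EDefs
set_option autoImplicit false
open MeasureTheory Set Filter
open scoped ENNReal NNReal BigOperators

namespace H262RU

variable {E : Type*} [MeasurableSpace E] {T : TS E} {CL : ℝ}

/-- the conditions on the parameters (`b = 2 p`) -/
structure Good (T : TS E) (CL : ℝ) (p m : ℕ) (τ Λ : ℝ) : Prop where
  hCL : 0 ≤ CL
  hp : T.n + 1 ≤ p
  hm : 2 * p + 1 ≤ m
  hτ : 0 < τ
  hτ1 : τ ≤ 1
  hΛm : 2 * 16 ^ m ≤ Λ
  hτ2 : 16 * 400 ^ (2 * p) * Sel.Cao T (2 * p) * τ ≤ T.cσ * 2 ^ T.n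
  hτD : τ * Sel.Dq T CL (2 * p) ≤ 1/2
  hτ4 : 16 * 20 ^ p * T.Ci p * Sel.C5 T m * Real.sqrt τ ≤ T.cσ * 2 ^ T.n

lemma Good.hΛ {p m : ℕ} {τ Λ : ℝ} (G : Good T CL p m τ Λ) : 1 ≤ Λ := by
  have h1 := G.hΛm
  have h2 : (1:ℝ) ≤ 16 ^ m := one_le_pow₀ (by norm_num)
  linarith

/-- suitable parameters exist -/
lemma exists_good (T : TS E) (CL : ℝ) (hCL : 0 ≤ CL) (p m : ℕ) (hp : T.n + 1 ≤ p) (hm : 2 * p + 1 ≤ m) :
    ∃ τ Λ : ℝ, Good T CL p m τ Λ := by
  have hc := T.cσ_pos
  have hCao := Sel.Cao_pos (T := T) (b := 2 * p)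
  have hCi := T.Ci_pos p
  have hDq : 0 ≤ Sel.Dq T CL (2 * p) := by
    unfold Sel.Dq
    have h1 := Sel.c1_nonneg (T := T) (b := 2 * p) hCL
    have h2 := Sel.c2_nonneg (b := 2 * p) hCL
    positivity
  have hC5 : 0 < Sel.C5 T m := by unfold Sel.C5; positivity
  set x1 : ℝ := T.cσ * 2 ^ T.n / (16 * 400 ^ (2 * p) * Sel.Cao T (2 * p)) with hx1
  set x2 : ℝ := 1 / (2 * (Sel.Dq T CL (2 * p) + 1)) with hx2
  set x3 : ℝ := T.cσ * 2 ^ T.n / (16 * 20 ^ p * T.Ci p * Sel.C5 T m) with hx3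
  have hx1p : 0 < x1 := by positivity
  have hx2p : 0 < x2 := by positivity
  have hx3p : 0 < x3 := by positivity
  set τ : ℝ := min (min 1 x1) (min x2 (x3 ^ 2)) with hτ
  have hτp : 0 < τ := by
    rw [hτ]; apply lt_min (lt_min one_pos hx1p) (lt_min hx2p (by positivity))
  have hτ1 : τ ≤ 1 := (min_le_left _ _).trans (min_le_left _ _)
  have hτx1 : τ ≤ x1 := (min_le_left _ _).trans (min_le_right _ _)
  have hτx2 : τ ≤ x2 := (min_le_right _ _).trans (min_le_left _ _)
  have hτx3 : τ ≤ x3 ^ 2 := (min_le_right _ _).trans (min_le_right _ _)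
  refine ⟨τ, 2 * 16 ^ m, hCL, hp, hm, hτp, hτ1, le_rfl, ?_, ?_, ?_⟩
  · calc 16 * 400 ^ (2 * p) * Sel.Cao T (2 * p) * τ ≤ 16 * 400 ^ (2 * p) * Sel.Cao T (2 * p) * x1 := by gcongr
      _ = _ := by rw [hx1]; field_simp
  · calc τ * Sel.Dq T CL (2 * p) ≤ x2 * (Sel.Dq T CL (2 * p) + 1) := by
          apply mul_le_mul hτx2 (by linarith) hDq hx2p.le
      _ = 1/2 := by rw [hx2]; field_simp
  · have h1 : Real.sqrt τ ≤ x3 := by
      rw [Real.sqrt_le_left hx3p.le]; exact hτx3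
    calc 16 * 20 ^ p * T.Ci p * Sel.C5 T m * Real.sqrt τ ≤ 16 * 20 ^ p * T.Ci p * Sel.C5 T m * x3 := by gcongr
      _ = _ := by rw [hx3]; field_simp

namespace Sel

section fam
variable {p m : ℕ} {τ Λ : ℝ} (S : Sel T CL (2 * p) m τ Λ)

noncomputable def CP (T : TS E) (CL : ℝ) (p m : ℕ) (τ Λ : ℝ) : ℝ :=
  2 * C3 T CL p m Λ / Real.sqrt (cB T CL (2 * p) m τ Λ) +
    ((Jm T CL (2 * p) m τ Λ : ℝ) + 1) * (CL * 16 ^ T.n)

lemma CP_nonneg (G : Good T CL p m τ Λ) : 0 ≤ CP T CL p m τ Λ := by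
  unfold CP
  have := C3_pos (T := T) (CL := CL) (p := p) (m := m) G.hCL G.hΛ
  have := G.hCL
  positivity

/-- Carleson packing of all selected boxes in a tent -/
lemma carl_tent (G : Good T CL p m τ Λ) {k : ℕ} (hk : k < S.C.N) :
    ∑ i ∈ S.tent k 16, S.C.h i ^ T.n ≤ CP T CL p m τ Λ * S.C.h k ^ T.n := by
  classical
  have hhk := S.C.h_pos k
  have hcB := cB_pos (T := T) (b := 2 * p) (m := m) G.hCL G.hτ G.hΛ
  obtain ⟨j, hj, hM⟩ := S.exists_M (S.C.w k)
  have hn : ∀ i, 0 ≤ S.C.h i ^ T.n := fun i => pow_nonneg (S.C.h_pos i).le _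
  set J1 := (S.tent k 16).filter (fun i => cB T CL (2 * p) m τ Λ * S.M (S.C.w k) ≤ S.A i) with hJ1
  set J2 := (S.tent k 16).filter (fun i => S.C.L i ≤ S.C.L k + Jm T CL (2 * p) m τ Λ) with hJ2
  have h1 : ∑ i ∈ S.tent k 16, S.C.h i ^ T.n ≤ ∑ i ∈ J1 ∪ J2, S.C.h i ^ T.n := by
    apply Finset.sum_le_sum_of_subset_of_nonneg
    · intro i hi
      rw [Finset.mem_union, hJ1, hJ2, Finset.mem_filter, Finset.mem_filter]
      rcases lt_or_ge j i with h | h
      · left
        exact ⟨hi, S.low_amp G.hCL (by have := G.hp; omega) G.hm G.hτ G.hτ1 G.hΛ G.hτD hk hj hM hi h⟩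
      · right
        have h2 := S.level_le G.hCL (by have := G.hp; omega) G.hm G.hτ G.hτ1 G.hΛ G.hτD hk hj hM
        exact ⟨hi, (S.C.L_mono i j h hj).trans h2⟩
    · intro i _ _; exact hn i
  have h2 := sum_union_le _ hn J1 J2
  have h3 := S.pack G.hCL G.hp G.hτ G.hτ1 G.hΛ G.hΛm G.hτD G.hτ4 hk _ hcB J1 (Finset.filter_subset _ _)
    (fun i hi => (Finset.mem_filter.1 hi).2)
  have h4 := S.few_levels (k := k) (Jm T CL (2 * p) m τ Λ) J2 (Finset.filter_subset _ _)
    (fun i hi => (Finset.mem_filter.1 hi).2)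
  unfold CP
  rw [add_mul]
  linarith

noncomputable def cM (T : TS E) (CL : ℝ) (p m : ℕ) (τ Λ : ℝ) : ℝ :=
  min (cB T CL (2 * p) m τ Λ) (cT T CL (2 * p) m (Jm T CL (2 * p) m τ Λ))

lemma cM_pos (G : Good T CL p m τ Λ) : 0 < cM T CL p m τ Λ :=
  lt_min (cB_pos G.hCL G.hτ G.hΛ) (cT_pos _)

/-- the final constant -/
noncomputable def CF (T : TS E) (CL : ℝ) (p m : ℕ) (τ Λ : ℝ) : ℝ :=
  2 ^ m * Ka T CL (2 * p) m τ Λ + CP T CL p m τ Λ * 24 ^ T.n + CL * 2 ^ T.n +
    2 * C3 T CL p m Λ / Real.sqrt (cM T CL p m τ Λ) * 24 ^ T.n + 1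

lemma CF_ge (G : Good T CL p m τ Λ) :
    Ka T CL (2 * p) m τ Λ ≤ CF T CL p m τ Λ ∧ 2 ^ m * Ka T CL (2 * p) m τ Λ ≤ CF T CL p m τ Λ ∧
    CP T CL p m τ Λ * 24 ^ T.n ≤ CF T CL p m τ Λ ∧ CL * 2 ^ T.n ≤ CF T CL p m τ Λ ∧
    2 * C3 T CL p m Λ / Real.sqrt (cM T CL p m τ Λ) * 24 ^ T.n ≤ CF T CL p m τ Λ ∧
    1 ≤ CF T CL p m τ Λ := by
  have h1 := Ka_pos (T := T) (CL := CL) (b := 2 * p) (m := m) G.hCL G.hτ G.hΛ
  have h2 := CP_nonneg G
  have h3 := C3_pos (T := T) (CL := CL) (p := p) (m := m) G.hCL G.hΛ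
  have h4 := G.hCL
  have h5 : (1:ℝ) ≤ 2 ^ m := one_le_pow₀ (by norm_num)
  have h6 : Ka T CL (2 * p) m τ Λ ≤ 2 ^ m * Ka T CL (2 * p) m τ Λ := by nlinarith
  have h7 : 0 ≤ CP T CL p m τ Λ * 24 ^ T.n := by positivity
  have h8 : 0 ≤ CL * 2 ^ T.n := by positivity
  have h9 : 0 ≤ 2 * C3 T CL p m Λ / Real.sqrt (cM T CL p m τ Λ) * 24 ^ T.n := by positivity
  unfold CF
  refine ⟨?_, ?_, ?_, ?_, ?_, ?_⟩ <;> linarith

lemma sum_sub {M : Type*} [AddCommMonoid M] (P : ℕ → Prop) [DecidablePred P]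
    [DecidablePred (fun l : S.selF => P l)] (f : ℕ → M) :
    ∑ l ∈ Finset.univ.filter (fun l : S.selF => P l), f l = ∑ i ∈ S.selF.filter P, f i := by
  classical
  rw [Finset.sum_filter, Finset.sum_filter]
  rw [← Finset.sum_coe_sort S.selF (fun i => if P i then f i else 0)]
  apply Finset.sum_congr rfl
  intro a _
  by_cases h : P a
  · rw [if_pos h, if_pos h]
  · rw [if_neg h, if_neg h]

/-- **the selected boxes form a family as required by block E** -/
theorem fam (G : Good T CL p m τ Λ) :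
    RFE.Fam T (2 * p) m (CF T CL p m τ Λ) (fun i : S.selF => S.C.w i) (fun i : S.selF => S.A i)
      (fun z => (⟨S.own z, S.own_mem G.hΛ z⟩ : S.selF)) := by
  classical
  obtain ⟨g1, g2, g3, g4, g5, g6⟩ := CF_ge G
  have hKa := Ka_pos (T := T) (CL := CL) (b := 2 * p) (m := m) G.hCL G.hτ G.hΛ
  have hp := G.hp
  have haw : ∀ z, RFE.aw T (2 * p) (fun i : S.selF => S.C.w i) (fun i : S.selF => S.A i) z = S.a z := by
    intro z
    rw [S.a_eq z]
    unfold RFE.aw
    rw [← Finset.sum_coe_sort S.selF (fun i => S.A i * S.C.kp i z ^ (2 * p))]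
    rfl
  refine ⟨?_, ?_, ?_, ?_, ?_, ?_, ?_, ?_, ?_⟩
  · intro i; exact S.C.s_pos ((S.mem_selF).1 i.2).1
  · intro i; exact ((S.mem_selF).1 i.2).2
  · intro i
    have : {z : E | (⟨S.own z, S.own_mem G.hΛ z⟩ : S.selF) = i} = {z | S.own z = i.1} := by
      ext z
      rw [Set.mem_setOf_eq, Set.mem_setOf_eq, Subtype.ext_iff]
    rw [this]
    exact S.own_meas i.1
  · intro z _
    obtain ⟨h1, h2⟩ := S.own_spec z
    have h3 := S.near_d G.hCL (by omega) G.hm G.hτ G.hτ1 G.hΛ G.hτD z h1 h2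
    have h4 := S.C.h_pos (S.own z)
    simp only
    rw [S.C.s_h h1]
    refine h3.trans ?_
    gcongr
  · intro z _
    rw [haw]
    obtain ⟨h1, h2⟩ := S.own_spec z
    have h3 := S.a_le_M G.hCL (by omega) G.hτ G.hΛ G.hτD z
    have h4 := S.M_le_A z h1 h2
    have h5 := S.A_nonneg (S.own z)
    calc S.a z ≤ Ka T CL (2 * p) m τ Λ * S.M z := h3
      _ ≤ Ka T CL (2 * p) m τ Λ * (2 ^ m * S.A (S.own z)) := by gcongr
      _ = (2 ^ m * Ka T CL (2 * p) m τ Λ) * S.A (S.own z) := by ring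
      _ ≤ _ := by gcongr
  · intro j l hs
    obtain ⟨hj, hAj⟩ := (S.mem_selF).1 j.2
    obtain ⟨hl, hAl⟩ := (S.mem_selF).1 l.2
    have hjl : (j : ℕ) < l := by
      by_contra hcon
      push Not at hcon
      have := S.C.s_anti hcon hj
      linarith
    obtain ⟨h1, h2, h3⟩ := S.A_pos_iff hAl
    have h4 := h3 j hjl
    rw [← h1] at h4
    have h5 := S.A_nonneg j
    have h6 : 0 ≤ S.A j * S.C.kp j (S.C.w l) ^ m := mul_nonneg h5 (pow_nonneg (S.C.kp_nonneg _ _) _)
    have h7 := G.hΛ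
    change S.A j * S.C.kp j (S.C.w l) ^ m ≤ S.A l
    nlinarith
  · intro z ρ hρ
    rw [S.sum_sub (fun i => T.d (S.C.w i) z < ρ) (fun i => T.s (S.C.w i) ^ T.n)]
    by_cases hne : ∃ l0, l0 < S.C.N ∧ T.d (S.C.w l0) z < ρ
    · obtain ⟨l0, hl0, hd0⟩ := hne
      obtain ⟨k, hk, hk1, _, hk3⟩ := S.ball_cand z ρ hρ l0 hl0 hd0
      have h1 := S.carl_tent G hk
      have hhk := S.C.h_pos k
      have hCP := CP_nonneg G
      calc ∑ i ∈ S.selF.filter (fun i => T.d (S.C.w i) z < ρ), T.s (S.C.w i) ^ T.n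
          = ∑ i ∈ S.selF.filter (fun i => T.d (S.C.w i) z < ρ), S.C.h i ^ T.n := by
            apply Finset.sum_congr rfl
            intro i hi
            rw [Finset.mem_filter, S.mem_selF] at hi
            rw [S.C.s_h hi.1.1]
        _ ≤ ∑ i ∈ S.tent k 16, S.C.h i ^ T.n := by
            apply Finset.sum_le_sum_of_subset_of_nonneg
            · intro i hi
              rw [Finset.mem_filter, S.mem_selF] at hi
              rw [S.mem_tent]
              have := hk3 i hi.1.1 hi.2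
              exact ⟨hi.1.1, this.1, this.2, hi.1.2⟩
            · intro i _ _; exact pow_nonneg (S.C.h_pos i).le _
        _ ≤ CP T CL p m τ Λ * S.C.h k ^ T.n := h1
        _ ≤ CP T CL p m τ Λ * (24 * ρ) ^ T.n := by gcongr
        _ = (CP T CL p m τ Λ * 24 ^ T.n) * ρ ^ T.n := by rw [mul_pow]; ring
        _ ≤ _ := by gcongr
    · push Not at hne
      rw [Finset.sum_eq_zero]
      · have : 0 ≤ CF T CL p m τ Λ := by linarith
        positivity
      · intro i hi
        rw [Finset.mem_filter, S.mem_selF] at hi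
        exact absurd hi.2 (not_lt.2 (hne i hi.1.1))
  · intro z t ρ ht htρ
    have hCL := G.hCL
    have hρ : 0 < ρ := lt_of_lt_of_le ht htρ
    set F := Finset.univ.filter (fun l : S.selF => t ≤ T.s (S.C.w l) ∧ T.s (S.C.w l) < 2 * t ∧
      T.d (S.C.w l) z < ρ) with hF
    have hC0 : 0 ≤ CF T CL p m τ Λ := by linarith
    rcases F.eq_empty_or_nonempty with he | ⟨l0, hl0⟩
    · rw [he]; simp; positivity
    · rw [hF, Finset.mem_filter] at hl0
      obtain ⟨_, ha, hb, _⟩ := hl0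
      have hl0N := ((S.mem_selF).1 l0.2).1
      set l := S.C.L l0 with hl
      have hs0 : T.s (S.C.w l0) = (1/2:ℝ)^l := S.C.s_eq _ hl0N
      rw [hs0] at ha hb
      have h1 : F.card ≤ ((Finset.range S.C.N).filter (fun i => S.C.L i = l ∧ T.d (S.C.w i) z < 2 * ρ)).card := by
        apply Finset.card_le_card_of_injOn (fun l : S.selF => (l : ℕ))
        · intro i hi
          rw [hF, Finset.mem_coe, Finset.mem_filter] at hi
          obtain ⟨_, ha', hb', hd'⟩ := hi
          have hiN := ((S.mem_selF).1 i.2).1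
          rw [Finset.mem_coe, Finset.mem_filter, Finset.mem_range]
          refine ⟨hiN, ?_, by linarith⟩
          rw [S.C.s_eq _ hiN] at ha' hb'
          by_contra hcon
          rcases lt_or_gt_of_ne hcon with h | h
          · have h2 : (1/2:ℝ)^l ≤ (1/2:ℝ)^(S.C.L i + 1) := pow_le_pow_of_le_one (by norm_num) (by norm_num) h
            rw [pow_succ] at h2; linarith
          · have h2 : (1/2:ℝ)^(S.C.L i) ≤ (1/2:ℝ)^(l+1) := pow_le_pow_of_le_one (by norm_num) (by norm_num) h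
            rw [pow_succ] at h2; linarith
        · intro i _ i' _ h; exact Subtype.ext h
      have h2 := S.C.count l z (2 * ρ) (by linarith)
      have h3 : 2 * ρ * 2 ^ l ≤ 2 * (ρ / t) := by
        have h4 : (2:ℝ)^l ≤ 1 / t := by
          rw [le_div_iff₀ ht]
          calc (2:ℝ)^l * t ≤ 2 ^ l * (1/2:ℝ)^l := by gcongr
            _ = 1 := by rw [← mul_pow]; norm_num
        calc 2 * ρ * 2 ^ l ≤ 2 * ρ * (1 / t) := by gcongr
          _ = _ := by ring
      calc ((F.card : ℕ) : ℝ) ≤ (((Finset.range S.C.N).filter (fun i => S.C.L i = l ∧ T.d (S.C.w i) z < 2 * ρ)).card : ℝ) := by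
            exact_mod_cast h1
        _ ≤ CL * (2 * ρ * 2 ^ l) ^ T.n := h2
        _ ≤ CL * (2 * (ρ / t)) ^ T.n := by gcongr
        _ = (CL * 2 ^ T.n) * (ρ / t) ^ T.n := by rw [mul_pow]; ring
        _ ≤ _ := by gcongr
  · intro z ρ hρ
    by_cases hne : ∃ l0, l0 < S.C.N ∧ T.d (S.C.w l0) z < ρ
    · obtain ⟨l0, hl0, hd0⟩ := hne
      obtain ⟨k, hk, hk1, hk2, hk3⟩ := S.ball_cand z ρ hρ l0 hl0 hd0
      have hcM := cM_pos G
      have hMk := S.M_pos G.hΛ (S.C.w k)
      have hhk := S.C.h_pos k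
      obtain ⟨j, hj, hM⟩ := S.exists_M (S.C.w k)
      have hten : ∀ i, i < S.C.N → 0 < S.A i → T.d (S.C.w i) z < ρ → i ∈ S.tent k 16 := by
        intro i hi hA hd
        rw [S.mem_tent]
        have := hk3 i hi hd
        exact ⟨hi, this.1, this.2, hA⟩
      refine ⟨cM T CL p m τ Λ * S.M (S.C.w k), by positivity, ?_, ?_⟩
      · intro l hd hs
        obtain ⟨hlN, hlA⟩ := (S.mem_selF).1 l.2
        have hlt := hten l hlN hlA hd
        rcases lt_or_ge j (l : ℕ) with h | h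
        · have h1 := S.low_amp G.hCL (by omega) G.hm G.hτ G.hτ1 G.hΛ G.hτD hk hj hM hlt h
          refine le_trans ?_ h1
          have : cM T CL p m τ Λ ≤ cB T CL (2 * p) m τ Λ := min_le_left _ _
          gcongr
        · rcases hk2 with hk2 | hk2
          · -- impossible
            exfalso
            have h1 := S.near_d G.hCL (by omega) G.hm G.hτ G.hτ1 G.hΛ G.hτD (S.C.w k) hj hM
            have h2 : S.C.h k ≤ 2 * (Ka T CL (2 * p) m τ Λ * S.C.h j) := by
              have := T.s_le (S.C.w k) (S.C.w j)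
              rw [S.C.s_h hk] at this
              linarith
            have h3 := S.C.h_anti h hj
            have hhj := S.C.h_pos j
            have hhl := S.C.h_pos l
            rw [S.C.s_h hlN] at hs
            have h4 : Ka T CL (2 * p) m τ Λ * S.C.h l ≤ CF T CL p m τ Λ * S.C.h l := by gcongr
            have h5 : Ka T CL (2 * p) m τ Λ * S.C.h j ≤ Ka T CL (2 * p) m τ Λ * S.C.h l := by gcongr
            linarith
          · have h1 := S.level_le G.hCL (by omega) G.hm G.hτ G.hτ1 G.hΛ G.hτD hk hj hM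
            rw [hk2, zero_add] at h1
            have h2 := S.top_amp G.hCL G.hτ G.hτ1 (Jm T CL (2 * p) m τ Λ) hj hM h1 h hlA
            refine le_trans ?_ h2
            have : cM T CL p m τ Λ ≤ cT T CL (2 * p) m (Jm T CL (2 * p) m τ Λ) := min_le_right _ _
            gcongr
      · intro H hH
        have hH0 : 0 < H := by linarith
        rw [S.sum_sub (fun i => T.d (S.C.w i) z < ρ ∧ CF T CL p m τ Λ * T.s (S.C.w i) ≤ ρ ∧
          H * (cM T CL p m τ Λ * S.M (S.C.w k)) ≤ S.A i) (fun i => T.s (S.C.w i) ^ T.n)]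
        have h1 := S.pack G.hCL G.hp G.hτ G.hτ1 G.hΛ G.hΛm G.hτD G.hτ4 hk (H * cM T CL p m τ Λ) (by positivity)
          (S.selF.filter (fun i => T.d (S.C.w i) z < ρ ∧ CF T CL p m τ Λ * T.s (S.C.w i) ≤ ρ ∧
          H * (cM T CL p m τ Λ * S.M (S.C.w k)) ≤ S.A i))
          (by
            intro i hi
            rw [Finset.mem_filter, S.mem_selF] at hi
            exact hten i hi.1.1 hi.1.2 hi.2.1)
          (by
            intro i hi
            rw [Finset.mem_filter] at hi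
            have := hi.2.2.2
            linarith)
        have h2 : ∑ i ∈ S.selF.filter (fun i => T.d (S.C.w i) z < ρ ∧ CF T CL p m τ Λ * T.s (S.C.w i) ≤ ρ ∧
          H * (cM T CL p m τ Λ * S.M (S.C.w k)) ≤ S.A i), T.s (S.C.w i) ^ T.n =
          ∑ i ∈ S.selF.filter (fun i => T.d (S.C.w i) z < ρ ∧ CF T CL p m τ Λ * T.s (S.C.w i) ≤ ρ ∧
          H * (cM T CL p m τ Λ * S.M (S.C.w k)) ≤ S.A i), S.C.h i ^ T.n := by
          apply Finset.sum_congr rfl
          intro i hi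
          rw [Finset.mem_filter, S.mem_selF] at hi
          rw [S.C.s_h hi.1.1]
        rw [h2]
        have hC3 := C3_pos (T := T) (CL := CL) (p := p) (m := m) G.hCL G.hΛ
        have hsH : 0 < Real.sqrt H := Real.sqrt_pos.2 hH0
        have hsc : 0 < Real.sqrt (cM T CL p m τ Λ) := Real.sqrt_pos.2 hcM
        refine h1.trans ?_
        rw [Real.sqrt_mul hH0.le]
        calc 2 * C3 T CL p m Λ / (Real.sqrt H * Real.sqrt (cM T CL p m τ Λ)) * S.C.h k ^ T.n
            ≤ 2 * C3 T CL p m Λ / (Real.sqrt H * Real.sqrt (cM T CL p m τ Λ)) * (24 * ρ) ^ T.n := by gcongr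
          _ = (2 * C3 T CL p m Λ / Real.sqrt (cM T CL p m τ Λ) * 24 ^ T.n) / Real.sqrt H * ρ ^ T.n := by
              rw [mul_pow]; field_simp
          _ ≤ _ := by gcongr
    · push Not at hne
      refine ⟨1, one_pos, ?_, ?_⟩
      · intro l hd _
        exact absurd hd (not_lt.2 (hne l ((S.mem_selF).1 l.2).1))
      · intro H hH
        rw [Finset.sum_eq_zero]
        · have : 0 ≤ CF T CL p m τ Λ := by linarith
          positivity
        · intro i hi
          rw [Finset.mem_filter] at hi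
          exact absurd hi.2.1 (not_lt.2 (hne i ((S.mem_selF).1 i.2).1))

end fam

section col
variable {b m : ℕ} {τ Λ : ℝ} (S : Sel T CL b m τ Λ)

lemma greedy (conf : ℕ → ℕ → Prop) (M : ℕ)
    (h : ∀ l (F : Finset ℕ), (∀ i ∈ F, i < l ∧ conf i l) → F.card ≤ M) (N : ℕ) :
    ∃ col : ℕ → Fin (M + 1), ∀ i l, i < l → l < N → conf i l → col i ≠ col l := by
  classical
  induction N with
  | zero => exact ⟨fun _ => 0, fun i l _ h => absurd h (Nat.not_lt_zero _)⟩
  | succ N ih =>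
    obtain ⟨col, hcol⟩ := ih
    set F := ((Finset.range N).filter (fun i => conf i N)) with hF
    have h1 : F.card ≤ M := h N F (fun i hi => by
      rw [hF, Finset.mem_filter, Finset.mem_range] at hi; exact hi)
    have h2 : (F.image col).card < (Finset.univ : Finset (Fin (M + 1))).card := by
      rw [Finset.card_univ, Fintype.card_fin]
      exact lt_of_le_of_lt (Finset.card_image_le.trans h1) (Nat.lt_succ_self M)
    obtain ⟨c, _, hc⟩ := Finset.exists_mem_notMem_of_card_lt_card h2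
    refine ⟨Function.update col N c, ?_⟩
    intro i l hil hl hconf
    rcases Nat.lt_succ_iff_lt_or_eq.1 hl with h3 | h3
    · rw [Function.update_of_ne (by omega), Function.update_of_ne (by omega)]
      exact hcol i l hil h3 hconf
    · subst h3
      rw [Function.update_self, Function.update_of_ne (by omega)]
      intro h4
      apply hc
      rw [Finset.mem_image]
      exact ⟨i, by rw [hF, Finset.mem_filter, Finset.mem_range]; exact ⟨hil, hconf⟩, h4⟩

/-- **the colouring** -/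
theorem sep (hτ : 0 < τ) (P K2 : ℝ) (hP : 0 < P) (hK : 0 < K2) :
    ∃ col : ℕ → Fin (⌊P * K2 ^ b / τ⌋₊ + 1),
      RFE.Sep T (fun i : S.selF => S.C.w i) (fun i : S.selF => S.A i) (fun i : S.selF => col i) P K2 := by
  classical
  obtain ⟨col, hcol⟩ := greedy (fun i l => 0 < S.A i ∧ 0 < S.A l ∧
    T.d (S.C.w i) (S.C.w l) < K2 * S.C.h i ∧ S.A l ≤ P * S.A i) ⌊P * K2 ^ b / τ⌋₊ (by
      intro l F hF
      apply Nat.le_floor
      rcases F.eq_empty_or_nonempty with he | ⟨i0, hi0⟩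
      · rw [he]; simp; positivity
      · have hAl : 0 < S.A l := (hF i0 hi0).2.2.1
        have hlN := (S.A_pos_iff hAl).2.1
        have h1 := S.early_le_A hτ hAl
        have h2 : (F.card : ℝ) * (S.A l / (P * K2 ^ b)) ≤ ∑ j ∈ Finset.range l, S.A j * S.C.kp j (S.C.w l) ^ b := by
          rw [← nsmul_eq_mul, ← Finset.sum_const]
          refine le_trans (b := ∑ j ∈ F, S.A j * S.C.kp j (S.C.w l) ^ b) ?_ ?_
          · apply Finset.sum_le_sum
            intro i hi
            obtain ⟨hil, hAi, _, hd, hA⟩ := hF i hi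
            have hiN : i < S.C.N := lt_trans hil hlN
            have h3 : 1 / K2 ≤ S.C.kp i (S.C.w l) := by
              unfold Cand.kp TS.kap
              rw [S.C.s_h hiN, div_le_div_iff₀ hK (TS.d_pos (S.C.s_pos hiN) _), T.d_symm]
              linarith
            have h4 : (1 / K2) ^ b ≤ S.C.kp i (S.C.w l) ^ b := pow_le_pow_left₀ (by positivity) h3 b
            have h5 : S.A l / P ≤ S.A i := by rw [div_le_iff₀ hP]; linarith
            calc S.A l / (P * K2 ^ b) = (S.A l / P) * (1 / K2) ^ b := by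
                  rw [one_div, inv_pow]; field_simp
              _ ≤ _ := mul_le_mul h5 h4 (by positivity) hAi.le
          · apply Finset.sum_le_sum_of_subset_of_nonneg
            · intro i hi; exact Finset.mem_range.2 (hF i hi).1
            · intro i _ _; exact mul_nonneg (S.A_nonneg i) (pow_nonneg (S.C.kp_nonneg _ _) _)
        have h3 := h2.trans h1
        rw [le_div_iff₀ hτ]
        have h4 : (F.card : ℝ) * τ * S.A l ≤ (P * K2 ^ b) * S.A l := by
          rw [mul_div_assoc', div_le_div_iff₀ (by positivity) hτ] at h3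
          linarith
        exact le_of_mul_le_mul_right h4 hAl) S.C.N
  refine ⟨col, ?_⟩
  have key : ∀ i l : ℕ, i ∈ S.selF → l ∈ S.selF → i < l → col i = col l →
      T.d (S.C.w i) (S.C.w l) < K2 * max (T.s (S.C.w i)) (T.s (S.C.w l)) →
      P * S.A i < S.A l := by
    intro i l hi hl hil hc hd
    rw [S.mem_selF] at hi hl
    rw [max_eq_left (S.C.s_anti hil.le hl.1), S.C.s_h hi.1] at hd
    by_contra hcon
    push Not at hcon
    exact hcol i l hil hl.1 ⟨hi.2, hl.2, hd, hcon⟩ hc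
  intro i l hne hc hd
  have hne' : (i : ℕ) ≠ l := fun h => hne (Subtype.ext h)
  rcases lt_or_gt_of_ne hne' with h | h
  · left; exact key i l i.2 l.2 h hc hd
  · right
    apply key l i l.2 i.2 h hc.symm
    rw [T.d_symm, max_comm]
    exact hd

end col

end Sel

end H262RU
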