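import Pool.Agent.Helper262.RU1
set_option autoImplicit false
open MeasureTheory Set Filter
open scoped ENNReal NNReal BigOperators

namespace H262RU

variable {E : Type*} [MeasurableSpace E] {T : TS E} {CL : ℝ}

namespace Cand

variable (C : Cand T CL)

/-- height of candidate -/
noncomputable def h (i : ℕ) : ℝ := (1/2 : ℝ) ^ (C.L i)

lemma h_pos (i : ℕ) : 0 < C.h i := by unfold h; positivity

lemma h_le_one (i : ℕ) : C.h i ≤ 1 := pow_le_one₀ (by norm_num) (by norm_num)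

lemma s_h {i : ℕ} (hi : i < C.N) : T.s (C.w i) = C.h i := C.s_eq i hi

lemma s_pos {i : ℕ} (hi : i < C.N) : 0 < T.s (C.w i) := by rw [C.s_h hi]; exact C.h_pos i

lemma h_anti {i j : ℕ} (hij : i ≤ j) (hj : j < C.N) : C.h j ≤ C.h i := by
  unfold h
  exact pow_le_pow_of_le_one (by norm_num) (by norm_num) (C.L_mono i j hij hj)

lemma s_anti {i j : ℕ} (hij : i ≤ j) (hj : j < C.N) : T.s (C.w j) ≤ T.s (C.w i) := by
  rw [C.s_h hj, C.s_h (lt_of_le_of_lt hij hj)]; exact C.h_anti hij hj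

/-- kap of candidate -/
noncomputable def kp (i : ℕ) (z : E) : ℝ := T.kap (C.w i) z

lemma kp_nonneg (i : ℕ) (z : E) : 0 ≤ C.kp i z := TS.kap_nonneg _ _

lemma kp_le_two (i : ℕ) (z : E) : C.kp i z ≤ 2 := TS.kap_le_two _ _

lemma kp_pos {i : ℕ} (hi : i < C.N) (z : E) : 0 < C.kp i z := TS.kap_pos (C.s_pos hi) z

lemma kp_self {i : ℕ} (hi : i < C.N) : C.kp i (C.w i) = 1 := TS.kap_self (C.s_pos hi)

lemma kp_meas (i : ℕ) : Measurable (C.kp i) := T.kap_meas _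

/-- candidates of a level -/
noncomputable def lev (l : ℕ) : Finset ℕ := (Finset.range C.N).filter (fun i => C.L i = l)

lemma mem_lev {l i : ℕ} : i ∈ C.lev l ↔ i < C.N ∧ C.L i = l := by
  unfold lev; simp

lemma h_lev {l i : ℕ} (hi : i ∈ C.lev l) : C.h i = (1/2 : ℝ) ^ l := by
  unfold h; rw [((C.mem_lev).1 hi).2]

lemma sum_reg (hCL : 0 ≤ CL) (p : ℕ) (hp : T.n + 1 ≤ p) (l : ℕ) (z : E) (ρ : ℝ)
    (hρ : (1/2 : ℝ) ^ l ≤ ρ) :
    ∑ i ∈ C.lev l, (ρ / (ρ + T.d (C.w i) z)) ^ p ≤ 2 ^ (p + 1) * (CL * 2 ^ (l * T.n)) * ρ ^ T.n := by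
  have hl : (0:ℝ) < (1/2:ℝ)^l := by positivity
  have hρ0 : 0 < ρ := lt_of_lt_of_le hl hρ
  set μ : Measure E := ∑ i ∈ C.lev l, Measure.dirac (C.w i) with hμ
  have hmeas : ∀ r, MeasurableSet {ζ | T.d ζ z < r} := fun r =>
    measurableSet_lt (T.d_meas z) measurable_const
  have hcnt : ∀ r, ρ ≤ r → μ {ζ | T.d ζ z < r} ≤ ENNReal.ofReal (CL * 2 ^ (l * T.n) * r ^ T.n) := by
    intro r hr
    have h1 : μ {ζ | T.d ζ z < r} =
        (((Finset.range C.N).filter (fun i => C.L i = l ∧ T.d (C.w i) z < r)).card : ℝ≥0∞) := by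
      rw [hμ, Measure.finset_sum_apply]
      have : ∀ i ∈ C.lev l, (Measure.dirac (C.w i)) {ζ | T.d ζ z < r} =
          if T.d (C.w i) z < r then (1:ℝ≥0∞) else 0 := by
        intro i _
        rw [Measure.dirac_apply' _ (hmeas r)]
        simp only [Set.indicator_apply, Set.mem_setOf_eq, Pi.one_apply]
      rw [Finset.sum_congr rfl this, ← Finset.sum_filter]
      unfold lev
      rw [Finset.filter_filter]
      simp
    rw [h1]
    have h2 := C.count l z r (hρ.trans hr)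
    rw [← ENNReal.ofReal_natCast]
    apply ENNReal.ofReal_le_ofReal
    refine h2.trans (le_of_eq ?_)
    rw [mul_pow, ← pow_mul]; ring
  have hmain := T.tail μ T.n p hp (CL * 2 ^ (l * T.n)) (by positivity) z ρ hρ0 hcnt
  have hfm : Measurable (fun ζ => ENNReal.ofReal ((ρ / (ρ + T.d ζ z)) ^ p)) := by
    apply ENNReal.measurable_ofReal.comp
    exact (measurable_const.div (measurable_const.add (T.d_meas z))).pow_const p
  rw [hμ, lintegral_finset_sum_measure] at hmain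
  have h3 : ∀ i ∈ C.lev l, ∫⁻ ζ, ENNReal.ofReal ((ρ / (ρ + T.d ζ z)) ^ p) ∂(Measure.dirac (C.w i)) =
      ENNReal.ofReal ((ρ / (ρ + T.d (C.w i) z)) ^ p) := by
    intro i _
    rw [lintegral_dirac' _ hfm]
  rw [Finset.sum_congr rfl h3, ← ENNReal.ofReal_sum_of_nonneg] at hmain
  · exact (ENNReal.ofReal_le_ofReal_iff (by positivity)).1 hmain
  · intro i _
    have := T.d_nonneg (C.w i) z
    positivity

/-- constant for level sums -/
noncomputable def CS (T : TS E) (CL : ℝ) (p : ℕ) : ℝ := (3/2) ^ p * (2 ^ (p+1) * CL) * 2 ^ T.n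

lemma CS_nonneg (hCL : 0 ≤ CL) (p : ℕ) : 0 ≤ CS T CL p := by unfold CS; positivity

lemma sum_kap (hCL : 0 ≤ CL) (p : ℕ) (hp : T.n + 1 ≤ p) (l : ℕ) (z : E) (R : ℝ) (hR : 1/2 ≤ R)
    (G : Finset ℕ) (hG : G ⊆ C.lev l) (hGR : ∀ i ∈ G, R * C.kp i z ≤ 1) :
    ∑ i ∈ G, C.kp i z ^ p ≤ CS T CL p * (R ^ T.n / R ^ p) := by
  have hR0 : 0 < R := by linarith
  set ρ : ℝ := 2 * R * (1/2)^l with hρ
  have hl : (0:ℝ) < (1/2:ℝ)^l := by positivity
  have hρl : (1/2:ℝ)^l ≤ ρ := by rw [hρ]; nlinarith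
  have hρ0 : 0 < ρ := by linarith
  have h1 := C.sum_reg hCL p hp l z ρ hρl
  have hterm : ∀ i ∈ G, C.kp i z ^ p ≤ (3 / (2 * R)) ^ p * (ρ / (ρ + T.d (C.w i) z)) ^ p := by
    intro i hi
    have hil := hG hi
    have hiN := ((C.mem_lev).1 hil).1
    rw [← mul_pow]
    apply pow_le_pow_left₀ (C.kp_nonneg i z)
    have hs : T.s (C.w i) = (1/2)^l := by rw [C.s_h hiN, C.h_lev hil]
    have hd : 0 < T.d z (C.w i) := TS.d_pos (C.s_pos hiN) z
    have hk : C.kp i z = (1/2)^l / T.d z (C.w i) := by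
      unfold kp TS.kap; rw [hs]
    have h2 := hGR i hi
    rw [hk, mul_div_assoc', div_le_one hd] at h2
    rw [hk, T.d_symm (C.w i) z, div_mul_div_comm, div_le_div_iff₀ hd (by positivity)]
    rw [hρ]
    have h3 : 2 * R * (1/2:ℝ)^l + T.d z (C.w i) ≤ 3 * T.d z (C.w i) := by linarith
    have h4 : (0:ℝ) ≤ (1/2:ℝ)^l * (2 * R) := by positivity
    nlinarith [mul_le_mul_of_nonneg_left h3 h4]
  calc ∑ i ∈ G, C.kp i z ^ p ≤ ∑ i ∈ G, (3 / (2 * R)) ^ p * (ρ / (ρ + T.d (C.w i) z)) ^ p :=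
        Finset.sum_le_sum hterm
    _ ≤ ∑ i ∈ C.lev l, (3 / (2 * R)) ^ p * (ρ / (ρ + T.d (C.w i) z)) ^ p := by
        apply Finset.sum_le_sum_of_subset_of_nonneg hG
        intro i _ _
        have := T.d_nonneg (C.w i) z
        positivity
    _ = (3 / (2 * R)) ^ p * ∑ i ∈ C.lev l, (ρ / (ρ + T.d (C.w i) z)) ^ p := by
        rw [Finset.mul_sum]
    _ ≤ (3 / (2 * R)) ^ p * (2 ^ (p + 1) * (CL * 2 ^ (l * T.n)) * ρ ^ T.n) := by gcongr
    _ = CS T CL p * (R ^ T.n / R ^ p) := by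
        unfold CS
        rw [hρ, mul_pow, mul_pow, show (3 / (2 * R)) ^ p = 3 ^ p / (2 ^ p * R ^ p) by
          rw [div_pow, mul_pow], show (3 / 2 : ℝ) ^ p = 3 ^ p / 2 ^ p by rw [div_pow]]
        have h5 : (2:ℝ) ^ (l * T.n) * ((1/2:ℝ)^l) ^ T.n = 1 := by
          rw [← pow_mul, ← mul_pow]; norm_num
        have h6 : R ^ p ≠ 0 := by positivity
        have h7 : (2:ℝ) ^ p ≠ 0 := by positivity
        calc 3 ^ p / (2 ^ p * R ^ p) * (2 ^ (p + 1) * (CL * 2 ^ (l * T.n)) * (2 ^ T.n * R ^ T.n * ((1 / 2) ^ l) ^ T.n))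
            = 3 ^ p / (2 ^ p * R ^ p) * (2 ^ (p + 1) * CL * (2 ^ T.n * R ^ T.n)) * (2 ^ (l * T.n) * ((1 / 2) ^ l) ^ T.n) := by ring
          _ = 3 ^ p / (2 ^ p * R ^ p) * (2 ^ (p + 1) * CL * (2 ^ T.n * R ^ T.n)) := by rw [h5, mul_one]
          _ = _ := by field_simp

lemma kp_half (i : ℕ) (z : E) : (1/2) * C.kp i z ≤ 1 := by
  have := C.kp_le_two i z; linarith

noncomputable def CS' (T : TS E) (CL : ℝ) (p : ℕ) : ℝ := CS T CL p * ((1/2:ℝ) ^ T.n / (1/2:ℝ) ^ p)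

lemma CS'_nonneg (hCL : 0 ≤ CL) (p : ℕ) : 0 ≤ CS' T CL p := by
  unfold CS'; have := CS_nonneg (T := T) hCL p; positivity

lemma sum_kap_all (hCL : 0 ≤ CL) (p : ℕ) (hp : T.n + 1 ≤ p) (l : ℕ) (z : E) :
    ∑ i ∈ C.lev l, C.kp i z ^ p ≤ CS' T CL p :=
  C.sum_kap hCL p hp l z (1/2) le_rfl _ (Finset.Subset.refl _) (fun i _ => C.kp_half i z)

/-- Σ_{level l} kap(w_k)(w_i)^p ≤ C (s_k/s)^n, for s ≤ s_k -/
lemma sum_kap_up (hCL : 0 ≤ CL) (p : ℕ) (hp : T.n + 1 ≤ p) (l : ℕ) {v : E}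
    (hv : (1/2:ℝ)^l ≤ T.s v) :
    ∑ i ∈ C.lev l, T.kap v (C.w i) ^ p ≤ 3 ^ p * (2 ^ (p + 1) * CL) * (T.s v * 2 ^ l) ^ T.n := by
  have hl : (0:ℝ) < (1/2:ℝ)^l := by positivity
  have hv0 : 0 < T.s v := by linarith
  have h1 := C.sum_reg hCL p hp l v (T.s v) hv
  calc ∑ i ∈ C.lev l, T.kap v (C.w i) ^ p
      ≤ ∑ i ∈ C.lev l, 3 ^ p * (T.s v / (T.s v + T.d (C.w i) v)) ^ p := by
        apply Finset.sum_le_sum
        intro i _
        rw [← mul_pow]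
        exact pow_le_pow_left₀ (TS.kap_nonneg _ _) (T.kap_le_reg hv0 _) p
    _ = 3 ^ p * ∑ i ∈ C.lev l, (T.s v / (T.s v + T.d (C.w i) v)) ^ p := by rw [Finset.mul_sum]
    _ ≤ 3 ^ p * (2 ^ (p + 1) * (CL * 2 ^ (l * T.n)) * T.s v ^ T.n) := by gcongr
    _ = _ := by rw [mul_pow, ← pow_mul]; ring

/-- composition: level l, s = 2^-l, s ≤ s_v, s ≤ 2 s(z) -/
lemma comp1 (hCL : 0 ≤ CL) (b : ℕ) (hb : T.n + 1 ≤ b) (l : ℕ) {v z : E}
    (hv : (1/2:ℝ)^l ≤ T.s v) (hz : (1/2:ℝ)^l ≤ 2 * T.s z) :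
    ∑ i ∈ C.lev l, T.kap v (C.w i) ^ b * C.kp i z ^ b ≤
      (8 ^ b * CS T CL b * 2 ^ b * ((1/2)^l / T.s z) ^ (b - T.n) +
       8 ^ b * (3 ^ b * (2 ^ (b + 1) * CL)) * ((1/2)^l / T.s v) ^ (b - T.n)) * T.kap v z ^ b := by
  have hl : (0:ℝ) < (1/2:ℝ)^l := by positivity
  have hv0 : 0 < T.s v := by linarith
  have hz0 : 0 < T.s z := by linarith
  have hkv := TS.kap_nonneg (T := T) v z
  set s : ℝ := (1/2:ℝ)^l with hs
  obtain ⟨q, hq⟩ := Nat.exists_eq_add_of_le (show T.n ≤ b by omega)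
  have hbq : b - T.n = q := by omega
  rw [hbq]
  -- R
  set R : ℝ := max (1/2) (T.s z / (2 * s)) with hR
  have hR1 : 1/2 ≤ R := le_max_left _ _
  have hR2 : T.s z / (2 * s) ≤ R := le_max_right _ _
  have hR0 : 0 < R := by linarith
  have hGR : ∀ i ∈ C.lev l, R * C.kp i z ≤ 1 := by
    intro i hi
    have hiN := ((C.mem_lev).1 hi).1
    have hsi : T.s (C.w i) = s := by rw [C.s_h hiN, C.h_lev hi]
    have hd : 0 < T.d z (C.w i) := TS.d_pos (C.s_pos hiN) z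
    rcases max_cases (1/2:ℝ) (T.s z / (2 * s)) with ⟨h, _⟩ | ⟨h, _⟩
    · rw [hR, h]; exact C.kp_half i z
    · rw [hR, h]
      unfold kp TS.kap
      rw [hsi, div_mul_div_comm, div_le_one (by positivity)]
      have := T.s_le z (C.w i)
      nlinarith
  have hA := C.sum_kap hCL b hb l z R hR1 _ (Finset.Subset.refl _) hGR
  have hRq : R ^ T.n / R ^ b ≤ (2 * s / T.s z) ^ q := by
    rw [hq, pow_add, ← div_div, div_self (by positivity), ← one_div_pow]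
    apply pow_le_pow_left₀ (by positivity)
    rw [div_le_div_iff₀ hR0 hz0]
    rw [div_le_iff₀ (by positivity)] at hR2
    linarith
  have hB := C.sum_kap_up hCL b hb l hv
  have hpt : ∀ i ∈ C.lev l, T.kap v (C.w i) ^ b * C.kp i z ^ b ≤
      8 ^ b * T.kap v z ^ b * C.kp i z ^ b + 8 ^ b * (s / T.s v) ^ b * T.kap v z ^ b * T.kap v (C.w i) ^ b := by
    intro i hi
    have hiN := ((C.mem_lev).1 hi).1
    have hsi : T.s (C.w i) = s := by rw [C.s_h hiN, C.h_lev hi]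
    have k1 := C.kp_nonneg i z
    have k2 := TS.kap_nonneg (T := T) v (C.w i)
    rcases TS.dich (T := T) z (C.w i) v with h | h
    · -- d z v ≤ 8 d (w i) v
      have h1 : T.kap v (C.w i) ≤ 8 * T.kap v z := by
        unfold TS.kap
        rw [mul_div_assoc', div_le_div_iff₀ (TS.d_pos hv0 _) (TS.d_pos hv0 _)]
        nlinarith
      have h2 : T.kap v (C.w i) ^ b ≤ 8 ^ b * T.kap v z ^ b := by
        rw [← mul_pow]; exact pow_le_pow_left₀ k2 h1 b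
      have h3 : T.kap v (C.w i) ^ b * C.kp i z ^ b ≤ 8 ^ b * T.kap v z ^ b * C.kp i z ^ b := by
        gcongr
      have h4 : 0 ≤ 8 ^ b * (s / T.s v) ^ b * T.kap v z ^ b * T.kap v (C.w i) ^ b := by positivity
      linarith
    · -- d z v ≤ 8 d z (w i)
      have h1 : C.kp i z ≤ 8 * (s / T.s v) * T.kap v z := by
        unfold kp TS.kap
        rw [hsi]
        rw [show 8 * (s / T.s v) * (T.s v / T.d z v) = 8 * s / T.d z v by field_simp]
        rw [div_le_div_iff₀ (TS.d_pos (C.s_pos hiN) _) (TS.d_pos hv0 _)]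
        nlinarith
      have h2 : C.kp i z ^ b ≤ 8 ^ b * (s / T.s v) ^ b * T.kap v z ^ b := by
        rw [← mul_pow, ← mul_pow]; exact pow_le_pow_left₀ k1 h1 b
      have h3 : T.kap v (C.w i) ^ b * C.kp i z ^ b ≤
          8 ^ b * (s / T.s v) ^ b * T.kap v z ^ b * T.kap v (C.w i) ^ b := by
        calc T.kap v (C.w i) ^ b * C.kp i z ^ b
            ≤ T.kap v (C.w i) ^ b * (8 ^ b * (s / T.s v) ^ b * T.kap v z ^ b) := by gcongr
          _ = _ := by ring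
      have h4 : 0 ≤ 8 ^ b * T.kap v z ^ b * C.kp i z ^ b := by positivity
      linarith
  have hCS := CS_nonneg (T := T) hCL b
  calc ∑ i ∈ C.lev l, T.kap v (C.w i) ^ b * C.kp i z ^ b
      ≤ ∑ i ∈ C.lev l, (8 ^ b * T.kap v z ^ b * C.kp i z ^ b +
          8 ^ b * (s / T.s v) ^ b * T.kap v z ^ b * T.kap v (C.w i) ^ b) := Finset.sum_le_sum hpt
    _ = 8 ^ b * T.kap v z ^ b * ∑ i ∈ C.lev l, C.kp i z ^ b +
          8 ^ b * (s / T.s v) ^ b * T.kap v z ^ b * ∑ i ∈ C.lev l, T.kap v (C.w i) ^ b := by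
        rw [Finset.sum_add_distrib, Finset.mul_sum, Finset.mul_sum]
    _ ≤ 8 ^ b * T.kap v z ^ b * (CS T CL b * (2 * s / T.s z) ^ q) +
          8 ^ b * (s / T.s v) ^ b * T.kap v z ^ b *
            (3 ^ b * (2 ^ (b + 1) * CL) * (T.s v * 2 ^ l) ^ T.n) := by
        gcongr
        exact hA.trans (by gcongr)
    _ ≤ _ := by
        have e1 : (2 * s / T.s z) ^ q ≤ 2 ^ b * (s / T.s z) ^ q := by
          rw [mul_div_assoc, mul_pow]
          have : (2:ℝ) ^ q ≤ 2 ^ b := pow_le_pow_right₀ (by norm_num) (by omega)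
          gcongr
        have e2 : (s / T.s v) ^ b * (T.s v * 2 ^ l) ^ T.n = (s / T.s v) ^ q := by
          rw [hq, pow_add]
          have : (s / T.s v) ^ T.n * (T.s v * 2 ^ l) ^ T.n = 1 := by
            rw [← mul_pow]
            have : s / T.s v * (T.s v * 2 ^ l) = 1 := by
              rw [hs]; field_simp
              rw [← mul_pow]; norm_num
            rw [this, one_pow]
          calc (s / T.s v) ^ T.n * (s / T.s v) ^ q * (T.s v * 2 ^ l) ^ T.n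
              = ((s / T.s v) ^ T.n * (T.s v * 2 ^ l) ^ T.n) * (s / T.s v) ^ q := by ring
            _ = _ := by rw [this, one_mul]
        calc 8 ^ b * T.kap v z ^ b * (CS T CL b * (2 * s / T.s z) ^ q) +
          8 ^ b * (s / T.s v) ^ b * T.kap v z ^ b *
            (3 ^ b * (2 ^ (b + 1) * CL) * (T.s v * 2 ^ l) ^ T.n)
            = 8 ^ b * T.kap v z ^ b * (CS T CL b * (2 * s / T.s z) ^ q) +
          8 ^ b * T.kap v z ^ b * (3 ^ b * (2 ^ (b + 1) * CL)) * ((s / T.s v) ^ b * (T.s v * 2 ^ l) ^ T.n) := by ring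
          _ ≤ 8 ^ b * T.kap v z ^ b * (CS T CL b * (2 ^ b * (s / T.s z) ^ q)) +
          8 ^ b * T.kap v z ^ b * (3 ^ b * (2 ^ (b + 1) * CL)) * (s / T.s v) ^ q := by
              rw [e2]; gcongr
          _ = _ := by ring

/-- composition with a general point ζ -/
lemma comp2 (hCL : 0 ≤ CL) (b : ℕ) (hb : T.n + 1 ≤ b) (l : ℕ) {z : E}
    (hz : (1/2:ℝ)^l ≤ 2 * T.s z) (ζ : E) :
    ∑ i ∈ C.lev l, C.kp i ζ ^ b * C.kp i z ^ b ≤
      (2 * 8 ^ b * CS' T CL b) * ((1/2)^l / T.s z) ^ b * T.kap z ζ ^ b := by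
  have hl : (0:ℝ) < (1/2:ℝ)^l := by positivity
  have hz0 : 0 < T.s z := by linarith
  set s : ℝ := (1/2:ℝ)^l with hs
  have hkz := TS.kap_nonneg (T := T) z ζ
  have hA := C.sum_kap_all hCL b hb l z
  have hB := C.sum_kap_all hCL b hb l ζ
  have hCS := CS'_nonneg (T := T) hCL b
  have hpt : ∀ i ∈ C.lev l, C.kp i ζ ^ b * C.kp i z ^ b ≤
      8 ^ b * (s / T.s z) ^ b * T.kap z ζ ^ b * C.kp i z ^ b +
      8 ^ b * (s / T.s z) ^ b * T.kap z ζ ^ b * C.kp i ζ ^ b := by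
    intro i hi
    have hiN := ((C.mem_lev).1 hi).1
    have hsi : T.s (C.w i) = s := by rw [C.s_h hiN, C.h_lev hi]
    have k1 := C.kp_nonneg i z
    have k2 := C.kp_nonneg i ζ
    have hdz : 0 < T.d ζ z := TS.d_pos hz0 ζ
    rcases TS.dich (T := T) ζ (C.w i) z with h | h
    · -- d ζ z ≤ 8 d (w i) z
      have h1 : C.kp i z ≤ 8 * (s / T.s z) * T.kap z ζ := by
        unfold kp TS.kap
        rw [hsi, T.d_symm z (C.w i)]
        rw [show 8 * (s / T.s z) * (T.s z / T.d ζ z) = 8 * s / T.d ζ z by field_simp]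
        rw [div_le_div_iff₀ (by rw [T.d_symm]; exact TS.d_pos (C.s_pos hiN) _) hdz]
        nlinarith
      have h2 : C.kp i z ^ b ≤ 8 ^ b * (s / T.s z) ^ b * T.kap z ζ ^ b := by
        rw [← mul_pow, ← mul_pow]; exact pow_le_pow_left₀ k1 h1 b
      have h3 : C.kp i ζ ^ b * C.kp i z ^ b ≤
          8 ^ b * (s / T.s z) ^ b * T.kap z ζ ^ b * C.kp i ζ ^ b := by
        calc C.kp i ζ ^ b * C.kp i z ^ b
            ≤ C.kp i ζ ^ b * (8 ^ b * (s / T.s z) ^ b * T.kap z ζ ^ b) := by gcongr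
          _ = _ := by ring
      have h4 : 0 ≤ 8 ^ b * (s / T.s z) ^ b * T.kap z ζ ^ b * C.kp i z ^ b := by positivity
      linarith
    · -- d ζ z ≤ 8 d ζ (w i)
      have h1 : C.kp i ζ ≤ 8 * (s / T.s z) * T.kap z ζ := by
        unfold kp TS.kap
        rw [hsi]
        rw [show 8 * (s / T.s z) * (T.s z / T.d ζ z) = 8 * s / T.d ζ z by field_simp]
        rw [div_le_div_iff₀ (TS.d_pos (C.s_pos hiN) _) hdz]
        nlinarith
      have h2 : C.kp i ζ ^ b ≤ 8 ^ b * (s / T.s z) ^ b * T.kap z ζ ^ b := by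
        rw [← mul_pow, ← mul_pow]; exact pow_le_pow_left₀ k2 h1 b
      have h3 : C.kp i ζ ^ b * C.kp i z ^ b ≤
          8 ^ b * (s / T.s z) ^ b * T.kap z ζ ^ b * C.kp i z ^ b := by
        gcongr
      have h4 : 0 ≤ 8 ^ b * (s / T.s z) ^ b * T.kap z ζ ^ b * C.kp i ζ ^ b := by positivity
      linarith
  calc ∑ i ∈ C.lev l, C.kp i ζ ^ b * C.kp i z ^ b
      ≤ ∑ i ∈ C.lev l, (8 ^ b * (s / T.s z) ^ b * T.kap z ζ ^ b * C.kp i z ^ b +
      8 ^ b * (s / T.s z) ^ b * T.kap z ζ ^ b * C.kp i ζ ^ b) := Finset.sum_le_sum hpt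
    _ = 8 ^ b * (s / T.s z) ^ b * T.kap z ζ ^ b * ∑ i ∈ C.lev l, C.kp i z ^ b +
      8 ^ b * (s / T.s z) ^ b * T.kap z ζ ^ b * ∑ i ∈ C.lev l, C.kp i ζ ^ b := by
        rw [Finset.sum_add_distrib, Finset.mul_sum, Finset.mul_sum]
    _ ≤ 8 ^ b * (s / T.s z) ^ b * T.kap z ζ ^ b * CS' T CL b +
      8 ^ b * (s / T.s z) ^ b * T.kap z ζ ^ b * CS' T CL b := by gcongr
    _ = _ := by ring

end Cand

end H262RU
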