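import Pool.Agent.Helper262.RU2
set_option autoImplicit false
open MeasureTheory Set Filter
open scoped ENNReal NNReal BigOperators

namespace H262RU

variable {E : Type*} [MeasurableSpace E] {T : TS E} {CL : ℝ}

/-- a nonnegative bounded density on the sphere -/
structure Dens (T : TS E) where
  u : E → ℝ
  meas : Measurable u
  nonneg : ∀ x, 0 ≤ u x
  U : ℝ
  le : ∀ x, u x ≤ U

namespace Dens

variable (u : Dens T) (b : ℕ)

/-- A0(w) = ∫ u P_w dσ -/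
noncomputable def A0 (w : E) : ℝ := (∫ ζ, u.u ζ * T.kap w ζ ^ b ∂T.σ) / T.s w ^ T.n

lemma integrable_mul (w : E) : Integrable (fun ζ => u.u ζ * T.kap w ζ ^ b) T.σ := by
  apply T.integ (u.meas.mul ((T.kap_meas w).pow_const b)) (C := u.U * 2 ^ b)
  intro x
  change |u.u x * T.kap w x ^ b| ≤ _
  rw [abs_of_nonneg (mul_nonneg (u.nonneg x) (pow_nonneg (TS.kap_nonneg _ _) _))]
  exact mul_le_mul (u.le x) (pow_le_pow_left₀ (TS.kap_nonneg _ _) (TS.kap_le_two _ _) b)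
    (pow_nonneg (TS.kap_nonneg _ _) _) ((u.nonneg x).trans (u.le x))

lemma A0_nonneg (w : E) : 0 ≤ u.A0 b w := by
  unfold A0
  apply div_nonneg
  · exact integral_nonneg (fun x => mul_nonneg (u.nonneg x) (pow_nonneg (TS.kap_nonneg _ _) _))
  · exact pow_nonneg (T.s_nonneg w) _

/-- A0(z) ≤ C A0(v) for d(z,v) ≤ 3 s(v), s(z) ≤ s(v) ≤ 2 s(z) -/
lemma A0_near {z v : E} (hz : 0 < T.s z) (h1 : T.s z ≤ T.s v) (h2 : T.s v ≤ 2 * T.s z)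
    (h3 : T.d z v ≤ 3 * T.s v) : u.A0 b z ≤ 52 ^ b * 2 ^ T.n * u.A0 b v := by
  have hv : 0 < T.s v := by linarith
  have hpt : ∀ ζ, u.u ζ * T.kap z ζ ^ b ≤ 52 ^ b * (u.u ζ * T.kap v ζ ^ b) := by
    intro ζ
    have h4 : T.kap z ζ ≤ 52 * T.kap v ζ := by
      unfold TS.kap
      have a1 := T.tri ζ z v
      have a2 := T.s_le' ζ z
      have a3 : T.d ζ v ≤ 52 * T.d ζ z := by linarith
      rw [mul_div_assoc', div_le_div_iff₀ (TS.d_pos hz ζ) (TS.d_pos hv ζ)]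
      nlinarith [T.d_nonneg ζ z, T.d_nonneg ζ v]
    have h5 : T.kap z ζ ^ b ≤ 52 ^ b * T.kap v ζ ^ b := by
      rw [← mul_pow]; exact pow_le_pow_left₀ (TS.kap_nonneg _ _) h4 b
    calc u.u ζ * T.kap z ζ ^ b ≤ u.u ζ * (52 ^ b * T.kap v ζ ^ b) :=
          mul_le_mul_of_nonneg_left h5 (u.nonneg ζ)
      _ = _ := by ring
  have hI := integral_mono (u.integrable_mul b z) ((u.integrable_mul b v).const_mul (52 ^ b)) hpt
  rw [integral_const_mul] at hI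
  have hIv : 0 ≤ ∫ ζ, u.u ζ * T.kap v ζ ^ b ∂T.σ :=
    integral_nonneg (fun x => mul_nonneg (u.nonneg x) (pow_nonneg (TS.kap_nonneg _ _) _))
  unfold A0
  have hsn : T.s v ^ T.n ≤ 2 ^ T.n * T.s z ^ T.n := by
    rw [← mul_pow]; exact pow_le_pow_left₀ hv.le h2 _
  rw [div_le_iff₀ (by positivity)]
  calc ∫ ζ, u.u ζ * T.kap z ζ ^ b ∂T.σ ≤ 52 ^ b * ∫ ζ, u.u ζ * T.kap v ζ ^ b ∂T.σ := hI
    _ = 52 ^ b * ((∫ ζ, u.u ζ * T.kap v ζ ^ b ∂T.σ) / T.s v ^ T.n) * T.s v ^ T.n := by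
        field_simp
    _ ≤ 52 ^ b * ((∫ ζ, u.u ζ * T.kap v ζ ^ b ∂T.σ) / T.s v ^ T.n) * (2 ^ T.n * T.s z ^ T.n) := by
        gcongr
    _ = _ := by ring

/-- Σ_{level l} A0(w_i) kap_i(z)^b ≤ C (s/s(z))^(b-n) A0(z) -/
lemma comp3 (C : Cand T CL) (hCL : 0 ≤ CL) (hb : T.n + 1 ≤ b) (l : ℕ) {z : E}
    (hz : (1/2:ℝ)^l ≤ 2 * T.s z) :
    ∑ i ∈ C.lev l, u.A0 b (C.w i) * C.kp i z ^ b ≤
      (2 * 8 ^ b * Cand.CS' T CL b) * ((1/2)^l / T.s z) ^ (b - T.n) * u.A0 b z := by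
  have hl : (0:ℝ) < (1/2:ℝ)^l := by positivity
  have hz0 : 0 < T.s z := by linarith
  set s : ℝ := (1/2:ℝ)^l with hs
  have h1 : ∑ i ∈ C.lev l, u.A0 b (C.w i) * C.kp i z ^ b =
      (∫ ζ, ∑ i ∈ C.lev l, u.u ζ * C.kp i ζ ^ b * C.kp i z ^ b ∂T.σ) / s ^ T.n := by
    rw [integral_finset_sum]
    · rw [Finset.sum_div]
      apply Finset.sum_congr rfl
      intro i hi
      have hiN := ((C.mem_lev).1 hi).1
      have hsi : T.s (C.w i) = s := by rw [C.s_h hiN, C.h_lev hi]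
      rw [integral_mul_const]
      unfold A0
      rw [hsi]
      unfold Cand.kp
      ring
    · intro i _
      exact (u.integrable_mul b (C.w i)).mul_const _
  rw [h1]
  have h2 : ∫ ζ, ∑ i ∈ C.lev l, u.u ζ * C.kp i ζ ^ b * C.kp i z ^ b ∂T.σ ≤
      ∫ ζ, (2 * 8 ^ b * Cand.CS' T CL b) * (s / T.s z) ^ b * (u.u ζ * T.kap z ζ ^ b) ∂T.σ := by
    apply integral_mono
    · apply integrable_finset_sum
      intro i _
      exact (u.integrable_mul b (C.w i)).mul_const _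
    · exact (u.integrable_mul b z).const_mul _
    · intro ζ
      simp only
      have h3 := C.comp2 hCL b hb l hz ζ
      calc ∑ i ∈ C.lev l, u.u ζ * C.kp i ζ ^ b * C.kp i z ^ b
          = u.u ζ * ∑ i ∈ C.lev l, C.kp i ζ ^ b * C.kp i z ^ b := by
            rw [Finset.mul_sum]; apply Finset.sum_congr rfl; intro i _; ring
        _ ≤ u.u ζ * ((2 * 8 ^ b * Cand.CS' T CL b) * (s / T.s z) ^ b * T.kap z ζ ^ b) :=
            mul_le_mul_of_nonneg_left h3 (u.nonneg ζ)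
        _ = _ := by ring
  rw [integral_const_mul] at h2
  rw [div_le_iff₀ (by positivity)]
  refine h2.trans (le_of_eq ?_)
  obtain ⟨q, hq⟩ := Nat.exists_eq_add_of_le (show T.n ≤ b by omega)
  have hbq : b - T.n = q := by omega
  rw [hbq]
  unfold A0
  have e1 : (s / T.s z) ^ b = (s / T.s z) ^ q * (s ^ T.n / T.s z ^ T.n) := by
    rw [hq, pow_add, div_pow s (T.s z) T.n]; ring
  rw [e1]
  ring

end Dens

/-- the selected amplitudes -/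
structure Sel (T : TS E) (CL : ℝ) (b m : ℕ) (τ Λ : ℝ) where
  C : Cand T CL
  u : Dens T
  A0_pos : ∀ k, k < C.N → 0 < u.A0 b (C.w k)
  A : ℕ → ℝ
  hA : ∀ k, A k =
    (open Classical in
      if (∀ j, j < k → Λ * (A j * C.kp j (C.w k) ^ m) ≤
          max (u.A0 b (C.w k)) (τ * ∑ j ∈ Finset.range k, A j * C.kp j (C.w k) ^ b)) ∧ k < C.N
      then max (u.A0 b (C.w k)) (τ * ∑ j ∈ Finset.range k, A j * C.kp j (C.w k) ^ b) else 0)

lemma exists_sel (C : Cand T CL) (u : Dens T) (b m : ℕ) (τ Λ : ℝ)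
    (h : ∀ k, k < C.N → 0 < u.A0 b (C.w k)) : ∃ S : Sel T CL b m τ Λ, S.C = C ∧ S.u = u := by
  classical
  let F : (k : ℕ) → ((j : ℕ) → j < k → ℝ) → ℝ := fun k f =>
    if (∀ j, (hj : j < k) → Λ * (f j hj * C.kp j (C.w k) ^ m) ≤
        max (u.A0 b (C.w k)) (τ * ∑ j : Fin k, f j.1 j.2 * C.kp j.1 (C.w k) ^ b)) ∧ k < C.N
    then max (u.A0 b (C.w k)) (τ * ∑ j : Fin k, f j.1 j.2 * C.kp j.1 (C.w k) ^ b) else 0
  let A : ℕ → ℝ := WellFounded.fix (measure id).wf (fun k f => F k f)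
  have hAF : ∀ k, A k = F k (fun j _ => A j) := by
    intro k
    exact WellFounded.fix_eq (measure id).wf (fun k f => F k f) k
  refine ⟨⟨C, u, h, A, ?_⟩, rfl, rfl⟩
  intro k
  rw [hAF k]
  simp only [F]
  have hsum : ∑ j : Fin k, A j.1 * C.kp j.1 (C.w k) ^ b =
      ∑ j ∈ Finset.range k, A j * C.kp j (C.w k) ^ b :=
    Fin.sum_univ_eq_sum_range (fun j => A j * C.kp j (C.w k) ^ b) k
  rw [hsum]

namespace Sel

variable {b m : ℕ} {τ Λ : ℝ} (S : Sel T CL b m τ Λ)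

/-- t value -/
noncomputable def t (k : ℕ) : ℝ :=
  max (S.u.A0 b (S.C.w k)) (τ * ∑ j ∈ Finset.range k, S.A j * S.C.kp j (S.C.w k) ^ b)

lemma t_pos {k : ℕ} (hk : k < S.C.N) : 0 < S.t k := lt_of_lt_of_le (S.A0_pos k hk) (le_max_left _ _)

lemma A_sel {k : ℕ} (h : ∀ j, j < k → Λ * (S.A j * S.C.kp j (S.C.w k) ^ m) ≤ S.t k)
    (hk : k < S.C.N) : S.A k = S.t k := by
  rw [S.hA k, if_pos ⟨h, hk⟩]; rfl

lemma A_cases (k : ℕ) : (S.A k = S.t k ∧ k < S.C.N ∧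
    ∀ j, j < k → Λ * (S.A j * S.C.kp j (S.C.w k) ^ m) ≤ S.t k) ∨
    (S.A k = 0 ∧ ¬ ((∀ j, j < k → Λ * (S.A j * S.C.kp j (S.C.w k) ^ m) ≤ S.t k) ∧ k < S.C.N)) := by
  by_cases h : (∀ j, j < k → Λ * (S.A j * S.C.kp j (S.C.w k) ^ m) ≤ S.t k) ∧ k < S.C.N
  · left; exact ⟨S.A_sel h.1 h.2, h.2, h.1⟩
  · right
    refine ⟨?_, h⟩
    rw [S.hA k]
    exact if_neg h

lemma A_nonneg (k : ℕ) : 0 ≤ S.A k := by
  rcases S.A_cases k with ⟨h, hk, _⟩ | ⟨h, _⟩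
  · rw [h]; exact (S.t_pos hk).le
  · rw [h]

lemma A_pos_iff {k : ℕ} (h : 0 < S.A k) : S.A k = S.t k ∧ k < S.C.N ∧
    ∀ j, j < k → Λ * (S.A j * S.C.kp j (S.C.w k) ^ m) ≤ S.t k := by
  rcases S.A_cases k with h1 | ⟨h1, _⟩
  · exact h1
  · linarith

lemma A_le_t {k : ℕ} (hk : k < S.C.N) : S.A k ≤ S.t k := by
  rcases S.A_cases k with ⟨h, _, _⟩ | ⟨h, _⟩
  · rw [h]
  · rw [h]; exact (S.t_pos hk).le

lemma early_nonneg (k : ℕ) (z : E) : 0 ≤ ∑ j ∈ Finset.range k, S.A j * S.C.kp j z ^ b :=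
  Finset.sum_nonneg (fun j _ => mul_nonneg (S.A_nonneg j) (pow_nonneg (S.C.kp_nonneg _ _) _))

lemma early_le (hτ : 0 < τ) (k : ℕ) :
    ∑ j ∈ Finset.range k, S.A j * S.C.kp j (S.C.w k) ^ b ≤ S.t k / τ := by
  rw [le_div_iff₀ hτ, mul_comm]
  exact le_max_right _ _

/-- if A_l > 0 then Σ_{i<l} A_i kap_i(w_l)^b ≤ A_l/τ -/
lemma early_le_A (hτ : 0 < τ) {l : ℕ} (hl : 0 < S.A l) :
    ∑ j ∈ Finset.range l, S.A j * S.C.kp j (S.C.w l) ^ b ≤ S.A l / τ := by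
  rw [(S.A_pos_iff hl).1]; exact S.early_le hτ l

/-- growth -/
lemma growth (hΛ : 0 < Λ) {i l : ℕ} (hil : i < l) (hl : 0 < S.A l) {ρ : ℝ} (hρ : 0 < ρ)
    (hk : ρ ≤ S.C.kp i (S.C.w l)) : Λ * ρ ^ m * S.A i ≤ S.A l := by
  obtain ⟨h1, h2, h3⟩ := S.A_pos_iff hl
  have h4 := h3 i hil
  rw [← h1] at h4
  refine le_trans ?_ h4
  have h5 : ρ ^ m ≤ S.C.kp i (S.C.w l) ^ m := pow_le_pow_left₀ hρ.le hk m
  have h6 := S.A_nonneg i
  nlinarith [mul_le_mul_of_nonneg_left h5 (mul_nonneg hΛ.le h6)]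

lemma N_pos (z : E) : 0 < S.C.N := by
  obtain ⟨k, hk, _⟩ := S.C.cover z 0 (Nat.zero_le _) (by simpa using T.s_le_one z)
  omega

/-- the maximal function M -/
noncomputable def M (z : E) : ℝ :=
  (Finset.range S.C.N).sup' (Finset.nonempty_range_iff.2 (S.N_pos z).ne') (fun j => S.A j * S.C.kp j z ^ m)

lemma le_M {j : ℕ} (hj : j < S.C.N) (z : E) : S.A j * S.C.kp j z ^ m ≤ S.M z :=
  Finset.le_sup' (fun j => S.A j * S.C.kp j z ^ m) (Finset.mem_range.2 hj)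

lemma exists_M (z : E) : ∃ j, j < S.C.N ∧ S.M z = S.A j * S.C.kp j z ^ m := by
  obtain ⟨j, hj, h⟩ := Finset.exists_mem_eq_sup' (Finset.nonempty_range_iff.2 (S.N_pos z).ne')
    (fun j => S.A j * S.C.kp j z ^ m)
  exact ⟨j, Finset.mem_range.1 hj, h⟩

lemma M_nonneg (z : E) : 0 ≤ S.M z := by
  obtain ⟨j, _, h⟩ := S.exists_M z
  rw [h]; exact mul_nonneg (S.A_nonneg j) (pow_nonneg (S.C.kp_nonneg _ _) _)

/-- t_k ≤ Λ M(w_k) -/
lemma t_le_M (hΛ : 1 ≤ Λ) {k : ℕ} (hk : k < S.C.N) : S.t k ≤ Λ * S.M (S.C.w k) := by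
  rcases S.A_cases k with ⟨h, _, _⟩ | ⟨_, h⟩
  · have h1 := S.le_M hk (S.C.w k)
    rw [S.C.kp_self hk, one_pow, mul_one, h] at h1
    have := S.t_pos hk
    nlinarith
  · have h2 : ¬ (∀ j, j < k → Λ * (S.A j * S.C.kp j (S.C.w k) ^ m) ≤ S.t k) := fun h3 => h ⟨h3, hk⟩
    push Not at h2
    obtain ⟨j, hj, hj2⟩ := h2
    have h1 := S.le_M (lt_trans hj hk) (S.C.w k)
    nlinarith

lemma M_pos (hΛ : 1 ≤ Λ) (z : E) : 0 < S.M z := by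
  have hN := S.N_pos z
  have h1 := S.t_le_M hΛ hN
  have h2 := S.t_pos hN
  have h3 : 0 < S.M (S.C.w 0) := by nlinarith
  obtain ⟨j, hj, h⟩ := S.exists_M (S.C.w 0)
  rw [h] at h3
  have h4 : 0 < S.A j := by
    rcases eq_or_lt_of_le (S.A_nonneg j) with h5 | h5
    · rw [← h5] at h3; simp at h3
    · exact h5
  have h5 := S.le_M hj z
  have h6 := S.C.kp_pos hj z
  have : 0 < S.A j * S.C.kp j z ^ m := by positivity
  linarith

/-- the weight -/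
noncomputable def a (z : E) : ℝ := ∑ j ∈ Finset.range S.C.N, S.A j * S.C.kp j z ^ b

lemma a_nonneg (z : E) : 0 ≤ S.a z := S.early_nonneg _ z

lemma le_a {j : ℕ} (hj : j < S.C.N) (z : E) : S.A j * S.C.kp j z ^ b ≤ S.a z := by
  unfold a
  exact Finset.single_le_sum (f := fun j => S.A j * S.C.kp j z ^ b)
    (fun i _ => mul_nonneg (S.A_nonneg i) (pow_nonneg (S.C.kp_nonneg _ _) _)) (Finset.mem_range.2 hj)

/-- comparison of M at a candidate with M at z -/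
lemma M_comp {z v : E} {ρ : ℝ} (hρ : 0 ≤ ρ) (h : T.d z v ≤ ρ * T.s v) :
    S.M v ≤ (4 * (2 * ρ + 1)) ^ m * S.M z := by
  obtain ⟨j, hj, hM⟩ := S.exists_M v
  have h1 : S.C.kp j v ≤ 4 * (2 * ρ + 1) * S.C.kp j z := TS.kap_comp' (S.C.s_pos hj) hρ h
  have h2 : S.C.kp j v ^ m ≤ (4 * (2 * ρ + 1)) ^ m * S.C.kp j z ^ m := by
    rw [← mul_pow]; exact pow_le_pow_left₀ (S.C.kp_nonneg _ _) h1 m
  rw [hM]
  calc S.A j * S.C.kp j v ^ m ≤ S.A j * ((4 * (2 * ρ + 1)) ^ m * S.C.kp j z ^ m) :=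
        mul_le_mul_of_nonneg_left h2 (S.A_nonneg j)
    _ = (4 * (2 * ρ + 1)) ^ m * (S.A j * S.C.kp j z ^ m) := by ring
    _ ≤ _ := by
        have := S.le_M hj z
        gcongr

lemma a_comp {z v : E} {ρ : ℝ} (hρ : 0 ≤ ρ) (h : T.d z v ≤ ρ * T.s v) :
    S.a v ≤ (4 * (2 * ρ + 1)) ^ b * S.a z := by
  unfold a
  rw [Finset.mul_sum]
  apply Finset.sum_le_sum
  intro j hj
  have hj' := Finset.mem_range.1 hj
  have h1 : S.C.kp j v ≤ 4 * (2 * ρ + 1) * S.C.kp j z := TS.kap_comp' (S.C.s_pos hj') hρ h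
  have h2 : S.C.kp j v ^ b ≤ (4 * (2 * ρ + 1)) ^ b * S.C.kp j z ^ b := by
    rw [← mul_pow]; exact pow_le_pow_left₀ (S.C.kp_nonneg _ _) h1 b
  calc S.A j * S.C.kp j v ^ b ≤ S.A j * ((4 * (2 * ρ + 1)) ^ b * S.C.kp j z ^ b) :=
        mul_le_mul_of_nonneg_left h2 (S.A_nonneg j)
    _ = _ := by ring

lemma early_comp {k : ℕ} (hk : k < S.C.N) {z : E} {ρ : ℝ} (hρ : 0 ≤ ρ)
    (h : T.d (S.C.w k) z ≤ ρ * S.C.h k) :
    ∑ j ∈ Finset.range k, S.A j * S.C.kp j z ^ b ≤ (4 * (2 * ρ + 1)) ^ b *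
      ∑ j ∈ Finset.range k, S.A j * S.C.kp j (S.C.w k) ^ b := by
  rw [Finset.mul_sum]
  apply Finset.sum_le_sum
  intro j hj
  have hj' := Finset.mem_range.1 hj
  have hjN : j < S.C.N := lt_trans hj' hk
  have h0 : T.d (S.C.w k) z ≤ ρ * T.s (S.C.w j) := by
    rw [S.C.s_h hjN]
    exact h.trans (mul_le_mul_of_nonneg_left (S.C.h_anti hj'.le hk) hρ)
  have h1 : S.C.kp j z ≤ 4 * (2 * ρ + 1) * S.C.kp j (S.C.w k) := TS.kap_comp (S.C.s_pos hjN) hρ h0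
  have h2 : S.C.kp j z ^ b ≤ (4 * (2 * ρ + 1)) ^ b * S.C.kp j (S.C.w k) ^ b := by
    rw [← mul_pow]; exact pow_le_pow_left₀ (S.C.kp_nonneg _ _) h1 b
  calc S.A j * S.C.kp j z ^ b ≤ S.A j * ((4 * (2 * ρ + 1)) ^ b * S.C.kp j (S.C.w k) ^ b) :=
        mul_le_mul_of_nonneg_left h2 (S.A_nonneg j)
    _ = _ := by ring

lemma early_comp' {k : ℕ} (hk : k < S.C.N) {z : E} {ρ : ℝ} (hρ : 0 ≤ ρ)
    (h : T.d z (S.C.w k) ≤ ρ * S.C.h k) :
    ∑ j ∈ Finset.range k, S.A j * S.C.kp j (S.C.w k) ^ b ≤ (4 * (2 * ρ + 1)) ^ b *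
      ∑ j ∈ Finset.range k, S.A j * S.C.kp j z ^ b := by
  rw [Finset.mul_sum]
  apply Finset.sum_le_sum
  intro j hj
  have hj' := Finset.mem_range.1 hj
  have hjN : j < S.C.N := lt_trans hj' hk
  have h0 : T.d z (S.C.w k) ≤ ρ * T.s (S.C.w j) := by
    rw [S.C.s_h hjN]
    exact h.trans (mul_le_mul_of_nonneg_left (S.C.h_anti hj'.le hk) hρ)
  have h1 : S.C.kp j (S.C.w k) ≤ 4 * (2 * ρ + 1) * S.C.kp j z := TS.kap_comp (S.C.s_pos hjN) hρ h0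
  have h2 : S.C.kp j (S.C.w k) ^ b ≤ (4 * (2 * ρ + 1)) ^ b * S.C.kp j z ^ b := by
    rw [← mul_pow]; exact pow_le_pow_left₀ (S.C.kp_nonneg _ _) h1 b
  calc S.A j * S.C.kp j (S.C.w k) ^ b ≤ S.A j * ((4 * (2 * ρ + 1)) ^ b * S.C.kp j z ^ b) :=
        mul_le_mul_of_nonneg_left h2 (S.A_nonneg j)
    _ = _ := by ring

end Sel

/-- dyadic level of a number in (0,1] -/
lemma exists_level {x : ℝ} (h0 : 0 < x) (h1 : x ≤ 1) : ∃ l : ℕ, x ≤ (1/2:ℝ)^l ∧ (1/2:ℝ)^l < 2 * x := by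
  obtain ⟨l, h2, h3⟩ := exists_nat_pow_near_of_lt_one h0 h1 (by norm_num : (0:ℝ) < 1/2) (by norm_num)
  exact ⟨l, h3, by rw [pow_succ] at h2; linarith⟩

end H262RU
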