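import Pool.Agent.Helper262.RU3
set_option autoImplicit false
open MeasureTheory Set Filter
open scoped ENNReal NNReal BigOperators

namespace H262RU

variable {E : Type*} [MeasurableSpace E] {T : TS E} {CL : ℝ}

lemma geom_le (a : ℕ) (G : Finset ℕ) (hG : ∀ l ∈ G, a ≤ l) : ∑ l ∈ G, (1/2:ℝ)^(l - a) ≤ 2 := by
  obtain ⟨M, hM⟩ : ∃ M, ∀ l ∈ G, l < M := ⟨G.sup id + 1, fun l hl => by
    have := Finset.le_sup (f := id) hl; simp at this; omega⟩
  calc ∑ l ∈ G, (1/2:ℝ)^(l - a) ≤ ∑ l ∈ Finset.Ico a M, (1/2:ℝ)^(l - a) := by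
        apply Finset.sum_le_sum_of_subset_of_nonneg
        · intro l hl; rw [Finset.mem_Ico]; exact ⟨hG l hl, hM l hl⟩
        · intro l _ _; positivity
    _ = ∑ i ∈ Finset.range (M - a), (1/2:ℝ)^i := by
        rw [Finset.sum_Ico_eq_sum_range]
        apply Finset.sum_congr rfl; intro i _; congr 1; omega
    _ ≤ 2 := sum_geometric_two_le _

lemma geom_pow_le (a q : ℕ) (hq : 1 ≤ q) (G : Finset ℕ) (hG : ∀ l ∈ G, a ≤ l) :
    ∑ l ∈ G, ((1/2:ℝ)^l / (1/2:ℝ)^a) ^ q ≤ 2 := by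
  refine le_trans (Finset.sum_le_sum ?_) (geom_le a G hG)
  intro l hl
  have h1 : (1/2:ℝ)^l / (1/2:ℝ)^a = (1/2:ℝ)^(l-a) := by
    rw [div_eq_iff (by positivity), ← pow_add]; congr 1; have := hG l hl; omega
  rw [h1]
  have h2 : (1/2:ℝ)^(l-a) ≤ 1 := pow_le_one₀ (by norm_num) (by norm_num)
  calc ((1/2:ℝ)^(l-a)) ^ q ≤ ((1/2:ℝ)^(l-a)) ^ 1 := pow_le_pow_of_le_one (by positivity) h2 hq
    _ = _ := pow_one _

/-- lacunary sums -/
lemma lac_sum (x : ℕ → ℝ) (hx : ∀ i, 0 ≤ x i) {θ : ℝ} (hθ0 : 0 ≤ θ) (hθ : θ < 1) (G : Finset ℕ) :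
    ∀ B : ℝ, 0 ≤ B → (∀ i ∈ G, x i ≤ B) → (∀ i ∈ G, ∀ j ∈ G, i < j → x i ≤ θ * x j) →
    ∑ i ∈ G, x i ≤ B / (1 - θ) := by
  have h1θ : 0 < 1 - θ := by linarith
  induction G using Finset.induction_on_max with
  | empty => intro B hB _ _; simp; positivity
  | insert a G hmax ih =>
    intro B hB hxB hlac
    have ha : a ∉ G := fun h => lt_irrefl _ (hmax a h)
    rw [Finset.sum_insert ha]
    have h1 := ih (θ * x a) (mul_nonneg hθ0 (hx a))
      (fun i hi => hlac i (Finset.mem_insert_of_mem hi) a (Finset.mem_insert_self _ _) (hmax i hi))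
      (fun i hi j hj hij => hlac i (Finset.mem_insert_of_mem hi) j (Finset.mem_insert_of_mem hj) hij)
    have h2 := hxB a (Finset.mem_insert_self _ _)
    calc x a + ∑ i ∈ G, x i ≤ x a + θ * x a / (1 - θ) := by linarith
      _ = x a / (1 - θ) := by field_simp; ring
      _ ≤ B / (1 - θ) := by gcongr

lemma pow_split (x : ℝ) {b m e : ℕ} (he : m = b + 1 + e) : x ^ m = x ^ b * x * x ^ e := by
  rw [he, pow_add, pow_succ]

namespace Sel

variable {b m : ℕ} {τ Λ : ℝ} (S : Sel T CL b m τ Λ)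

noncomputable def c1 (T : TS E) (CL : ℝ) (b : ℕ) : ℝ := 8 ^ b * Cand.CS T CL b * 2 ^ b
noncomputable def c2 (CL : ℝ) (b : ℕ) : ℝ := 8 ^ b * (3 ^ b * (2 ^ (b + 1) * CL))
noncomputable def c3 (T : TS E) (CL : ℝ) (b : ℕ) : ℝ := 2 * 8 ^ b * Cand.CS' T CL b
noncomputable def Dq (T : TS E) (CL : ℝ) (b : ℕ) : ℝ := 2 ^ (b + 1) * c1 T CL b + 2 * c2 CL b

lemma c1_nonneg (hCL : 0 ≤ CL) : 0 ≤ c1 T CL b := by
  unfold c1; have := Cand.CS_nonneg (T := T) hCL b; positivity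
lemma c2_nonneg (hCL : 0 ≤ CL) : 0 ≤ c2 CL b := by unfold c2; positivity
lemma c3_nonneg (hCL : 0 ≤ CL) : 0 ≤ c3 T CL b := by
  unfold c3; have := Cand.CS'_nonneg (T := T) hCL b; positivity

lemma level_sum {kv : ℕ} (hkv : kv < S.C.N) (f : ℕ → ℝ) (hf : ∀ j, 0 ≤ f j) :
    ∑ j ∈ Finset.Ico kv S.C.N, f j ≤
      ∑ l ∈ Finset.Icc (S.C.L kv) S.C.Lmax, ∑ j ∈ S.C.lev l, f j := by
  rw [← Finset.sum_fiberwise_of_maps_to (s := Finset.Ico kv S.C.N)
    (t := Finset.Icc (S.C.L kv) S.C.Lmax) (g := S.C.L)]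
  · apply Finset.sum_le_sum
    intro l _
    apply Finset.sum_le_sum_of_subset_of_nonneg
    · intro j hj
      rw [Finset.mem_filter, Finset.mem_Ico] at hj
      exact (S.C.mem_lev).2 ⟨hj.1.2, hj.2⟩
    · intro j _ _; exact hf j
  · intro j hj
    rw [Finset.mem_Ico] at hj
    rw [Finset.mem_Icc]
    exact ⟨S.C.L_mono _ _ hj.1 hj.2, S.C.L_le j hj.2⟩

lemma scale_sum {z : E} {lz : ℕ} (hz0 : 0 < T.s z) (hz2 : (1/2:ℝ)^lz < 2 * T.s z)
    {q : ℕ} (hq : 1 ≤ q) (G : Finset ℕ) (hG : ∀ l ∈ G, lz ≤ l) :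
    ∑ l ∈ G, ((1/2:ℝ)^l / T.s z) ^ q ≤ 2 ^ (q + 1) := by
  have h1 : ∀ l ∈ G, ((1/2:ℝ)^l / T.s z) ^ q ≤ 2 ^ q * ((1/2:ℝ)^l / (1/2:ℝ)^lz) ^ q := by
    intro l _
    rw [← mul_pow]
    apply pow_le_pow_left₀ (by positivity)
    rw [mul_div_assoc', div_le_div_iff₀ hz0 (by positivity)]
    have : (0:ℝ) < (1/2:ℝ)^l := by positivity
    nlinarith
  calc ∑ l ∈ G, ((1/2:ℝ)^l / T.s z) ^ q ≤ ∑ l ∈ G, 2 ^ q * ((1/2:ℝ)^l / (1/2:ℝ)^lz) ^ q :=
        Finset.sum_le_sum h1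
    _ = 2 ^ q * ∑ l ∈ G, ((1/2:ℝ)^l / (1/2:ℝ)^lz) ^ q := by rw [Finset.mul_sum]
    _ ≤ 2 ^ q * 2 := by have := geom_pow_le lz q hq G hG; gcongr
    _ = _ := by rw [pow_succ]

/-- the late part -/
lemma late_le (hCL : 0 ≤ CL) (hb : T.n + 1 ≤ b) (hτ : 0 < τ) {z : E} {lz kv : ℕ}
    (hz0 : 0 < T.s z) (hz2 : (1/2:ℝ)^lz < 2 * T.s z)
    (hkv : kv < S.C.N) (hL : S.C.L kv = lz) :
    ∑ j ∈ Finset.Ico kv S.C.N, S.A j * S.C.kp j z ^ b ≤
      2 ^ (b + 1) * c3 T CL b * S.u.A0 b z + τ * Dq T CL b * S.a z := by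
  have hc1 := c1_nonneg (T := T) (b := b) hCL
  have hc2 := c2_nonneg (b := b) hCL
  have hc3 := c3_nonneg (T := T) (b := b) hCL
  have hq : 1 ≤ b - T.n := by omega
  have hkpn : ∀ j x, 0 ≤ S.C.kp j x ^ b := fun j x => pow_nonneg (S.C.kp_nonneg _ _) _
  have hA0z := S.u.A0_nonneg b z
  have hs1 : ∀ l, lz ≤ l → (1/2:ℝ)^l ≤ 2 * T.s z := by
    intro l hl
    have : (1/2:ℝ)^l ≤ (1/2:ℝ)^lz := pow_le_pow_of_le_one (by norm_num) (by norm_num) hl
    linarith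
  set G := Finset.Icc lz S.C.Lmax with hG
  have hGl : ∀ l ∈ G, lz ≤ l := fun l hl => (Finset.mem_Icc.1 hl).1
  -- step 1
  have h1 : ∑ j ∈ Finset.Ico kv S.C.N, S.A j * S.C.kp j z ^ b ≤
      ∑ j ∈ Finset.Ico kv S.C.N, (S.u.A0 b (S.C.w j) * S.C.kp j z ^ b +
        τ * ∑ k ∈ Finset.range j, S.A k * (S.C.kp k (S.C.w j) ^ b * S.C.kp j z ^ b)) := by
    apply Finset.sum_le_sum
    intro j hj
    have hjN := (Finset.mem_Ico.1 hj).2
    have h2 : S.A j ≤ S.u.A0 b (S.C.w j) + τ * ∑ k ∈ Finset.range j, S.A k * S.C.kp k (S.C.w j) ^ b := by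
      refine (S.A_le_t hjN).trans ?_
      unfold t
      have e1 := S.u.A0_nonneg b (S.C.w j)
      have e2 : 0 ≤ τ * ∑ k ∈ Finset.range j, S.A k * S.C.kp k (S.C.w j) ^ b :=
        mul_nonneg hτ.le (S.early_nonneg _ _)
      exact max_le (by linarith) (by linarith)
    calc S.A j * S.C.kp j z ^ b ≤ (S.u.A0 b (S.C.w j) + τ * ∑ k ∈ Finset.range j, S.A k * S.C.kp k (S.C.w j) ^ b) * S.C.kp j z ^ b :=
          mul_le_mul_of_nonneg_right h2 (hkpn j z)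
      _ = _ := by
          rw [add_mul, mul_assoc, Finset.sum_mul]
          congr 2
          apply Finset.sum_congr rfl; intro k _; ring
  refine h1.trans ?_
  rw [Finset.sum_add_distrib]
  apply add_le_add
  · -- A0 part
    have h2 := S.level_sum hkv (fun j => S.u.A0 b (S.C.w j) * S.C.kp j z ^ b)
      (fun j => mul_nonneg (S.u.A0_nonneg b _) (hkpn j z))
    refine h2.trans ?_
    rw [hL]
    calc ∑ l ∈ G, ∑ j ∈ S.C.lev l, S.u.A0 b (S.C.w j) * S.C.kp j z ^ b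
        ≤ ∑ l ∈ G, c3 T CL b * ((1/2)^l / T.s z) ^ (b - T.n) * S.u.A0 b z := by
          apply Finset.sum_le_sum
          intro l hl
          exact S.u.comp3 b S.C hCL hb l (hs1 l (hGl l hl))
      _ = c3 T CL b * S.u.A0 b z * ∑ l ∈ G, ((1/2)^l / T.s z) ^ (b - T.n) := by
          rw [Finset.mul_sum]; apply Finset.sum_congr rfl; intro l _; ring
      _ ≤ c3 T CL b * S.u.A0 b z * 2 ^ (b + 1) := by
          have h3 := scale_sum (T := T) hz0 hz2 hq G hGl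
          have h4 : (2:ℝ) ^ (b - T.n + 1) ≤ 2 ^ (b + 1) := pow_le_pow_right₀ (by norm_num) (by omega)
          have h5 : ∑ l ∈ G, ((1/2)^l / T.s z) ^ (b - T.n) ≤ 2 ^ (b + 1) := h3.trans h4
          gcongr
      _ = _ := by ring
  · -- forced part
    rw [← Finset.mul_sum]
    have h2 := S.level_sum hkv (fun j => ∑ k ∈ Finset.range j, S.A k * (S.C.kp k (S.C.w j) ^ b * S.C.kp j z ^ b))
      (fun j => Finset.sum_nonneg (fun k _ => mul_nonneg (S.A_nonneg k) (mul_nonneg (hkpn _ _) (hkpn _ _))))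
    rw [hL] at h2
    have h3 : ∑ l ∈ G, ∑ j ∈ S.C.lev l, ∑ k ∈ Finset.range j, S.A k * (S.C.kp k (S.C.w j) ^ b * S.C.kp j z ^ b)
        ≤ ∑ l ∈ G, ∑ k ∈ (Finset.range S.C.N).filter (fun k => S.C.L k ≤ l),
            S.A k * ∑ j ∈ S.C.lev l, (S.C.kp k (S.C.w j) ^ b * S.C.kp j z ^ b) := by
      apply Finset.sum_le_sum
      intro l hl
      have h4 : ∀ j ∈ S.C.lev l, ∑ k ∈ Finset.range j, S.A k * (S.C.kp k (S.C.w j) ^ b * S.C.kp j z ^ b) ≤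
          ∑ k ∈ (Finset.range S.C.N).filter (fun k => S.C.L k ≤ l),
            S.A k * (S.C.kp k (S.C.w j) ^ b * S.C.kp j z ^ b) := by
        intro j hj
        obtain ⟨hjN, hjl⟩ := (S.C.mem_lev).1 hj
        apply Finset.sum_le_sum_of_subset_of_nonneg
        · intro k hk
          have hk' := Finset.mem_range.1 hk
          rw [Finset.mem_filter, Finset.mem_range]
          exact ⟨by omega, by rw [← hjl]; exact S.C.L_mono _ _ hk'.le hjN⟩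
        · intro k _ _
          exact mul_nonneg (S.A_nonneg k) (mul_nonneg (hkpn _ _) (hkpn _ _))
      refine (Finset.sum_le_sum h4).trans (le_of_eq ?_)
      rw [Finset.sum_comm]
      apply Finset.sum_congr rfl
      intro k _
      rw [Finset.mul_sum]
    have h5 : ∑ l ∈ G, ∑ k ∈ (Finset.range S.C.N).filter (fun k => S.C.L k ≤ l),
            S.A k * ∑ j ∈ S.C.lev l, (S.C.kp k (S.C.w j) ^ b * S.C.kp j z ^ b) ≤
        ∑ l ∈ G, ∑ k ∈ (Finset.range S.C.N).filter (fun k => S.C.L k ≤ l),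
            (c1 T CL b * ((1/2)^l / T.s z) ^ (b - T.n) +
              c2 CL b * ((1/2)^l / (1/2)^(S.C.L k)) ^ (b - T.n)) * (S.A k * S.C.kp k z ^ b) := by
      apply Finset.sum_le_sum
      intro l hl
      apply Finset.sum_le_sum
      intro k hk
      rw [Finset.mem_filter, Finset.mem_range] at hk
      have hsk : T.s (S.C.w k) = (1/2)^(S.C.L k) := S.C.s_eq k hk.1
      have hle : (1/2:ℝ)^l ≤ T.s (S.C.w k) := by
        rw [hsk]; exact pow_le_pow_of_le_one (by norm_num) (by norm_num) hk.2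
      have h6 := S.C.comp1 hCL b hb l hle (hs1 l (hGl l hl))
      rw [hsk] at h6
      calc S.A k * ∑ j ∈ S.C.lev l, (S.C.kp k (S.C.w j) ^ b * S.C.kp j z ^ b)
          ≤ S.A k * ((c1 T CL b * ((1/2)^l / T.s z) ^ (b - T.n) +
              c2 CL b * ((1/2)^l / (1/2)^(S.C.L k)) ^ (b - T.n)) * T.kap (S.C.w k) z ^ b) :=
            mul_le_mul_of_nonneg_left h6 (S.A_nonneg k)
        _ = _ := by unfold Cand.kp; ring
    have h7 : ∑ l ∈ G, ∑ k ∈ (Finset.range S.C.N).filter (fun k => S.C.L k ≤ l),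
            (c1 T CL b * ((1/2)^l / T.s z) ^ (b - T.n) +
              c2 CL b * ((1/2)^l / (1/2)^(S.C.L k)) ^ (b - T.n)) * (S.A k * S.C.kp k z ^ b) ≤
        Dq T CL b * S.a z := by
      have h8 : ∀ l ∈ G, ∑ k ∈ (Finset.range S.C.N).filter (fun k => S.C.L k ≤ l),
            (c1 T CL b * ((1/2)^l / T.s z) ^ (b - T.n) +
              c2 CL b * ((1/2)^l / (1/2)^(S.C.L k)) ^ (b - T.n)) * (S.A k * S.C.kp k z ^ b) =
          ∑ k ∈ Finset.range S.C.N, if S.C.L k ≤ l then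
            (c1 T CL b * ((1/2)^l / T.s z) ^ (b - T.n) +
              c2 CL b * ((1/2)^l / (1/2)^(S.C.L k)) ^ (b - T.n)) * (S.A k * S.C.kp k z ^ b) else 0 := by
        intro l _
        rw [Finset.sum_filter]
      rw [Finset.sum_congr rfl h8, Finset.sum_comm]
      unfold a
      rw [Finset.mul_sum]
      apply Finset.sum_le_sum
      intro k _
      rw [← Finset.sum_filter, ← Finset.sum_mul]
      apply mul_le_mul_of_nonneg_right _ (mul_nonneg (S.A_nonneg k) (hkpn _ _))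
      rw [Finset.sum_add_distrib, ← Finset.mul_sum, ← Finset.mul_sum]
      have e1 := scale_sum (T := T) hz0 hz2 hq (G.filter (fun l => S.C.L k ≤ l))
        (fun l hl => hGl l (Finset.mem_filter.1 hl).1)
      have e2 := geom_pow_le (S.C.L k) (b - T.n) hq (G.filter (fun l => S.C.L k ≤ l))
        (fun l hl => (Finset.mem_filter.1 hl).2)
      have e3 : (2:ℝ) ^ (b - T.n + 1) ≤ 2 ^ (b + 1) := pow_le_pow_right₀ (by norm_num) (by omega)
      unfold Dq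
      nlinarith [mul_le_mul_of_nonneg_left (e1.trans e3) hc1, mul_le_mul_of_nonneg_left e2 hc2]
    calc τ * ∑ j ∈ Finset.Ico kv S.C.N, ∑ k ∈ Finset.range j, S.A k * (S.C.kp k (S.C.w j) ^ b * S.C.kp j z ^ b)
        ≤ τ * (Dq T CL b * S.a z) := mul_le_mul_of_nonneg_left (h2.trans (h3.trans (h5.trans h7))) hτ.le
      _ = _ := by ring

/-- constant in a ≤ C M -/
noncomputable def Ca (T : TS E) (CL : ℝ) (b m : ℕ) (τ Λ : ℝ) : ℝ :=
  (2 * 28 ^ b / τ + 2 ^ (b + 2) * c3 T CL b * (52 ^ b * 2 ^ T.n)) * Λ * 28 ^ m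

noncomputable def Ka (T : TS E) (CL : ℝ) (b m : ℕ) (τ Λ : ℝ) : ℝ := 28 ^ b * 28 ^ m * Ca T CL b m τ Λ

lemma Ca_pos (hCL : 0 ≤ CL) (hτ : 0 < τ) (hΛ : 1 ≤ Λ) : 0 < Ca T CL b m τ Λ := by
  unfold Ca; have := c3_nonneg (T := T) (b := b) hCL; positivity

lemma Ka_pos (hCL : 0 ≤ CL) (hτ : 0 < τ) (hΛ : 1 ≤ Λ) : 0 < Ka T CL b m τ Λ := by
  unfold Ka; have := Ca_pos (T := T) (b := b) (m := m) hCL hτ hΛ; positivity

lemma Ka_ge_one (hCL : 0 ≤ CL) (hτ : 0 < τ) (hτ1 : τ ≤ 1) (hΛ : 1 ≤ Λ) : 1 ≤ Ka T CL b m τ Λ := by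
  unfold Ka Ca
  have := c3_nonneg (T := T) (b := b) hCL
  have h1 : (1:ℝ) ≤ 28 ^ b := one_le_pow₀ (by norm_num)
  have h2 : (1:ℝ) ≤ 28 ^ m := one_le_pow₀ (by norm_num)
  have h3 : (1:ℝ) ≤ 2 * 28 ^ b / τ := by rw [le_div_iff₀ hτ]; linarith
  have h4 : (0:ℝ) ≤ 2 ^ (b + 2) * c3 T CL b * (52 ^ b * 2 ^ T.n) := by positivity
  have h5 : (1:ℝ) ≤ (2 * 28 ^ b / τ + 2 ^ (b + 2) * c3 T CL b * (52 ^ b * 2 ^ T.n)) := by linarith
  have h6 : (1:ℝ) ≤ (2 * 28 ^ b / τ + 2 ^ (b + 2) * c3 T CL b * (52 ^ b * 2 ^ T.n)) * Λ :=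
    one_le_mul_of_one_le_of_one_le h5 hΛ
  exact one_le_mul_of_one_le_of_one_le (one_le_mul_of_one_le_of_one_le h1 h2)
    (one_le_mul_of_one_le_of_one_le h6 h2)

lemma a_le_M_int (hCL : 0 ≤ CL) (hb : T.n + 1 ≤ b) (hτ : 0 < τ) (hΛ : 1 ≤ Λ)
    (hτD : τ * Dq T CL b ≤ 1/2) {z : E} (hz : (1/2:ℝ)^S.C.Lmax ≤ T.s z) :
    S.a z ≤ Ca T CL b m τ Λ * S.M z := by
  have hz0 : 0 < T.s z := lt_of_lt_of_le (by positivity) hz
  obtain ⟨lz, hl1, hl2⟩ := exists_level hz0 (T.s_le_one z)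
  have hlL : lz ≤ S.C.Lmax := by
    by_contra hcon
    push Not at hcon
    have : (1/2:ℝ)^lz ≤ (1/2:ℝ)^(S.C.Lmax + 1) := pow_le_pow_of_le_one (by norm_num) (by norm_num) hcon
    rw [pow_succ] at this
    linarith
  obtain ⟨kv, hkv, hL, hd⟩ := S.C.cover z lz hlL hl1
  have hsv : T.s (S.C.w kv) = (1/2)^lz := by rw [S.C.s_h hkv]; unfold Cand.h; rw [hL]
  have hlate := S.late_le hCL hb hτ hz0 hl2 hkv hL
  have hsplit : S.a z = ∑ j ∈ Finset.range kv, S.A j * S.C.kp j z ^ b +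
      ∑ j ∈ Finset.Ico kv S.C.N, S.A j * S.C.kp j z ^ b := by
    unfold a
    rw [Finset.sum_range_add_sum_Ico _ hkv.le]
  have hearly : ∑ j ∈ Finset.range kv, S.A j * S.C.kp j z ^ b ≤ 28 ^ b * (S.t kv / τ) := by
    have h1 := S.early_comp hkv (z := z) (ρ := 3) (by norm_num) (by
      rw [T.d_symm]; unfold Cand.h; rw [hL]; exact hd)
    norm_num at h1
    exact h1.trans (mul_le_mul_of_nonneg_left (S.early_le hτ kv) (by positivity))
  have hA0 : S.u.A0 b z ≤ 52 ^ b * 2 ^ T.n * S.t kv := by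
    have h1 := S.u.A0_near b hz0 (v := S.C.w kv) (by rw [hsv]; exact hl1) (by rw [hsv]; exact hl2.le)
      (by rw [hsv]; exact hd)
    exact h1.trans (mul_le_mul_of_nonneg_left (le_max_left _ _) (by positivity))
  have ht := S.t_le_M hΛ hkv
  have hM := S.M_comp (z := z) (v := S.C.w kv) (ρ := 3) (by norm_num) (by rw [hsv]; exact hd)
  norm_num at hM
  have hc3 := c3_nonneg (T := T) (b := b) hCL
  have hMz := S.M_nonneg z
  have hez := S.early_nonneg kv z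
  have ht' : S.t kv ≤ Λ * (28 ^ m * S.M z) := ht.trans (mul_le_mul_of_nonneg_left hM (by linarith))
  have h10 : S.a z ≤ 2 * ∑ j ∈ Finset.range kv, S.A j * S.C.kp j z ^ b +
      2 * (2 ^ (b + 1) * c3 T CL b * S.u.A0 b z) := by
    have h11 : τ * Dq T CL b * S.a z ≤ 1/2 * S.a z := mul_le_mul_of_nonneg_right hτD (S.a_nonneg z)
    linarith
  calc S.a z ≤ 2 * (28 ^ b * (S.t kv / τ)) + 2 * (2 ^ (b + 1) * c3 T CL b * (52 ^ b * 2 ^ T.n * S.t kv)) := by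
        refine h10.trans ?_
        gcongr
    _ = (2 * 28 ^ b / τ + 2 ^ (b + 2) * c3 T CL b * (52 ^ b * 2 ^ T.n)) * S.t kv := by
        rw [pow_succ, pow_succ]; ring
    _ ≤ (2 * 28 ^ b / τ + 2 ^ (b + 2) * c3 T CL b * (52 ^ b * 2 ^ T.n)) * (Λ * (28 ^ m * S.M z)) := by
        gcongr
    _ = _ := by unfold Ca; ring

/-- **(B2)** the weight is bounded by the maximal function everywhere -/
lemma a_le_M (hCL : 0 ≤ CL) (hb : T.n + 1 ≤ b) (hτ : 0 < τ) (hΛ : 1 ≤ Λ)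
    (hτD : τ * Dq T CL b ≤ 1/2) (z : E) :
    S.a z ≤ Ka T CL b m τ Λ * S.M z := by
  have hCa := Ca_pos (T := T) (b := b) (m := m) hCL hτ hΛ
  have h28b : (1:ℝ) ≤ 28 ^ b := one_le_pow₀ (by norm_num)
  have h28m : (1:ℝ) ≤ 28 ^ m := one_le_pow₀ (by norm_num)
  have hMz := S.M_nonneg z
  rcases le_or_gt ((1/2:ℝ)^S.C.Lmax) (T.s z) with hz | hz
  · refine (S.a_le_M_int hCL hb hτ hΛ hτD hz).trans ?_
    apply mul_le_mul_of_nonneg_right _ hMz
    unfold Ka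
    have : (1:ℝ) ≤ 28 ^ b * 28 ^ m := one_le_mul_of_one_le_of_one_le h28b h28m
    nlinarith
  · obtain ⟨kv, hkv, hL, hd⟩ := S.C.cover z S.C.Lmax le_rfl hz.le
    have hsv : T.s (S.C.w kv) = (1/2)^S.C.Lmax := by rw [S.C.s_h hkv]; unfold Cand.h; rw [hL]
    have h1 := S.a_le_M_int hCL hb hτ hΛ hτD (z := S.C.w kv) (by rw [hsv])
    have h2 : S.a z ≤ 28 ^ b * S.a (S.C.w kv) := by
      unfold a
      rw [Finset.mul_sum]
      apply Finset.sum_le_sum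
      intro j hj
      have hj' := Finset.mem_range.1 hj
      have h0 : T.d (S.C.w kv) z ≤ 3 * T.s (S.C.w j) := by
        rw [S.C.s_h hj', T.d_symm]
        refine hd.trans (mul_le_mul_of_nonneg_left ?_ (by norm_num))
        unfold Cand.h
        exact pow_le_pow_of_le_one (by norm_num) (by norm_num) (S.C.L_le j hj')
      have h3 : S.C.kp j z ≤ 4 * (2 * 3 + 1) * S.C.kp j (S.C.w kv) :=
        TS.kap_comp (S.C.s_pos hj') (by norm_num) h0
      norm_num at h3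
      have h4 : S.C.kp j z ^ b ≤ 28 ^ b * S.C.kp j (S.C.w kv) ^ b := by
        rw [← mul_pow]; exact pow_le_pow_left₀ (S.C.kp_nonneg _ _) h3 b
      calc S.A j * S.C.kp j z ^ b ≤ S.A j * (28 ^ b * S.C.kp j (S.C.w kv) ^ b) :=
            mul_le_mul_of_nonneg_left h4 (S.A_nonneg j)
        _ = _ := by ring
    have hM := S.M_comp (z := z) (v := S.C.w kv) (ρ := 3) (by norm_num) (by rw [hsv]; exact hd)
    norm_num at hM
    calc S.a z ≤ 28 ^ b * S.a (S.C.w kv) := h2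
      _ ≤ 28 ^ b * (Ca T CL b m τ Λ * S.M (S.C.w kv)) := by gcongr
      _ ≤ 28 ^ b * (Ca T CL b m τ Λ * (28 ^ m * S.M z)) := by gcongr
      _ = _ := by unfold Ka; ring

/-- **(B3)** the maximiser is near -/
lemma near (hCL : 0 ≤ CL) (hb : T.n + 1 ≤ b) (hbm : b + 1 ≤ m) (hτ : 0 < τ) (hτ1 : τ ≤ 1) (hΛ : 1 ≤ Λ)
    (hτD : τ * Dq T CL b ≤ 1/2) (z : E) {i : ℕ} (hi : i < S.C.N)
    (hM : S.M z = S.A i * S.C.kp i z ^ m) : 1 ≤ Ka T CL b m τ Λ * S.C.kp i z := by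
  have h1 := S.a_le_M hCL hb hτ hΛ hτD z
  have h2 := S.le_a hi z
  have hMp := S.M_pos hΛ z
  have hkp := S.C.kp_pos hi z
  have hAi : 0 < S.A i := by
    rcases eq_or_lt_of_le (S.A_nonneg i) with h5 | h5
    · rw [hM, ← h5] at hMp; simp at hMp
    · exact h5
  have hK := Ka_pos (T := T) (b := b) (m := m) hCL hτ hΛ
  have hK1 := Ka_ge_one (T := T) (b := b) (m := m) hCL hτ hτ1 hΛ
  rcases le_or_gt 1 (S.C.kp i z) with hk | hk
  · exact one_le_mul_of_one_le_of_one_le hK1 hk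
  · rw [hM] at h1
    have h3 : S.C.kp i z ^ b ≤ Ka T CL b m τ Λ * S.C.kp i z ^ m := by
      have h4 : S.A i * S.C.kp i z ^ b ≤ S.A i * (Ka T CL b m τ Λ * S.C.kp i z ^ m) := by
        calc S.A i * S.C.kp i z ^ b ≤ Ka T CL b m τ Λ * (S.A i * S.C.kp i z ^ m) := h2.trans h1
          _ = _ := by ring
      exact le_of_mul_le_mul_left h4 hAi
    obtain ⟨e, he⟩ := Nat.exists_eq_add_of_le hbm
    have h5 : S.C.kp i z ^ m = S.C.kp i z ^ b * S.C.kp i z * S.C.kp i z ^ e := pow_split _ he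
    have h6 : S.C.kp i z ^ e ≤ 1 := pow_le_one₀ hkp.le hk.le
    have h7 : S.C.kp i z ^ b * 1 ≤ S.C.kp i z ^ b * (Ka T CL b m τ Λ * S.C.kp i z) := by
      calc S.C.kp i z ^ b * 1 ≤ Ka T CL b m τ Λ * S.C.kp i z ^ m := by rw [mul_one]; exact h3
        _ = S.C.kp i z ^ b * (Ka T CL b m τ Λ * S.C.kp i z) * S.C.kp i z ^ e := by rw [h5]; ring
        _ ≤ S.C.kp i z ^ b * (Ka T CL b m τ Λ * S.C.kp i z) * 1 := by gcongr
        _ = _ := by ring
    exact le_of_mul_le_mul_left h7 (by positivity)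

end Sel

end H262RU
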