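import Pool.Agent.Helper262.RU5
import Pool.Agent.Helper633.Carleson
set_option autoImplicit false
open MeasureTheory Set Filter
open scoped ENNReal NNReal BigOperators

namespace H262RU

variable {E : Type*} [MeasurableSpace E] {T : TS E} {CL : ℝ}

lemma sqrt_sum_le (s : Finset ℕ) (f : ℕ → ℝ) (hf : ∀ i, 0 ≤ f i) :
    Real.sqrt (∑ i ∈ s, f i) ≤ ∑ i ∈ s, Real.sqrt (f i) := by
  classical
  induction s using Finset.induction_on with
  | empty => simp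
  | insert a s ha ih =>
    rw [Finset.sum_insert ha, Finset.sum_insert ha]
    have h1 : 0 ≤ ∑ i ∈ s, f i := Finset.sum_nonneg (fun i _ => hf i)
    have h2 : Real.sqrt (f a + ∑ i ∈ s, f i) ≤ Real.sqrt (f a) + Real.sqrt (∑ i ∈ s, f i) := by
      rw [Real.sqrt_le_left (by positivity)]
      have e1 := Real.sq_sqrt (hf a)
      have e2 := Real.sq_sqrt h1
      have e3 := Real.sqrt_nonneg (f a)
      have e4 := Real.sqrt_nonneg (∑ i ∈ s, f i)
      nlinarith [mul_nonneg e3 e4]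
    linarith

lemma geom34 (G : Finset ℕ) : ∑ j ∈ G, (3/4:ℝ)^j ≤ 4 := by
  have h := (summable_geometric_of_lt_one (r := (3/4:ℝ)) (by norm_num) (by norm_num)).sum_le_tsum G
    (fun j _ => by positivity)
  rw [tsum_geometric_of_lt_one (by norm_num) (by norm_num)] at h
  norm_num at h
  exact h

namespace Sel

variable {b m : ℕ} {τ Λ : ℝ} (S : Sel T CL b m τ Λ)

/-- general shadow bound -/
lemma sh_bound (J : Finset ℕ) (z : E) (r : ℝ) (hr : 0 < r)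
    (hJ : ∀ l ∈ J, l < S.C.N ∧ T.d (S.C.w l) z < r) (x : ℕ → ℝ) (hx : ∀ l, 0 ≤ x l) (B : ℝ)
    (hB0 : 0 ≤ B)
    (hB : ∀ ζ, ∑ l ∈ J, (S.sh l).indicator (fun _ => x l) ζ ≤ B) :
    ∑ l ∈ J, x l * S.C.h l ^ T.n ≤ B * (T.Cσ / T.cσ * 10 ^ T.n) * r ^ T.n := by
  have hc := T.cσ_pos
  have hC := T.Cσ_pos
  have h1 := S.sh_integral J (fun l hl => (hJ l hl).1) x hx
  have hms : MeasurableSet {ζ | T.d ζ z < 20 * r} := measurableSet_lt (T.d_meas _) measurable_const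
  have h2 : ∫ ζ, ∑ l ∈ J, (S.sh l).indicator (fun _ => x l) ζ ∂T.σ ≤
      ∫ ζ, {ζ | T.d ζ z < 20 * r}.indicator (fun _ => B) ζ ∂T.σ := by
    apply integral_mono (S.ind_sum_int J x) ((integrable_const _).indicator hms)
    intro ζ
    simp only
    by_cases hζ : T.d ζ z < 20 * r
    · rw [Set.indicator_of_mem (show ζ ∈ {ζ | T.d ζ z < 20 * r} from hζ)]; exact hB ζ
    · rw [Set.indicator_of_notMem (show ζ ∉ {ζ | T.d ζ z < 20 * r} from hζ)]
      apply le_of_eq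
      apply Finset.sum_eq_zero
      intro l hl
      apply Set.indicator_of_notMem
      intro hmem
      have h3 : T.d ζ (S.C.w l) < 2 * S.C.h l := hmem
      obtain ⟨hlN, hd⟩ := hJ l hl
      have h4 := T.tri ζ (S.C.w l) z
      have h5 := T.s_le (S.C.w l) z
      rw [S.C.s_h hlN] at h5
      exact hζ (by linarith)
  rw [integral_indicator_const _ hms, smul_eq_mul] at h2
  have h3 : T.σ.real {ζ | T.d ζ z < 20 * r} ≤ T.Cσ * (20 * r) ^ T.n := by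
    rw [Measure.real]
    exact ENNReal.toReal_le_of_le_ofReal (by positivity) (T.σ_le z (20 * r) (by positivity))
  have h4 : T.cσ * 2 ^ T.n * ∑ l ∈ J, x l * S.C.h l ^ T.n ≤ T.Cσ * (20 * r) ^ T.n * B :=
    h1.trans (h2.trans (mul_le_mul_of_nonneg_right h3 hB0))
  have h5 : T.Cσ * (20 * r) ^ T.n * B = T.cσ * 2 ^ T.n * (B * (T.Cσ / T.cσ * 10 ^ T.n) * r ^ T.n) := by
    rw [show (20 * r) = 2 * (10 * r) by ring, mul_pow, mul_pow]
    field_simp
  rw [h5] at h4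
  exact le_of_mul_le_mul_left h4 (by positivity)

noncomputable def ε0 (T : TS E) : ℝ := T.Cσ / T.cσ * 10 ^ T.n

lemma ε0_pos : 0 < ε0 T := by unfold ε0; have := T.cσ_pos; have := T.Cσ_pos; positivity

/-- boxes with comparable amplitude have disjoint shadows -/
lemma class_ind (hΛm : 2 * 16 ^ m ≤ Λ) (J : Finset ℕ) (t : ℝ) (ht : 0 < t)
    (hJ : ∀ l ∈ J, t ≤ S.A l ∧ S.A l < 2 * t) (ζ : E) :
    ∑ l ∈ J, (S.sh l).indicator (fun _ => (1:ℝ)) ζ ≤ 1 := by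
  classical
  have h1 : ∑ l ∈ J, (S.sh l).indicator (fun _ => (1:ℝ)) ζ = ((J.filter (fun l => ζ ∈ S.sh l)).card : ℝ) := by
    rw [Finset.card_filter]
    push_cast
    apply Finset.sum_congr rfl
    intro l _
    rw [Set.indicator_apply]
  rw [h1]
  have h2 : (J.filter (fun l => ζ ∈ S.sh l)).card ≤ 1 := by
    rw [Finset.card_le_one]
    intro i hi l hl
    rw [Finset.mem_filter] at hi hl
    rcases lt_trichotomy i l with h | h | h
    · have h3 := S.double hΛm h (lt_of_lt_of_le ht (hJ l hl.1).1) hi.2 hl.2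
      have h4 := hJ i hi.1; have h5 := hJ l hl.1; linarith
    · exact h
    · have h3 := S.double hΛm h (lt_of_lt_of_le ht (hJ i hi.1).1) hl.2 hi.2
      have h4 := hJ i hi.1; have h5 := hJ l hl.1; linarith
  exact_mod_cast h2

lemma class_mass (hΛm : 2 * 16 ^ m ≤ Λ) (J : Finset ℕ) (t : ℝ) (ht : 0 < t)
    (hJ : ∀ l ∈ J, t ≤ S.A l ∧ S.A l < 2 * t) (hJN : ∀ l ∈ J, l < S.C.N) (z : E) (r : ℝ) (hr : 0 < r)
    (hd : ∀ l ∈ J, T.d (S.C.w l) z < r) :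
    ∑ l ∈ J, S.C.h l ^ T.n ≤ ε0 T * r ^ T.n := by
  have h := S.sh_bound J z r hr (fun l hl => ⟨hJN l hl, hd l hl⟩) (fun _ => 1) (fun _ => by norm_num) 1
    (by norm_num) (S.class_ind hΛm J t ht hJ)
  simp only [one_mul] at h
  exact h

/-- tent of a candidate -/
noncomputable def tent (k : ℕ) (c : ℝ) : Finset ℕ := by
  classical
  exact (Finset.range S.C.N).filter
    (fun i => S.C.L k ≤ S.C.L i ∧ T.d (S.C.w i) (S.C.w k) < c * S.C.h k ∧ 0 < S.A i)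

lemma mem_tent {k i : ℕ} {c : ℝ} : i ∈ S.tent k c ↔
    i < S.C.N ∧ S.C.L k ≤ S.C.L i ∧ T.d (S.C.w i) (S.C.w k) < c * S.C.h k ∧ 0 < S.A i := by
  unfold tent; simp

noncomputable def Q (k : ℕ) : ℝ := ∑ i ∈ S.tent k 16, Real.sqrt (S.A i) * S.C.h i ^ T.n

noncomputable def X (k : ℕ) : ℝ := Real.sqrt (S.M (S.C.w k)) * S.C.h k ^ T.n

lemma X_pos (hΛ : 1 ≤ Λ) (k : ℕ) : 0 < S.X k := by
  unfold X
  have := S.M_pos hΛ (S.C.w k)
  have := S.C.h_pos k
  positivity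

lemma Q_nonneg (k : ℕ) : 0 ≤ S.Q k :=
  Finset.sum_nonneg (fun i _ => mul_nonneg (Real.sqrt_nonneg _) (pow_nonneg (S.C.h_pos i).le _))

/-- sqrt amplitudes: lacunary in a common shadow -/
lemma sqrt_lac (hΛm : 2 * 16 ^ m ≤ Λ) (J : Finset ℕ) (hJ : ∀ l ∈ J, 0 < S.A l) (ζ : E) (B : ℝ) (hB : 0 ≤ B)
    (hBJ : ∀ l ∈ J, ζ ∈ S.sh l → Real.sqrt (S.A l) ≤ B) :
    ∑ l ∈ J, (S.sh l).indicator (fun _ => Real.sqrt (S.A l)) ζ ≤ 4 * B := by
  classical
  have h1 : ∑ l ∈ J, (S.sh l).indicator (fun _ => Real.sqrt (S.A l)) ζ =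
      ∑ l ∈ J.filter (fun l => ζ ∈ S.sh l), Real.sqrt (S.A l) := by
    rw [Finset.sum_filter]
    apply Finset.sum_congr rfl
    intro l _
    rw [Set.indicator_apply]
  rw [h1]
  have h2 := lac_sum (fun l => Real.sqrt (S.A l)) (fun l => Real.sqrt_nonneg _) (θ := 3/4) (by norm_num)
    (by norm_num) (J.filter (fun l => ζ ∈ S.sh l)) B hB
    (fun l hl => hBJ l (Finset.mem_filter.1 hl).1 (Finset.mem_filter.1 hl).2)
    (by
      intro i hi l hl hil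
      rw [Finset.mem_filter] at hi hl
      have h3 := S.double hΛm hil (hJ l hl.1) hi.2 hl.2
      have h4 := S.A_nonneg i
      rw [Real.sqrt_le_left (by positivity), mul_pow, Real.sq_sqrt (S.A_nonneg l)]
      linarith)
  refine h2.trans (le_of_eq ?_)
  norm_num; ring

/-- low boxes -/
lemma low_bound (hΛm : 2 * 16 ^ m ≤ Λ) (k : ℕ) (B : ℝ) (hB : 0 ≤ B) (J : Finset ℕ)
    (hJ : J ⊆ S.tent k 16) (hJB : ∀ i ∈ J, S.A i ≤ B) :
    ∑ i ∈ J, Real.sqrt (S.A i) * S.C.h i ^ T.n ≤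
      4 * Real.sqrt B * ε0 T * 16 ^ T.n * S.C.h k ^ T.n := by
  have hh := S.C.h_pos k
  have h := S.sh_bound J (S.C.w k) (16 * S.C.h k) (by positivity)
    (fun l hl => ⟨((S.mem_tent).1 (hJ hl)).1, ((S.mem_tent).1 (hJ hl)).2.2.1⟩)
    (fun l => Real.sqrt (S.A l)) (fun l => Real.sqrt_nonneg _) (4 * Real.sqrt B) (by positivity)
    (fun ζ => S.sqrt_lac hΛm J (fun l hl => ((S.mem_tent).1 (hJ hl)).2.2.2) ζ _ (Real.sqrt_nonneg _)
      (fun l hl _ => Real.sqrt_le_sqrt (hJB l hl)))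
  refine h.trans (le_of_eq ?_)
  unfold ε0
  rw [mul_pow]; ring

/-- truncated natural averages -/
lemma nat_trunc {k i : ℕ} (hb : T.n + 1 ≤ b) (hk : k < S.C.N) (hi : i ∈ S.tent k 16)
    (hbig : 2 * (8 ^ b * S.u.A0 b (S.C.w k)) ≤ S.u.A0 b (S.C.w i)) :
    ENNReal.ofReal (S.u.A0 b (S.C.w i) / 2) ≤
      ∫⁻ ζ, ({ζ | T.d ζ (S.C.w k) < 128 * S.C.h k}.indicator (fun ζ => ENNReal.ofReal (S.u.u ζ)) ζ) *
        ENNReal.ofReal (Pool.Agent.Helper633.RC.PP T b (S.C.w i) ζ) ∂T.σ := by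
  obtain ⟨hiN, hL, hd, hA⟩ := (S.mem_tent).1 hi
  have hh := S.C.h_pos k
  have hhi := S.C.h_pos i
  have hhik : S.C.h i ≤ S.C.h k := by
    unfold Cand.h; exact pow_le_pow_of_le_one (by norm_num) (by norm_num) hL
  have hms : MeasurableSet {ζ | T.d ζ (S.C.w k) < 128 * S.C.h k} :=
    measurableSet_lt (T.d_meas _) measurable_const
  set D := {ζ | T.d ζ (S.C.w k) < 128 * S.C.h k} with hD
  -- real version
  have hsplit : ∫ ζ, S.u.u ζ * T.kap (S.C.w i) ζ ^ b ∂T.σ =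
      (∫ ζ in D, S.u.u ζ * T.kap (S.C.w i) ζ ^ b ∂T.σ) +
      ∫ ζ in Dᶜ, S.u.u ζ * T.kap (S.C.w i) ζ ^ b ∂T.σ :=
    (integral_add_compl hms (S.u.integrable_mul b _)).symm
  have hfar : ∫ ζ in Dᶜ, S.u.u ζ * T.kap (S.C.w i) ζ ^ b ∂T.σ ≤
      8 ^ b * (S.C.h i / S.C.h k) ^ b * ∫ ζ, S.u.u ζ * T.kap (S.C.w k) ζ ^ b ∂T.σ := by
    have h1 : ∫ ζ in Dᶜ, S.u.u ζ * T.kap (S.C.w i) ζ ^ b ∂T.σ ≤
        ∫ ζ in Dᶜ, 8 ^ b * (S.C.h i / S.C.h k) ^ b * (S.u.u ζ * T.kap (S.C.w k) ζ ^ b) ∂T.σ := by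
      apply setIntegral_mono_on (S.u.integrable_mul b _).integrableOn
        ((S.u.integrable_mul b _).const_mul _).integrableOn hms.compl
      intro ζ hζ
      have hζ' : 128 * S.C.h k ≤ T.d ζ (S.C.w k) := not_lt.1 hζ
      have h2 := T.tri ζ (S.C.w i) (S.C.w k)
      have h3 : T.d ζ (S.C.w k) ≤ 8 * T.d ζ (S.C.w i) := by linarith
      have h4 : T.kap (S.C.w i) ζ ≤ 8 * (S.C.h i / S.C.h k) * T.kap (S.C.w k) ζ := by
        unfold TS.kap
        rw [S.C.s_h hiN, S.C.s_h hk]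
        rw [show 8 * (S.C.h i / S.C.h k) * (S.C.h k / T.d ζ (S.C.w k)) = 8 * S.C.h i / T.d ζ (S.C.w k) by
          field_simp]
        rw [div_le_div_iff₀ (TS.d_pos (S.C.s_pos hiN) _) (TS.d_pos (S.C.s_pos hk) _)]
        nlinarith
      have h5 : T.kap (S.C.w i) ζ ^ b ≤ 8 ^ b * (S.C.h i / S.C.h k) ^ b * T.kap (S.C.w k) ζ ^ b := by
        rw [← mul_pow, ← mul_pow]; exact pow_le_pow_left₀ (TS.kap_nonneg _ _) h4 b
      calc S.u.u ζ * T.kap (S.C.w i) ζ ^ b ≤ S.u.u ζ * (8 ^ b * (S.C.h i / S.C.h k) ^ b * T.kap (S.C.w k) ζ ^ b) :=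
            mul_le_mul_of_nonneg_left h5 (S.u.nonneg ζ)
        _ = _ := by ring
    refine h1.trans ?_
    rw [← integral_const_mul]
    apply setIntegral_le_integral ((S.u.integrable_mul b _).const_mul _)
    apply Eventually.of_forall
    intro ζ
    have := S.u.nonneg ζ
    have := TS.kap_nonneg (T := T) (S.C.w k) ζ
    simp only [Pi.zero_apply]
    positivity
  have hA0i : S.u.A0 b (S.C.w i) * S.C.h i ^ T.n = ∫ ζ, S.u.u ζ * T.kap (S.C.w i) ζ ^ b ∂T.σ := by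
    unfold Dens.A0; rw [S.C.s_h hiN]; field_simp
  have hA0k : S.u.A0 b (S.C.w k) * S.C.h k ^ T.n = ∫ ζ, S.u.u ζ * T.kap (S.C.w k) ζ ^ b ∂T.σ := by
    unfold Dens.A0; rw [S.C.s_h hk]; field_simp
  have hA0kn := S.u.A0_nonneg b (S.C.w k)
  have hfar2 : 8 ^ b * (S.C.h i / S.C.h k) ^ b * ∫ ζ, S.u.u ζ * T.kap (S.C.w k) ζ ^ b ∂T.σ ≤
      S.u.A0 b (S.C.w i) / 2 * S.C.h i ^ T.n := by
    rw [← hA0k]
    obtain ⟨e, he⟩ := Nat.exists_eq_add_of_le (show T.n ≤ b by omega)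
    have h1 : (S.C.h i / S.C.h k) ^ b ≤ (S.C.h i / S.C.h k) ^ T.n := by
      apply pow_le_pow_of_le_one (by positivity) _ (by omega)
      rw [div_le_one hh]; exact hhik
    have h2 : (S.C.h i / S.C.h k) ^ T.n * S.C.h k ^ T.n = S.C.h i ^ T.n := by
      rw [← mul_pow, div_mul_cancel₀ _ hh.ne']
    calc 8 ^ b * (S.C.h i / S.C.h k) ^ b * (S.u.A0 b (S.C.w k) * S.C.h k ^ T.n)
        ≤ 8 ^ b * (S.C.h i / S.C.h k) ^ T.n * (S.u.A0 b (S.C.w k) * S.C.h k ^ T.n) := by gcongr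
      _ = 8 ^ b * S.u.A0 b (S.C.w k) * ((S.C.h i / S.C.h k) ^ T.n * S.C.h k ^ T.n) := by ring
      _ = 8 ^ b * S.u.A0 b (S.C.w k) * S.C.h i ^ T.n := by rw [h2]
      _ ≤ _ := by
          apply mul_le_mul_of_nonneg_right _ (by positivity)
          linarith
  have hnear : S.u.A0 b (S.C.w i) / 2 * S.C.h i ^ T.n ≤ ∫ ζ in D, S.u.u ζ * T.kap (S.C.w i) ζ ^ b ∂T.σ := by
    have := hfar.trans hfar2
    rw [hsplit] at hA0i
    linarith
  have hnear2 : S.u.A0 b (S.C.w i) / 2 ≤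
      ∫ ζ in D, S.u.u ζ * Pool.Agent.Helper633.RC.PP T b (S.C.w i) ζ ∂T.σ := by
    have h1 : ∫ ζ in D, S.u.u ζ * Pool.Agent.Helper633.RC.PP T b (S.C.w i) ζ ∂T.σ =
        (∫ ζ in D, S.u.u ζ * T.kap (S.C.w i) ζ ^ b ∂T.σ) / S.C.h i ^ T.n := by
      rw [← integral_div]
      apply integral_congr_ae
      apply Eventually.of_forall
      intro ζ
      simp only [Pool.Agent.Helper633.RC.PP]
      rw [S.C.s_h hiN]; ring
    rw [h1, le_div_iff₀ (by positivity)]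
    exact hnear
  have hPPi : Integrable (fun ζ => S.u.u ζ * Pool.Agent.Helper633.RC.PP T b (S.C.w i) ζ) T.σ := by
    have h2 := (S.u.integrable_mul b (S.C.w i)).div_const (T.s (S.C.w i) ^ T.n)
    refine h2.congr (Eventually.of_forall (fun ζ => ?_))
    simp only [Pool.Agent.Helper633.RC.PP]; ring
  calc ENNReal.ofReal (S.u.A0 b (S.C.w i) / 2)
      ≤ ENNReal.ofReal (∫ ζ in D, S.u.u ζ * Pool.Agent.Helper633.RC.PP T b (S.C.w i) ζ ∂T.σ) :=
        ENNReal.ofReal_le_ofReal hnear2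
    _ = ∫⁻ ζ in D, ENNReal.ofReal (S.u.u ζ * Pool.Agent.Helper633.RC.PP T b (S.C.w i) ζ) ∂T.σ := by
        rw [ofReal_integral_eq_lintegral_ofReal hPPi.integrableOn]
        exact Eventually.of_forall (fun ζ => mul_nonneg (S.u.nonneg ζ) (Pool.Agent.Helper633.RC.PP_nonneg T b _ ζ))
    _ = ∫⁻ ζ, (D.indicator (fun ζ => ENNReal.ofReal (S.u.u ζ)) ζ) *
        ENNReal.ofReal (Pool.Agent.Helper633.RC.PP T b (S.C.w i) ζ) ∂T.σ := by
        rw [← lintegral_indicator hms]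
        apply lintegral_congr
        intro ζ
        by_cases hζ : ζ ∈ D
        · rw [indicator_of_mem hζ, indicator_of_mem hζ, ENNReal.ofReal_mul (S.u.nonneg ζ)]
        · rw [indicator_of_notMem hζ, indicator_of_notMem hζ, zero_mul]
    _ = _ := rfl

/-- mass of truncated u -/
lemma trunc_mass {k : ℕ} (hk : k < S.C.N) :
    ∫⁻ ζ, ({ζ | T.d ζ (S.C.w k) < 128 * S.C.h k}.indicator (fun ζ => ENNReal.ofReal (S.u.u ζ)) ζ) ∂T.σ ≤
      ENNReal.ofReal (128 ^ b * S.u.A0 b (S.C.w k) * S.C.h k ^ T.n) := by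
  have hh := S.C.h_pos k
  have hms : MeasurableSet {ζ | T.d ζ (S.C.w k) < 128 * S.C.h k} :=
    measurableSet_lt (T.d_meas _) measurable_const
  have hA0k : S.u.A0 b (S.C.w k) * S.C.h k ^ T.n = ∫ ζ, S.u.u ζ * T.kap (S.C.w k) ζ ^ b ∂T.σ := by
    unfold Dens.A0; rw [S.C.s_h hk]; field_simp
  rw [mul_assoc, hA0k, ← integral_const_mul, ofReal_integral_eq_lintegral_ofReal
    ((S.u.integrable_mul b _).const_mul _) (Eventually.of_forall (fun ζ => by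
      have := S.u.nonneg ζ
      have := TS.kap_nonneg (T := T) (S.C.w k) ζ
      simp only [Pi.zero_apply]
      positivity))]
  apply lintegral_mono
  intro ζ
  by_cases hζ : ζ ∈ {ζ | T.d ζ (S.C.w k) < 128 * S.C.h k}
  · simp only [indicator_of_mem hζ]
    apply ENNReal.ofReal_le_ofReal
    have h1 : T.d ζ (S.C.w k) < 128 * S.C.h k := hζ
    have h2 : 1 ≤ 128 * T.kap (S.C.w k) ζ := by
      unfold TS.kap
      rw [S.C.s_h hk, mul_div_assoc', le_div_iff₀ (TS.d_pos (S.C.s_pos hk) _)]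
      linarith
    have h3 : 1 ≤ 128 ^ b * T.kap (S.C.w k) ζ ^ b := by
      rw [← mul_pow]; exact one_le_pow₀ h2
    have h4 := S.u.nonneg ζ
    nlinarith
  · simp only [indicator_of_notMem hζ]
    exact bot_le

end Sel

end H262RU
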