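import Pool.Agent.Helper262.RU6
set_option autoImplicit false
open MeasureTheory Set Filter
open scoped ENNReal NNReal BigOperators

namespace H262RU

variable {E : Type*} [MeasurableSpace E] {T : TS E} {CL : ℝ}

namespace Sel

section natural
variable {b m : ℕ} {τ Λ : ℝ} (S : Sel T CL b m τ Λ)

noncomputable def Cv (T : TS E) (b : ℕ) : ℝ := 12 ^ T.n * 2 ^ (b + 2) * ε0 T

lemma Cv_pos : 0 < Cv T b := by unfold Cv; have := ε0_pos (T := T); positivity

/-- natural boxes of one amplitude class -/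
lemma nat_class (hb : T.n + 1 ≤ b) (hΛm : 2 * 16 ^ m ≤ Λ) (hΛ : 1 ≤ Λ) {k : ℕ} (hk : k < S.C.N)
    (t : ℝ) (ht : 2 * (8 ^ b * (Λ * S.M (S.C.w k))) ≤ t) (J : Finset ℕ) (hJ : J ⊆ S.tent k 16)
    (hJt : ∀ i ∈ J, t ≤ S.A i ∧ S.A i < 2 * t) (hJn : ∀ i ∈ J, S.A i = S.u.A0 b (S.C.w i)) :
    t * ∑ i ∈ J, S.C.h i ^ T.n ≤ 2 * Cv T b * 128 ^ b * Λ * S.M (S.C.w k) * S.C.h k ^ T.n := by
  have hMk := S.M_pos hΛ (S.C.w k)
  have ht0 : 0 < t := lt_of_lt_of_le (by positivity) ht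
  have hA0k : S.u.A0 b (S.C.w k) ≤ Λ * S.M (S.C.w k) := (le_max_left _ _).trans (S.t_le_M hΛ hk)
  have hA0n := S.u.A0_nonneg b (S.C.w k)
  have hh := S.C.h_pos k
  have hε := ε0_pos (T := T)
  have hv := Pool.Agent.Helper633.RC.vlemma T b hb J S.C.w (fun i => S.C.h i ^ T.n)
    (fun i _ => by have := S.C.h_pos i; positivity)
    (fun i hi => S.C.s_pos ((S.mem_tent).1 (hJ hi)).1) (ε0 T) hε.le
    (fun z r hr J' hJ' hd => S.class_mass hΛm J' t ht0 (fun l hl => hJt l (hJ' hl))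
      (fun l hl => ((S.mem_tent).1 (hJ (hJ' hl))).1) z r hr hd)
    ({ζ | T.d ζ (S.C.w k) < 128 * S.C.h k}.indicator (fun ζ => ENNReal.ofReal (S.u.u ζ)))
    ((S.u.meas.ennreal_ofReal).indicator (measurableSet_lt (T.d_meas _) measurable_const))
    (t / 2) (by positivity)
    (by
      intro i hi
      have h1 := S.nat_trunc hb hk (hJ hi) (by
        rw [← hJn i hi]
        refine le_trans ?_ (ht.trans (hJt i hi).1)
        gcongr)
      refine le_trans (ENNReal.ofReal_le_ofReal ?_) h1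
      have := (hJt i hi).1
      rw [← hJn i hi]; linarith)
  have h2 := S.trunc_mass (b := b) hk
  have hsum0 : 0 ≤ ∑ i ∈ J, S.C.h i ^ T.n :=
    Finset.sum_nonneg (fun i _ => by have := S.C.h_pos i; positivity)
  have h3 : ENNReal.ofReal (t / 2 * ∑ i ∈ J, S.C.h i ^ T.n) ≤
      ENNReal.ofReal (Cv T b * (128 ^ b * S.u.A0 b (S.C.w k) * S.C.h k ^ T.n)) := by
    rw [ENNReal.ofReal_mul (by positivity), ENNReal.ofReal_mul (Cv_pos (T := T) (b := b)).le]
    refine hv.trans ?_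
    unfold Cv
    gcongr
  have hCv := Cv_pos (T := T) (b := b)
  have h4 := (ENNReal.ofReal_le_ofReal_iff (by positivity)).1 h3
  have h5 : Cv T b * (128 ^ b * S.u.A0 b (S.C.w k) * S.C.h k ^ T.n) ≤
      Cv T b * (128 ^ b * (Λ * S.M (S.C.w k)) * S.C.h k ^ T.n) := by gcongr
  nlinarith

/-- natural high boxes -/
lemma nat_high (hb : T.n + 1 ≤ b) (hΛm : 2 * 16 ^ m ≤ Λ) (hΛ : 1 ≤ Λ) {k : ℕ} (hk : k < S.C.N)
    (H : ℝ) (hH : 2 * 8 ^ b * Λ ≤ H) (J : Finset ℕ) (hJ : J ⊆ S.tent k 16)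
    (hJt : ∀ i ∈ J, H * S.M (S.C.w k) ≤ S.A i) (hJn : ∀ i ∈ J, S.A i = S.u.A0 b (S.C.w i)) :
    ∑ i ∈ J, Real.sqrt (S.A i) * S.C.h i ^ T.n ≤ 16 * Cv T b * 128 ^ b * Λ * S.X k := by
  classical
  have hMk := S.M_pos hΛ (S.C.w k)
  have hΛ0 : 0 < Λ := by linarith
  have h8 : (1:ℝ) ≤ 8 ^ b := one_le_pow₀ (by norm_num)
  have hH1 : 1 ≤ H := by nlinarith
  have hH0 : 0 < H := by linarith
  have hh := S.C.h_pos k
  have hCv := Cv_pos (T := T) (b := b)
  set t0 : ℝ := H * S.M (S.C.w k) with ht0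
  have ht0p : 0 < t0 := by positivity
  have hex : ∀ i : ℕ, ∃ j : ℕ, i ∈ J → 2 ^ j * t0 ≤ S.A i ∧ S.A i < 2 * (2 ^ j * t0) := by
    intro i
    by_cases hi : i ∈ J
    · have h1 : 1 ≤ S.A i / t0 := by rw [le_div_iff₀ ht0p, one_mul]; exact hJt i hi
      obtain ⟨j, hj1, hj2⟩ := exists_nat_pow_near h1 (by norm_num : (1:ℝ) < 2)
      refine ⟨j, fun _ => ⟨?_, ?_⟩⟩
      · rwa [le_div_iff₀ ht0p] at hj1
      · rw [div_lt_iff₀ ht0p, pow_succ] at hj2; linarith
    · exact ⟨0, fun h => absurd h hi⟩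
  choose c hc using hex
  have h1 : ∑ i ∈ J, Real.sqrt (S.A i) * S.C.h i ^ T.n =
      ∑ j ∈ J.image c, ∑ i ∈ J.filter (fun i => c i = j), Real.sqrt (S.A i) * S.C.h i ^ T.n := by
    rw [Finset.sum_fiberwise_of_maps_to]
    intro i hi; exact Finset.mem_image_of_mem c hi
  rw [h1]
  have h2 : ∀ j ∈ J.image c, ∑ i ∈ J.filter (fun i => c i = j), Real.sqrt (S.A i) * S.C.h i ^ T.n ≤
      (4 * Cv T b * 128 ^ b * Λ * S.X k) * (3/4) ^ j := by
    intro j _
    have h2j : (1:ℝ) ≤ 2 ^ j := one_le_pow₀ (by norm_num)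
    set t : ℝ := 2 ^ j * t0 with ht
    have htp : 0 < t := by positivity
    have hcl := S.nat_class hb hΛm hΛ hk t (by
        rw [ht, ht0]
        calc 2 * (8 ^ b * (Λ * S.M (S.C.w k))) = (2 * 8 ^ b * Λ) * S.M (S.C.w k) := by ring
          _ ≤ H * S.M (S.C.w k) := by gcongr
          _ ≤ 2 ^ j * (H * S.M (S.C.w k)) := by
              have : 0 ≤ H * S.M (S.C.w k) := by positivity
              nlinarith)
      (J.filter (fun i => c i = j)) ((Finset.filter_subset _ _).trans hJ)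
      (by
        intro i hi
        rw [Finset.mem_filter] at hi
        have := hc i hi.1
        rw [hi.2] at this
        exact this)
      (fun i hi => hJn i (Finset.mem_filter.1 hi).1)
    set Sg := ∑ i ∈ J.filter (fun i => c i = j), S.C.h i ^ T.n with hSg
    have hSg0 : 0 ≤ Sg := Finset.sum_nonneg (fun i _ => by have := S.C.h_pos i; positivity)
    have h3 : ∑ i ∈ J.filter (fun i => c i = j), Real.sqrt (S.A i) * S.C.h i ^ T.n ≤
        Real.sqrt (2 * t) * Sg := by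
      rw [hSg, Finset.mul_sum]
      apply Finset.sum_le_sum
      intro i hi
      rw [Finset.mem_filter] at hi
      have := hc i hi.1
      rw [hi.2] at this
      have h4 : Real.sqrt (S.A i) ≤ Real.sqrt (2 * t) := Real.sqrt_le_sqrt this.2.le
      have := S.C.h_pos i
      gcongr
    -- sqrt(2t) * Sg = sqrt(2t)/t * (tSg)
    have h4 : Real.sqrt (2 * t) * Sg ≤ Real.sqrt (2 * t) / t *
        (2 * Cv T b * 128 ^ b * Λ * S.M (S.C.w k) * S.C.h k ^ T.n) := by
      calc Real.sqrt (2 * t) * Sg = Real.sqrt (2 * t) / t * (t * Sg) := by field_simp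
        _ ≤ _ := by gcongr
    -- sqrt(2t)/t * M ≤ 2 (3/4)^j sqrt M
    have h5 : Real.sqrt (2 * t) / t * S.M (S.C.w k) ≤ 2 * (3/4) ^ j * Real.sqrt (S.M (S.C.w k)) := by
      have e1 : (2:ℝ) ^ j * S.M (S.C.w k) ≤ t := by
        rw [ht, ht0]; 
        have : S.M (S.C.w k) ≤ H * S.M (S.C.w k) := by nlinarith
        gcongr
      set Mk := S.M (S.C.w k) with hMkdef
      have e2 : Real.sqrt (2 * t) / t * Mk ≤ Real.sqrt 2 * (Mk / Real.sqrt t) := by
        rw [Real.sqrt_mul (by norm_num)]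
        have e3 : Real.sqrt t * Real.sqrt t = t := Real.mul_self_sqrt htp.le
        have e4 : 0 < Real.sqrt t := Real.sqrt_pos.2 htp
        apply le_of_eq
        rw [div_mul_eq_mul_div, mul_div_assoc', div_eq_div_iff htp.ne' e4.ne']
        calc Real.sqrt 2 * Real.sqrt t * Mk * Real.sqrt t = Real.sqrt 2 * Mk * (Real.sqrt t * Real.sqrt t) := by ring
          _ = _ := by rw [e3]
      have e5 : Mk / Real.sqrt t ≤ (3/4)^j * Real.sqrt Mk := by
        rw [div_le_iff₀ (Real.sqrt_pos.2 htp)]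
        have e6 : Real.sqrt ((2:ℝ)^j * Mk) ≤ Real.sqrt t := Real.sqrt_le_sqrt e1
        rw [Real.sqrt_mul (by positivity)] at e6
        have e7 : (1:ℝ) ≤ (3/4)^j * Real.sqrt (2^j) := by
          have : Real.sqrt ((2:ℝ)^j) = (Real.sqrt 2)^j := by
            rw [Real.sqrt_eq_iff_mul_self_eq (by positivity) (by positivity), ← mul_pow,
              Real.mul_self_sqrt (by norm_num)]
          rw [this, ← mul_pow]
          apply one_le_pow₀
          have e8 : (4/3:ℝ) ≤ Real.sqrt 2 := by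
            apply Real.le_sqrt_of_sq_le; norm_num
          linarith
        have e9 : Mk = Real.sqrt Mk * Real.sqrt Mk := (Real.mul_self_sqrt hMk.le).symm
        have e10 : 0 ≤ Real.sqrt Mk := Real.sqrt_nonneg _
        calc Mk = 1 * (Real.sqrt Mk * Real.sqrt Mk) := by rw [one_mul]; exact e9
          _ ≤ ((3/4)^j * Real.sqrt (2^j)) * (Real.sqrt Mk * Real.sqrt Mk) := by gcongr
          _ = (3/4)^j * Real.sqrt Mk * (Real.sqrt (2^j) * Real.sqrt Mk) := by ring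
          _ ≤ (3/4)^j * Real.sqrt Mk * Real.sqrt t := by gcongr
      have e11 : Real.sqrt 2 ≤ 2 := by
        rw [Real.sqrt_le_left (by norm_num)]; norm_num
      calc Real.sqrt (2 * t) / t * Mk ≤ Real.sqrt 2 * (Mk / Real.sqrt t) := e2
        _ ≤ 2 * ((3/4)^j * Real.sqrt Mk) := by gcongr
        _ = _ := by ring
    calc ∑ i ∈ J.filter (fun i => c i = j), Real.sqrt (S.A i) * S.C.h i ^ T.n
        ≤ Real.sqrt (2 * t) / t * (2 * Cv T b * 128 ^ b * Λ * S.M (S.C.w k) * S.C.h k ^ T.n) := h3.trans h4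
      _ = (Real.sqrt (2 * t) / t * S.M (S.C.w k)) * (2 * Cv T b * 128 ^ b * Λ * S.C.h k ^ T.n) := by ring
      _ ≤ (2 * (3/4) ^ j * Real.sqrt (S.M (S.C.w k))) * (2 * Cv T b * 128 ^ b * Λ * S.C.h k ^ T.n) := by
          gcongr
      _ = _ := by unfold X; ring
  refine (Finset.sum_le_sum h2).trans ?_
  rw [← Finset.mul_sum]
  have h3 := geom34 (J.image c)
  have hX := S.X_pos hΛ k
  calc (4 * Cv T b * 128 ^ b * Λ * S.X k) * ∑ j ∈ J.image c, (3/4:ℝ) ^ j
      ≤ (4 * Cv T b * 128 ^ b * Λ * S.X k) * 4 := by gcongr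
    _ = _ := by ring

end natural

end Sel

end H262RU
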