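import Pool.Agent.Helper262.RU7
set_option autoImplicit false
open MeasureTheory Set Filter
open scoped ENNReal NNReal BigOperators

namespace H262RU

variable {E : Type*} [MeasurableSpace E] {T : TS E} {CL : ℝ}

lemma sum_union_le (f : ℕ → ℝ) (hf : ∀ j, 0 ≤ f j) (s t : Finset ℕ) :
    ∑ j ∈ s ∪ t, f j ≤ ∑ j ∈ s, f j + ∑ j ∈ t, f j := by
  classical
  have h := Finset.sum_union_inter (s₁ := s) (s₂ := t) (f := f)
  have h2 : 0 ≤ ∑ j ∈ s ∩ t, f j := Finset.sum_nonneg (fun j _ => hf j)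
  linarith

namespace Sel

section forced
variable {p m : ℕ} {τ Λ : ℝ} (S : Sel T CL (2 * p) m τ Λ)

/-- bigger tent used for the forced boxes -/
noncomputable def big (k : ℕ) : Finset ℕ := by
  classical
  exact (Finset.range S.C.N).filter (fun j => k ≤ j ∧ T.d (S.C.w j) (S.C.w k) < 128 * S.C.h k ∧ 0 < S.A j)

lemma mem_big {k j : ℕ} : j ∈ S.big k ↔
    j < S.C.N ∧ k ≤ j ∧ T.d (S.C.w j) (S.C.w k) < 128 * S.C.h k ∧ 0 < S.A j := by
  unfold big; simp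

noncomputable def Kb (T : TS E) (CL : ℝ) (b m : ℕ) (Λ : ℝ) : ℝ :=
  28 ^ b * 28 ^ m * ((2 * 28 ^ b + 2 ^ (b + 2) * c3 T CL b * (52 ^ b * 2 ^ T.n)) * Λ * 28 ^ m)

lemma τKa_le {b : ℕ} (hCL : 0 ≤ CL) (hτ : 0 < τ) (hτ1 : τ ≤ 1) (hΛ : 1 ≤ Λ) :
    τ * Ka T CL b m τ Λ ≤ Kb T CL b m Λ := by
  unfold Ka Ca Kb
  have hc3 := c3_nonneg (T := T) (b := b) hCL
  have h1 : τ * (2 * 28 ^ b / τ + 2 ^ (b + 2) * c3 T CL b * (52 ^ b * 2 ^ T.n)) ≤
      2 * 28 ^ b + 2 ^ (b + 2) * c3 T CL b * (52 ^ b * 2 ^ T.n) := by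
    rw [mul_add]
    have e1 : τ * (2 * 28 ^ b / τ) = 2 * 28 ^ b := by field_simp
    rw [e1]
    have e2 : 0 ≤ 2 ^ (b + 2) * c3 T CL b * (52 ^ b * 2 ^ T.n) := by positivity
    nlinarith
  calc τ * (28 ^ b * 28 ^ m * ((2 * 28 ^ b / τ + 2 ^ (b + 2) * c3 T CL b * (52 ^ b * 2 ^ T.n)) * Λ * 28 ^ m))
      = 28 ^ b * 28 ^ m * (τ * (2 * 28 ^ b / τ + 2 ^ (b + 2) * c3 T CL b * (52 ^ b * 2 ^ T.n)) * Λ * 28 ^ m) := by ring
    _ ≤ _ := by gcongr

/-- forced high box: most of its amplitude comes from the big tent -/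
lemma forced_main (hCL : 0 ≤ CL) (hp : T.n + 1 ≤ p) (hτ : 0 < τ) (hτ1 : τ ≤ 1) (hΛ : 1 ≤ Λ)
    (hτD : τ * Dq T CL (2 * p) ≤ 1/2) {k i : ℕ} (hk : k < S.C.N) (hi : i ∈ S.tent k 16)
    (hf : S.forced i)
    (hbig : 2 * (132 ^ (2 * p) * Λ + 8 ^ (2 * p) * Kb T CL (2 * p) m Λ) * S.M (S.C.w k) ≤ S.A i)
    {ζ : E} (hζ : ζ ∈ S.sh i) :
    Real.sqrt (S.A i) ≤ 2 * Real.sqrt τ * 20 ^ p * ∑ j ∈ S.big k, Real.sqrt (S.A j) * S.C.kp j ζ ^ p := by
  classical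
  obtain ⟨hiN, hL, hd, hA⟩ := (S.mem_tent).1 hi
  have hMk := S.M_pos hΛ (S.C.w k)
  have hh := S.C.h_pos k
  have hζ' : T.d ζ (S.C.w i) < 2 * S.C.h i := hζ
  -- bound the sum
  have hkpn : ∀ j x, 0 ≤ S.C.kp j x ^ (2 * p) := fun j x => pow_nonneg (S.C.kp_nonneg _ _) _
  have h1 : ∑ j ∈ Finset.range i, S.A j * S.C.kp j (S.C.w i) ^ (2 * p) ≤
      ∑ j ∈ Finset.range k, S.A j * S.C.kp j (S.C.w i) ^ (2 * p) +
      ∑ j ∈ (Finset.range i).filter (fun j => 128 * S.C.h k ≤ T.d (S.C.w j) (S.C.w k)),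
        S.A j * S.C.kp j (S.C.w i) ^ (2 * p) +
      ∑ j ∈ (S.big k).filter (fun j => j < i), S.A j * S.C.kp j (S.C.w i) ^ (2 * p) := by
    have hn : ∀ j, 0 ≤ S.A j * S.C.kp j (S.C.w i) ^ (2 * p) := fun j => mul_nonneg (S.A_nonneg j) (hkpn _ _)
    have h2 : ∑ j ∈ Finset.range i, S.A j * S.C.kp j (S.C.w i) ^ (2 * p) ≤
        ∑ j ∈ (Finset.range k ∪ (Finset.range i).filter (fun j => 128 * S.C.h k ≤ T.d (S.C.w j) (S.C.w k))) ∪
          (S.big k).filter (fun j => j < i), S.A j * S.C.kp j (S.C.w i) ^ (2 * p) := by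
      -- restrict to A j > 0
      have h3 : ∑ j ∈ Finset.range i, S.A j * S.C.kp j (S.C.w i) ^ (2 * p) =
          ∑ j ∈ (Finset.range i).filter (fun j => 0 < S.A j), S.A j * S.C.kp j (S.C.w i) ^ (2 * p) := by
        rw [Finset.sum_filter]
        apply Finset.sum_congr rfl
        intro j _
        split_ifs with h
        · rfl
        · have : S.A j = 0 := le_antisymm (not_lt.1 h) (S.A_nonneg j)
          rw [this, zero_mul]
      rw [h3]
      apply Finset.sum_le_sum_of_subset_of_nonneg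
      · intro j hj
        rw [Finset.mem_filter, Finset.mem_range] at hj
        rw [Finset.mem_union, Finset.mem_union, Finset.mem_range, Finset.mem_filter, Finset.mem_filter,
          Finset.mem_range, S.mem_big]
        rcases lt_or_ge j k with h | h
        · left; left; exact h
        · rcases lt_or_ge (T.d (S.C.w j) (S.C.w k)) (128 * S.C.h k) with h' | h'
          · right; exact ⟨⟨lt_trans hj.1 hiN, h, h', hj.2⟩, hj.1⟩
          · left; right; exact ⟨hj.1, h'⟩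
      · intro j _ _; exact hn j
    refine h2.trans ?_
    refine (sum_union_le _ hn _ _).trans ?_
    have := sum_union_le _ hn (Finset.range k) ((Finset.range i).filter (fun j => 128 * S.C.h k ≤ T.d (S.C.w j) (S.C.w k)))
    linarith
  -- (a)
  have ha : ∑ j ∈ Finset.range k, S.A j * S.C.kp j (S.C.w i) ^ (2 * p) ≤
      132 ^ (2 * p) * (Λ * S.M (S.C.w k) / τ) := by
    have e1 := S.early_comp hk (z := S.C.w i) (ρ := 16) (by norm_num) (by rw [T.d_symm]; exact hd.le)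
    norm_num at e1
    refine e1.trans ?_
    have e2 := S.early_le hτ k
    have e3 := S.t_le_M hΛ hk
    have e4 : S.t k / τ ≤ Λ * S.M (S.C.w k) / τ := by gcongr
    have e5 := e2.trans e4
    gcongr
  have hb : ∑ j ∈ (Finset.range i).filter (fun j => 128 * S.C.h k ≤ T.d (S.C.w j) (S.C.w k)),
        S.A j * S.C.kp j (S.C.w i) ^ (2 * p) ≤ 8 ^ (2 * p) * (Ka T CL (2 * p) m τ Λ * S.M (S.C.w k)) := by
    have e1 : ∑ j ∈ (Finset.range i).filter (fun j => 128 * S.C.h k ≤ T.d (S.C.w j) (S.C.w k)),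
        S.A j * S.C.kp j (S.C.w i) ^ (2 * p) ≤ 8 ^ (2 * p) * S.a (S.C.w k) := by
      unfold a
      rw [Finset.mul_sum]
      refine le_trans (b := ∑ j ∈ (Finset.range i).filter (fun j => 128 * S.C.h k ≤ T.d (S.C.w j) (S.C.w k)),
        8 ^ (2 * p) * (S.A j * S.C.kp j (S.C.w k) ^ (2 * p))) ?_ ?_
      · apply Finset.sum_le_sum
        intro j hj
        rw [Finset.mem_filter, Finset.mem_range] at hj
        have hjN : j < S.C.N := lt_trans hj.1 hiN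
        have f1 := T.tri (S.C.w k) (S.C.w i) (S.C.w j)
        have f2 : T.d (S.C.w k) (S.C.w i) < 16 * S.C.h k := by rw [T.d_symm]; exact hd
        have f3 : 128 * S.C.h k ≤ T.d (S.C.w k) (S.C.w j) := by rw [T.d_symm]; exact hj.2
        have f4 : T.d (S.C.w k) (S.C.w j) ≤ 8 * T.d (S.C.w i) (S.C.w j) := by linarith
        have f5 : S.C.kp j (S.C.w i) ≤ 8 * S.C.kp j (S.C.w k) := by
          unfold Cand.kp TS.kap
          rw [mul_div_assoc', div_le_div_iff₀ (TS.d_pos (S.C.s_pos hjN) _) (TS.d_pos (S.C.s_pos hjN) _)]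
          have := S.C.s_pos hjN
          nlinarith
        have f6 : S.C.kp j (S.C.w i) ^ (2 * p) ≤ 8 ^ (2 * p) * S.C.kp j (S.C.w k) ^ (2 * p) := by
          rw [← mul_pow]; exact pow_le_pow_left₀ (S.C.kp_nonneg _ _) f5 _
        calc S.A j * S.C.kp j (S.C.w i) ^ (2 * p) ≤ S.A j * (8 ^ (2 * p) * S.C.kp j (S.C.w k) ^ (2 * p)) :=
              mul_le_mul_of_nonneg_left f6 (S.A_nonneg j)
          _ = _ := by ring
      · apply Finset.sum_le_sum_of_subset_of_nonneg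
        · intro j hj
          rw [Finset.mem_filter, Finset.mem_range] at hj
          rw [Finset.mem_range]; omega
        · intro j _ _
          have := S.A_nonneg j
          have := hkpn j (S.C.w k)
          positivity
    refine e1.trans ?_
    have := S.a_le_M hCL (by omega) hτ hΛ hτD (S.C.w k)
    gcongr
  -- conclusion
  have hc : S.A i ≤ 2 * τ * ∑ j ∈ (S.big k).filter (fun j => j < i), S.A j * S.C.kp j (S.C.w i) ^ (2 * p) := by
    have e1 := hf.2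
    have e2 : S.A i ≤ τ * (132 ^ (2 * p) * (Λ * S.M (S.C.w k) / τ) +
        8 ^ (2 * p) * (Ka T CL (2 * p) m τ Λ * S.M (S.C.w k)) +
        ∑ j ∈ (S.big k).filter (fun j => j < i), S.A j * S.C.kp j (S.C.w i) ^ (2 * p)) := by
      rw [e1]
      apply mul_le_mul_of_nonneg_left _ hτ.le
      linarith
    have e3 : τ * (132 ^ (2 * p) * (Λ * S.M (S.C.w k) / τ)) = 132 ^ (2 * p) * Λ * S.M (S.C.w k) := by
      field_simp
    have e4 : τ * (8 ^ (2 * p) * (Ka T CL (2 * p) m τ Λ * S.M (S.C.w k))) ≤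
        8 ^ (2 * p) * Kb T CL (2 * p) m Λ * S.M (S.C.w k) := by
      have := τKa_le (T := T) (m := m) (b := 2 * p) hCL hτ hτ1 hΛ
      calc τ * (8 ^ (2 * p) * (Ka T CL (2 * p) m τ Λ * S.M (S.C.w k)))
          = 8 ^ (2 * p) * (τ * Ka T CL (2 * p) m τ Λ) * S.M (S.C.w k) := by ring
        _ ≤ _ := by gcongr
    rw [mul_add, mul_add, e3] at e2
    linarith
  -- square roots
  have h5 : Real.sqrt (S.A i) ≤ Real.sqrt (2 * τ) *
      ∑ j ∈ (S.big k).filter (fun j => j < i), Real.sqrt (S.A j) * S.C.kp j (S.C.w i) ^ p := by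
    refine (Real.sqrt_le_sqrt hc).trans ?_
    rw [Real.sqrt_mul (by positivity)]
    apply mul_le_mul_of_nonneg_left _ (Real.sqrt_nonneg _)
    refine (sqrt_sum_le _ _ (fun j => mul_nonneg (S.A_nonneg j) (hkpn _ _))).trans (le_of_eq ?_)
    apply Finset.sum_congr rfl
    intro j _
    rw [Real.sqrt_mul (S.A_nonneg j)]
    congr 1
    rw [show S.C.kp j (S.C.w i) ^ (2 * p) = (S.C.kp j (S.C.w i) ^ p) ^ 2 by ring,
      Real.sqrt_sq (pow_nonneg (S.C.kp_nonneg _ _) _)]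
  have h6 : Real.sqrt (2 * τ) ≤ 2 * Real.sqrt τ := by
    rw [Real.sqrt_mul (by norm_num)]
    have : Real.sqrt 2 ≤ 2 := by rw [Real.sqrt_le_left (by norm_num)]; norm_num
    gcongr
  have h7 : ∑ j ∈ (S.big k).filter (fun j => j < i), Real.sqrt (S.A j) * S.C.kp j (S.C.w i) ^ p ≤
      20 ^ p * ∑ j ∈ S.big k, Real.sqrt (S.A j) * S.C.kp j ζ ^ p := by
    rw [Finset.mul_sum]
    refine le_trans (b := ∑ j ∈ (S.big k).filter (fun j => j < i),
      20 ^ p * (Real.sqrt (S.A j) * S.C.kp j ζ ^ p)) ?_ ?_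
    · apply Finset.sum_le_sum
      intro j hj
      rw [Finset.mem_filter] at hj
      have hjN : j < S.C.N := ((S.mem_big).1 hj.1).1
      have f1 : T.d ζ (S.C.w i) ≤ 2 * T.s (S.C.w j) := by
        rw [S.C.s_h hjN]
        have := S.C.h_anti hj.2.le hiN
        linarith
      have f2 : S.C.kp j (S.C.w i) ≤ 20 * S.C.kp j ζ := by
        have := TS.kap_comp (S.C.s_pos hjN) (ρ := 2) (by norm_num) f1
        norm_num at this
        exact this
      have f3 : S.C.kp j (S.C.w i) ^ p ≤ 20 ^ p * S.C.kp j ζ ^ p := by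
        rw [← mul_pow]; exact pow_le_pow_left₀ (S.C.kp_nonneg _ _) f2 _
      calc Real.sqrt (S.A j) * S.C.kp j (S.C.w i) ^ p ≤ Real.sqrt (S.A j) * (20 ^ p * S.C.kp j ζ ^ p) :=
            mul_le_mul_of_nonneg_left f3 (Real.sqrt_nonneg _)
        _ = _ := by ring
    · apply Finset.sum_le_sum_of_subset_of_nonneg (Finset.filter_subset _ _)
      intro j _ _
      have := S.C.kp_nonneg j ζ
      positivity
  have h8 : 0 ≤ ∑ j ∈ S.big k, Real.sqrt (S.A j) * S.C.kp j ζ ^ p :=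
    Finset.sum_nonneg (fun j _ => mul_nonneg (Real.sqrt_nonneg _) (pow_nonneg (S.C.kp_nonneg _ _) _))
  have h9 : 0 ≤ ∑ j ∈ (S.big k).filter (fun j => j < i), Real.sqrt (S.A j) * S.C.kp j (S.C.w i) ^ p :=
    Finset.sum_nonneg (fun j _ => mul_nonneg (Real.sqrt_nonneg _) (pow_nonneg (S.C.kp_nonneg _ _) _))
  calc Real.sqrt (S.A i) ≤ _ := h5
    _ ≤ (2 * Real.sqrt τ) * (20 ^ p * ∑ j ∈ S.big k, Real.sqrt (S.A j) * S.C.kp j ζ ^ p) := by
        gcongr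
    _ = _ := by ring

/-- forced high boxes -/
lemma forced_high (hCL : 0 ≤ CL) (hp : T.n + 1 ≤ p) (hτ : 0 < τ) (hτ1 : τ ≤ 1) (hΛ : 1 ≤ Λ)
    (hΛm : 2 * 16 ^ m ≤ Λ)
    (hτD : τ * Dq T CL (2 * p) ≤ 1/2) {k : ℕ} (hk : k < S.C.N) (J : Finset ℕ) (hJ : J ⊆ S.tent k 16)
    (hf : ∀ i ∈ J, S.forced i)
    (hbig : ∀ i ∈ J, 2 * (132 ^ (2 * p) * Λ + 8 ^ (2 * p) * Kb T CL (2 * p) m Λ) * S.M (S.C.w k) ≤ S.A i) :
    T.cσ * 2 ^ T.n * ∑ i ∈ J, Real.sqrt (S.A i) * S.C.h i ^ T.n ≤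
      8 * Real.sqrt τ * 20 ^ p * T.Ci p * ∑ j ∈ S.big k, Real.sqrt (S.A j) * S.C.h j ^ T.n := by
  classical
  have h1 := S.sh_integral J (fun l hl => ((S.mem_tent).1 (hJ hl)).1) (fun l => Real.sqrt (S.A l))
    (fun l => Real.sqrt_nonneg _)
  refine h1.trans ?_
  have hpt : ∀ ζ, ∑ l ∈ J, (S.sh l).indicator (fun _ => Real.sqrt (S.A l)) ζ ≤
      8 * Real.sqrt τ * 20 ^ p * ∑ j ∈ S.big k, Real.sqrt (S.A j) * S.C.kp j ζ ^ p := by
    intro ζ
    have h8 : 0 ≤ ∑ j ∈ S.big k, Real.sqrt (S.A j) * S.C.kp j ζ ^ p :=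
      Finset.sum_nonneg (fun j _ => mul_nonneg (Real.sqrt_nonneg _) (pow_nonneg (S.C.kp_nonneg _ _) _))
    have h2 := S.sqrt_lac hΛm J (fun l hl => ((S.mem_tent).1 (hJ hl)).2.2.2) ζ
      (2 * Real.sqrt τ * 20 ^ p * ∑ j ∈ S.big k, Real.sqrt (S.A j) * S.C.kp j ζ ^ p) (by positivity)
      (fun l hl hζ => S.forced_main hCL hp hτ hτ1 hΛ hτD hk (hJ hl) (hf l hl) (hbig l hl) hζ)
    refine h2.trans (le_of_eq (by ring))
  have hint : ∀ j, Integrable (fun ζ => Real.sqrt (S.A j) * S.C.kp j ζ ^ p) T.σ := by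
    intro j
    apply Integrable.const_mul
    apply T.integ ((S.C.kp_meas j).pow_const p) (C := 2 ^ p)
    intro x
    rw [abs_of_nonneg (pow_nonneg (S.C.kp_nonneg _ _) _)]
    exact pow_le_pow_left₀ (S.C.kp_nonneg _ _) (S.C.kp_le_two _ _) p
  calc ∫ ζ, ∑ l ∈ J, (S.sh l).indicator (fun _ => Real.sqrt (S.A l)) ζ ∂T.σ
      ≤ ∫ ζ, 8 * Real.sqrt τ * 20 ^ p * ∑ j ∈ S.big k, Real.sqrt (S.A j) * S.C.kp j ζ ^ p ∂T.σ := by
        apply integral_mono (S.ind_sum_int J _) _ hpt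
        exact (integrable_finset_sum _ (fun j _ => hint j)).const_mul _
    _ = 8 * Real.sqrt τ * 20 ^ p * ∑ j ∈ S.big k, Real.sqrt (S.A j) * ∫ ζ, S.C.kp j ζ ^ p ∂T.σ := by
        rw [integral_const_mul, integral_finset_sum _ (fun j _ => hint j)]
        congr 1
        apply Finset.sum_congr rfl
        intro j _
        rw [integral_const_mul]
    _ ≤ 8 * Real.sqrt τ * 20 ^ p * ∑ j ∈ S.big k, Real.sqrt (S.A j) * (T.Ci p * S.C.h j ^ T.n) := by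
        apply mul_le_mul_of_nonneg_left _ (by positivity)
        apply Finset.sum_le_sum
        intro j hj
        have hjN : j < S.C.N := ((S.mem_big).1 hj).1
        apply mul_le_mul_of_nonneg_left _ (Real.sqrt_nonneg _)
        have := T.int_kap_real p hp (S.C.s_pos hjN)
        rw [S.C.s_h hjN] at this
        exact this
    _ = _ := by
        rw [Finset.mul_sum, Finset.mul_sum]
        apply Finset.sum_congr rfl
        intro j _
        ring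

/-- a parent of k at 8 levels above -/
lemma parent (k : ℕ) (hk : k < S.C.N) : ∃ k', k' < S.C.N ∧ S.C.h k' ≤ 256 * S.C.h k ∧
    T.d (S.C.w k) (S.C.w k') ≤ 3 * S.C.h k' ∧ S.big k ⊆ S.tent k' 16 := by
  have h0 : T.s (S.C.w k) ≤ (1/2:ℝ) ^ (S.C.L k - 8) := by
    rw [S.C.s_h hk]
    unfold Cand.h
    exact pow_le_pow_of_le_one (by norm_num) (by norm_num) (by omega)
  obtain ⟨k', h1, h2, h3⟩ := S.C.cover (S.C.w k) (S.C.L k - 8) (by
    have := S.C.L_le k hk; omega) h0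
  have hhk' : S.C.h k' = (1/2:ℝ) ^ (S.C.L k - 8) := by unfold Cand.h; rw [h2]
  have hhk : S.C.h k = (1/2:ℝ) ^ (S.C.L k) := rfl
  have hpos := S.C.h_pos k
  refine ⟨k', h1, ?_, ?_, ?_⟩
  · rw [hhk', hhk]
    rcases le_or_gt 8 (S.C.L k) with h | h
    · obtain ⟨e, he⟩ := Nat.exists_eq_add_of_le h
      rw [he, pow_add, Nat.add_sub_cancel_left]
      norm_num
      linarith [show (0:ℝ) < (1/2)^e by positivity]
    · have : S.C.L k - 8 = 0 := by omega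
      rw [this, pow_zero]
      have : (1/2:ℝ)^8 ≤ (1/2:ℝ)^(S.C.L k) := pow_le_pow_of_le_one (by norm_num) (by norm_num) h.le
      norm_num at this ⊢
      linarith
  · rw [hhk']; exact h3
  · intro j hj
    rw [S.mem_big] at hj
    rw [S.mem_tent]
    have hLj := S.C.L_mono k j hj.2.1 hj.1
    refine ⟨hj.1, by omega, ?_, hj.2.2.2⟩
    rw [hhk']
    rcases le_or_gt 8 (S.C.L k) with h | h
    · have h4 := T.tri (S.C.w j) (S.C.w k) (S.C.w k')
      have h5 := hj.2.2.1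
      have h6 : 256 * S.C.h k = (1/2:ℝ) ^ (S.C.L k - 8) := by
        rw [hhk]
        obtain ⟨e, he⟩ := Nat.exists_eq_add_of_le h
        rw [he, pow_add, Nat.add_sub_cancel_left]
        norm_num
        ring
      rw [← h6] at h3 ⊢
      linarith
    · have : S.C.L k - 8 = 0 := by omega
      rw [this, pow_zero]
      have := T.d_le (S.C.w j) (S.C.w k')
      linarith

lemma X_parent {k k' : ℕ} (h1 : S.C.h k' ≤ 256 * S.C.h k) (hk' : k' < S.C.N)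
    (h2 : T.d (S.C.w k) (S.C.w k') ≤ 3 * S.C.h k') :
    S.X k' ≤ Real.sqrt (28 ^ m) * 256 ^ T.n * S.X k := by
  have h3 := S.M_comp (z := S.C.w k) (v := S.C.w k') (ρ := 3) (by norm_num) (by rw [S.C.s_h hk']; exact h2)
  norm_num at h3
  have h4 : Real.sqrt (S.M (S.C.w k')) ≤ Real.sqrt (28 ^ m) * Real.sqrt (S.M (S.C.w k)) := by
    rw [← Real.sqrt_mul (by positivity)]; exact Real.sqrt_le_sqrt h3
  have hk0 := S.C.h_pos k
  have hk'0 := S.C.h_pos k'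
  have h5 : S.C.h k' ^ T.n ≤ 256 ^ T.n * S.C.h k ^ T.n := by
    rw [← mul_pow]; exact pow_le_pow_left₀ hk'0.le h1 _
  unfold X
  calc Real.sqrt (S.M (S.C.w k')) * S.C.h k' ^ T.n
      ≤ (Real.sqrt (28 ^ m) * Real.sqrt (S.M (S.C.w k))) * (256 ^ T.n * S.C.h k ^ T.n) := by gcongr
    _ = _ := by ring

noncomputable def H1 (T : TS E) (CL : ℝ) (p m : ℕ) (Λ : ℝ) : ℝ :=
  2 * (132 ^ (2 * p) * Λ + 8 ^ (2 * p) * Kb T CL (2 * p) m Λ) + 2 * 8 ^ (2 * p) * Λ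

noncomputable def C3 (T : TS E) (CL : ℝ) (p m : ℕ) (Λ : ℝ) : ℝ :=
  4 * Real.sqrt (H1 T CL p m Λ) * ε0 T * 16 ^ T.n + 16 * Cv T (2 * p) * 128 ^ (2 * p) * Λ

lemma Kb_nonneg {b : ℕ} (hCL : 0 ≤ CL) (hΛ : 1 ≤ Λ) : 0 ≤ Kb T CL b m Λ := by
  unfold Kb
  have hc3 := c3_nonneg (T := T) (b := b) hCL
  positivity

lemma H1_pos (hCL : 0 ≤ CL) (hΛ : 1 ≤ Λ) : 0 < H1 T CL p m Λ := by
  unfold H1
  have := Kb_nonneg (T := T) (b := 2 * p) (m := m) hCL hΛ
  positivity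

lemma C3_pos (hCL : 0 ≤ CL) (hΛ : 1 ≤ Λ) : 0 < C3 T CL p m Λ := by
  unfold C3
  have := ε0_pos (T := T)
  have := Cv_pos (T := T) (b := 2 * p)
  have := H1_pos (T := T) (p := p) (m := m) hCL hΛ
  positivity

/-- one step of the recursion for Q -/
lemma Q_step (hCL : 0 ≤ CL) (hp : T.n + 1 ≤ p) (hτ : 0 < τ) (hτ1 : τ ≤ 1) (hΛ : 1 ≤ Λ)
    (hΛm : 2 * 16 ^ m ≤ Λ)
    (hτD : τ * Dq T CL (2 * p) ≤ 1/2) {k : ℕ} (hk : k < S.C.N) :
    S.Q k ≤ C3 T CL p m Λ * S.X k +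
      8 * Real.sqrt τ * 20 ^ p * T.Ci p / (T.cσ * 2 ^ T.n) *
        ∑ j ∈ S.big k, Real.sqrt (S.A j) * S.C.h j ^ T.n := by
  classical
  have hMk := S.M_pos hΛ (S.C.w k)
  have hKb := Kb_nonneg (T := T) (b := 2 * p) (m := m) hCL hΛ
  have hH1 := H1_pos (T := T) (p := p) (m := m) hCL hΛ
  have hc := T.cσ_pos
  have hn : ∀ i, 0 ≤ Real.sqrt (S.A i) * S.C.h i ^ T.n :=
    fun i => mul_nonneg (Real.sqrt_nonneg _) (pow_nonneg (S.C.h_pos i).le _)
  set J1 := (S.tent k 16).filter (fun i => S.A i ≤ H1 T CL p m Λ * S.M (S.C.w k)) with hJ1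
  set J2 := (S.tent k 16).filter (fun i => H1 T CL p m Λ * S.M (S.C.w k) ≤ S.A i ∧ S.A i = S.u.A0 (2 * p) (S.C.w i)) with hJ2
  set J3 := (S.tent k 16).filter (fun i => H1 T CL p m Λ * S.M (S.C.w k) ≤ S.A i ∧ S.forced i) with hJ3
  have hcov : S.Q k ≤ ∑ i ∈ J1, Real.sqrt (S.A i) * S.C.h i ^ T.n +
      ∑ i ∈ J2, Real.sqrt (S.A i) * S.C.h i ^ T.n + ∑ i ∈ J3, Real.sqrt (S.A i) * S.C.h i ^ T.n := by
    have h1 : S.Q k ≤ ∑ i ∈ (J1 ∪ J2) ∪ J3, Real.sqrt (S.A i) * S.C.h i ^ T.n := by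
      apply Finset.sum_le_sum_of_subset_of_nonneg
      · intro i hi
        rw [Finset.mem_union, Finset.mem_union, hJ1, hJ2, hJ3, Finset.mem_filter, Finset.mem_filter, Finset.mem_filter]
        rcases le_total (S.A i) (H1 T CL p m Λ * S.M (S.C.w k)) with h | h
        · left; left; exact ⟨hi, h⟩
        · have hA := ((S.mem_tent).1 hi).2.2.2
          have h2 := (S.A_pos_iff hA).1
          unfold t at h2
          rcases le_total (τ * ∑ j ∈ Finset.range i, S.A j * S.C.kp j (S.C.w i) ^ (2 * p)) (S.u.A0 (2 * p) (S.C.w i)) with h3 | h3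
          · left; right
            rw [max_eq_left h3] at h2
            exact ⟨hi, h, h2⟩
          · right
            rw [max_eq_right h3] at h2
            exact ⟨hi, h, hA, h2⟩
      · intro i _ _; exact hn i
    have h2 := sum_union_le _ hn (J1 ∪ J2) J3
    have h3 := sum_union_le _ hn J1 J2
    linarith
  have hl := S.low_bound hΛm k (H1 T CL p m Λ * S.M (S.C.w k)) (by positivity) J1 (Finset.filter_subset _ _)
    (fun i hi => (Finset.mem_filter.1 hi).2)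
  have hnat := S.nat_high (by omega) hΛm hΛ hk (H1 T CL p m Λ) (by unfold H1; nlinarith [show (0:ℝ) ≤ 132 ^ (2 * p) * Λ by positivity, show (0:ℝ) ≤ 8 ^ (2 * p) * Kb T CL (2 * p) m Λ by positivity])
    J2 (Finset.filter_subset _ _) (fun i hi => (Finset.mem_filter.1 hi).2.1) (fun i hi => (Finset.mem_filter.1 hi).2.2)
  have hfo := S.forced_high hCL hp hτ hτ1 hΛ hΛm hτD hk J3 (Finset.filter_subset _ _)
    (fun i hi => (Finset.mem_filter.1 hi).2.2)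
    (fun i hi => by
      refine le_trans ?_ (Finset.mem_filter.1 hi).2.1
      apply mul_le_mul_of_nonneg_right _ hMk.le
      unfold H1
      have : (0:ℝ) ≤ 2 * 8 ^ (2 * p) * Λ := by positivity
      linarith)
  have hfo2 : ∑ i ∈ J3, Real.sqrt (S.A i) * S.C.h i ^ T.n ≤
      8 * Real.sqrt τ * 20 ^ p * T.Ci p / (T.cσ * 2 ^ T.n) *
        ∑ j ∈ S.big k, Real.sqrt (S.A j) * S.C.h j ^ T.n := by
    rw [div_mul_eq_mul_div, le_div_iff₀ (by positivity)]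
    linarith
  have hl2 : 4 * Real.sqrt (H1 T CL p m Λ * S.M (S.C.w k)) * ε0 T * 16 ^ T.n * S.C.h k ^ T.n =
      4 * Real.sqrt (H1 T CL p m Λ) * ε0 T * 16 ^ T.n * S.X k := by
    rw [Real.sqrt_mul hH1.le]; unfold X; ring
  rw [hl2] at hl
  unfold C3
  rw [add_mul]
  linarith

noncomputable def C5 (T : TS E) (m : ℕ) : ℝ := Real.sqrt (28 ^ m) * 256 ^ T.n

/-- **Carleson-type bound for the square roots of the amplitudes** -/
lemma Q_le (hCL : 0 ≤ CL) (hp : T.n + 1 ≤ p) (hτ : 0 < τ) (hτ1 : τ ≤ 1) (hΛ : 1 ≤ Λ)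
    (hΛm : 2 * 16 ^ m ≤ Λ)
    (hτD : τ * Dq T CL (2 * p) ≤ 1/2)
    (hτ4 : 16 * 20 ^ p * T.Ci p * C5 T m * Real.sqrt τ ≤ T.cσ * 2 ^ T.n) {k : ℕ} (hk : k < S.C.N) :
    S.Q k ≤ 2 * C3 T CL p m Λ * S.X k := by
  have hne : (Finset.range S.C.N).Nonempty := Finset.nonempty_range_iff.2 (by omega)
  obtain ⟨k0, hk0, hmax⟩ := Finset.exists_max_image (Finset.range S.C.N) (fun k => S.Q k / S.X k) hne
  rw [Finset.mem_range] at hk0
  have hc := T.cσ_pos
  have hCi := T.Ci_pos p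
  set R := S.Q k0 / S.X k0 with hR
  have hR0 : 0 ≤ R := div_nonneg (S.Q_nonneg k0) (S.X_pos hΛ k0).le
  have hRX : ∀ k, k < S.C.N → S.Q k ≤ R * S.X k := by
    intro k hk
    have := hmax k (Finset.mem_range.2 hk)
    rwa [div_le_iff₀ (S.X_pos hΛ k)] at this
  obtain ⟨k', hk', h1, h2, h3⟩ := S.parent k0 hk0
  have h4 := S.Q_step hCL hp hτ hτ1 hΛ hΛm hτD hk0
  have h5 : ∑ j ∈ S.big k0, Real.sqrt (S.A j) * S.C.h j ^ T.n ≤ S.Q k' := by
    unfold Q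
    apply Finset.sum_le_sum_of_subset_of_nonneg h3
    intro i _ _
    exact mul_nonneg (Real.sqrt_nonneg _) (pow_nonneg (S.C.h_pos i).le _)
  have h6 := hRX k' hk'
  have h7 := S.X_parent h1 hk' h2
  have hX0 := S.X_pos hΛ k0
  have h8 : 8 * Real.sqrt τ * 20 ^ p * T.Ci p / (T.cσ * 2 ^ T.n) *
        ∑ j ∈ S.big k0, Real.sqrt (S.A j) * S.C.h j ^ T.n ≤ (1/2) * R * S.X k0 := by
    have e1 : ∑ j ∈ S.big k0, Real.sqrt (S.A j) * S.C.h j ^ T.n ≤ R * (C5 T m * S.X k0) := by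
      refine h5.trans (h6.trans ?_)
      unfold C5
      gcongr
    calc 8 * Real.sqrt τ * 20 ^ p * T.Ci p / (T.cσ * 2 ^ T.n) *
        ∑ j ∈ S.big k0, Real.sqrt (S.A j) * S.C.h j ^ T.n
        ≤ 8 * Real.sqrt τ * 20 ^ p * T.Ci p / (T.cσ * 2 ^ T.n) * (R * (C5 T m * S.X k0)) := by gcongr
      _ = (8 * 20 ^ p * T.Ci p * C5 T m * Real.sqrt τ / (T.cσ * 2 ^ T.n)) * (R * S.X k0) := by ring
      _ ≤ (1/2) * (R * S.X k0) := by
          apply mul_le_mul_of_nonneg_right _ (by positivity)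
          rw [div_le_iff₀ (by positivity)]
          linarith
      _ = _ := by ring
  have h9 : S.Q k0 = R * S.X k0 := by rw [hR]; field_simp
  have h10 : R ≤ 2 * C3 T CL p m Λ := by
    have : R * S.X k0 ≤ (2 * C3 T CL p m Λ) * S.X k0 := by
      rw [← h9]
      linarith
    exact le_of_mul_le_mul_right this hX0
  exact (hRX k hk).trans (mul_le_mul_of_nonneg_right h10 (S.X_pos hΛ k).le)

/-- **packing** -/
lemma pack (hCL : 0 ≤ CL) (hp : T.n + 1 ≤ p) (hτ : 0 < τ) (hτ1 : τ ≤ 1) (hΛ : 1 ≤ Λ)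
    (hΛm : 2 * 16 ^ m ≤ Λ)
    (hτD : τ * Dq T CL (2 * p) ≤ 1/2)
    (hτ4 : 16 * 20 ^ p * T.Ci p * C5 T m * Real.sqrt τ ≤ T.cσ * 2 ^ T.n) {k : ℕ} (hk : k < S.C.N)
    (H : ℝ) (hH : 0 < H) (J : Finset ℕ) (hJ : J ⊆ S.tent k 16) (hJH : ∀ i ∈ J, H * S.M (S.C.w k) ≤ S.A i) :
    ∑ i ∈ J, S.C.h i ^ T.n ≤ 2 * C3 T CL p m Λ / Real.sqrt H * S.C.h k ^ T.n := by
  have hMk := S.M_pos hΛ (S.C.w k)
  have h1 := S.Q_le hCL hp hτ hτ1 hΛ hΛm hτD hτ4 hk
  have hs : 0 < Real.sqrt (H * S.M (S.C.w k)) := Real.sqrt_pos.2 (by positivity)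
  have hs1 : 0 < Real.sqrt H := Real.sqrt_pos.2 hH
  have hs2 : 0 < Real.sqrt (S.M (S.C.w k)) := Real.sqrt_pos.2 hMk
  have h2 : Real.sqrt (H * S.M (S.C.w k)) * ∑ i ∈ J, S.C.h i ^ T.n ≤ S.Q k := by
    rw [Finset.mul_sum]
    refine le_trans (b := ∑ i ∈ J, Real.sqrt (S.A i) * S.C.h i ^ T.n) ?_ ?_
    · apply Finset.sum_le_sum
      intro i hi
      exact mul_le_mul_of_nonneg_right (Real.sqrt_le_sqrt (hJH i hi)) (pow_nonneg (S.C.h_pos i).le _)
    · apply Finset.sum_le_sum_of_subset_of_nonneg hJ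
      intro i _ _
      exact mul_nonneg (Real.sqrt_nonneg _) (pow_nonneg (S.C.h_pos i).le _)
  have h3 := h2.trans h1
  rw [Real.sqrt_mul hH.le] at h3
  unfold X at h3
  have h4 : Real.sqrt (S.M (S.C.w k)) * (Real.sqrt H * ∑ i ∈ J, S.C.h i ^ T.n) ≤
      Real.sqrt (S.M (S.C.w k)) * (2 * C3 T CL p m Λ * S.C.h k ^ T.n) := by linarith
  have h5 := le_of_mul_le_mul_left h4 hs2
  rw [div_mul_eq_mul_div, le_div_iff₀ hs1]
  linarith

end forced

end Sel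

end H262RU
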