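import Pool.Agent.Helper262.RU8
set_option autoImplicit false
open MeasureTheory Set Filter
open scoped ENNReal NNReal BigOperators

namespace H262RU

variable {E : Type*} [MeasurableSpace E] {T : TS E} {CL : ℝ}

namespace Sel

section own
variable {b m : ℕ} {τ Λ : ℝ} (S : Sel T CL b m τ Λ)

/-- least index at which the maximum M is attained -/
noncomputable def own (w : E) : ℕ := by
  classical exact Nat.find (S.exists_M w)

lemma own_spec (z : E) : S.own z < S.C.N ∧ S.M z = S.A (S.own z) * S.C.kp (S.own z) z ^ m := by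
  classical
  unfold own
  exact Nat.find_spec (S.exists_M z)

lemma own_eq_iff (z : E) (i : ℕ) : S.own z = i ↔
    ((i < S.C.N ∧ S.M z = S.A i * S.C.kp i z ^ m) ∧
      ∀ j, j < i → ¬ (j < S.C.N ∧ S.M z = S.A j * S.C.kp j z ^ m)) := by
  classical
  unfold own
  exact Nat.find_eq_iff (S.exists_M z)

lemma isMax_iff (z : E) (i : ℕ) : (i < S.C.N ∧ S.M z = S.A i * S.C.kp i z ^ m) ↔
    (i < S.C.N ∧ ∀ j ∈ Finset.range S.C.N, S.A j * S.C.kp j z ^ m ≤ S.A i * S.C.kp i z ^ m) := by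
  constructor
  · rintro ⟨h1, h2⟩
    refine ⟨h1, fun j hj => ?_⟩
    rw [← h2]; exact S.le_M (Finset.mem_range.1 hj) z
  · rintro ⟨h1, h2⟩
    refine ⟨h1, le_antisymm ?_ (S.le_M h1 z)⟩
    obtain ⟨j, hj, h3⟩ := S.exists_M z
    rw [h3]; exact h2 j (Finset.mem_range.2 hj)

lemma isMax_meas (i : ℕ) : MeasurableSet {z : E | i < S.C.N ∧ S.M z = S.A i * S.C.kp i z ^ m} := by
  have h : {z : E | i < S.C.N ∧ S.M z = S.A i * S.C.kp i z ^ m} =
      {z | i < S.C.N} ∩ ⋂ j ∈ Finset.range S.C.N, {z | S.A j * S.C.kp j z ^ m ≤ S.A i * S.C.kp i z ^ m} := by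
    ext z
    rw [Set.mem_setOf_eq, S.isMax_iff z i]
    simp
  rw [h]
  apply MeasurableSet.inter (MeasurableSet.const _)
  apply Finset.measurableSet_biInter
  intro j _
  exact measurableSet_le (((S.C.kp_meas j).pow_const m).const_mul _) (((S.C.kp_meas i).pow_const m).const_mul _)

lemma own_meas (i : ℕ) : MeasurableSet {z : E | S.own z = i} := by
  have h : {z : E | S.own z = i} = {z : E | i < S.C.N ∧ S.M z = S.A i * S.C.kp i z ^ m} ∩
      ⋂ j ∈ Finset.range i, {z : E | j < S.C.N ∧ S.M z = S.A j * S.C.kp j z ^ m}ᶜ := by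
    ext z
    rw [Set.mem_setOf_eq, S.own_eq_iff z i]
    simp
  rw [h]
  apply (S.isMax_meas i).inter
  apply Finset.measurableSet_biInter
  intro j _
  exact (S.isMax_meas j).compl

lemma own_pos (hΛ : 1 ≤ Λ) (z : E) : 0 < S.A (S.own z) := by
  have h1 := S.M_pos hΛ z
  rw [(S.own_spec z).2] at h1
  rcases eq_or_lt_of_le (S.A_nonneg (S.own z)) with h | h
  · rw [← h] at h1; simp at h1
  · exact h

/-- selected indices -/
noncomputable def selF : Finset ℕ := by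
  classical exact (Finset.range S.C.N).filter (fun i => 0 < S.A i)

lemma mem_selF {i : ℕ} : i ∈ S.selF ↔ i < S.C.N ∧ 0 < S.A i := by
  unfold selF; simp

lemma own_mem (hΛ : 1 ≤ Λ) (z : E) : S.own z ∈ S.selF := by
  rw [S.mem_selF]; exact ⟨(S.own_spec z).1, S.own_pos hΛ z⟩

lemma a_eq (z : E) : S.a z = ∑ i ∈ S.selF, S.A i * S.C.kp i z ^ b := by
  classical
  unfold a
  symm
  apply Finset.sum_subset
  · intro i hi; rw [S.mem_selF] at hi; exact Finset.mem_range.2 hi.1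
  · intro i hi hi2
    rw [S.mem_selF] at hi2
    have h1 := S.A_nonneg i
    have h2 : S.A i = 0 := by
      rcases eq_or_lt_of_le h1 with h | h
      · exact h.symm
      · exact absurd ⟨Finset.mem_range.1 hi, h⟩ hi2
    rw [h2, zero_mul]

/-- near, in terms of d -/
lemma near_d (hCL : 0 ≤ CL) (hb : T.n + 1 ≤ b) (hbm : b + 1 ≤ m) (hτ : 0 < τ) (hτ1 : τ ≤ 1) (hΛ : 1 ≤ Λ)
    (hτD : τ * Dq T CL b ≤ 1/2) (z : E) {i : ℕ} (hi : i < S.C.N)
    (hM : S.M z = S.A i * S.C.kp i z ^ m) : T.d z (S.C.w i) ≤ Ka T CL b m τ Λ * S.C.h i := by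
  have h1 := S.near hCL hb hbm hτ hτ1 hΛ hτD z hi hM
  unfold Cand.kp TS.kap at h1
  rw [S.C.s_h hi, mul_div_assoc', le_div_iff₀ (TS.d_pos (S.C.s_pos hi) _), one_mul] at h1
  exact h1

lemma M_le_A (z : E) {i : ℕ} (hi : i < S.C.N) (hM : S.M z = S.A i * S.C.kp i z ^ m) :
    S.M z ≤ 2 ^ m * S.A i := by
  rw [hM, mul_comm]
  exact mul_le_mul_of_nonneg_right (pow_le_pow_left₀ (S.C.kp_nonneg _ _) (S.C.kp_le_two _ _) m) (S.A_nonneg i)

noncomputable def cB (T : TS E) (CL : ℝ) (b m : ℕ) (τ Λ : ℝ) : ℝ :=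
  τ / ((132 * Ka T CL b m τ Λ) ^ b * 2 ^ m)

lemma cB_pos (hCL : 0 ≤ CL) (hτ : 0 < τ) (hΛ : 1 ≤ Λ) : 0 < cB T CL b m τ Λ := by
  unfold cB
  have := Ka_pos (T := T) (b := b) (m := m) hCL hτ hΛ
  positivity

/-- later boxes in the tent have amplitude at least cB * M -/
lemma low_amp (hCL : 0 ≤ CL) (hb : T.n + 1 ≤ b) (hbm : b + 1 ≤ m) (hτ : 0 < τ) (hτ1 : τ ≤ 1) (hΛ : 1 ≤ Λ)
    (hτD : τ * Dq T CL b ≤ 1/2) {k j i : ℕ} (hk : k < S.C.N) (hj : j < S.C.N)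
    (hM : S.M (S.C.w k) = S.A j * S.C.kp j (S.C.w k) ^ m) (hi : i ∈ S.tent k 16) (hji : j < i) :
    cB T CL b m τ Λ * S.M (S.C.w k) ≤ S.A i := by
  obtain ⟨hiN, hL, hd, hA⟩ := (S.mem_tent).1 hi
  have hKa := Ka_pos (T := T) (b := b) (m := m) hCL hτ hΛ
  have h1 := S.near_d hCL hb hbm hτ hτ1 hΛ hτD (S.C.w k) hj hM
  have h2 : S.C.h k ≤ 2 * (Ka T CL b m τ Λ * S.C.h j) := by
    have := T.s_le (S.C.w k) (S.C.w j)
    rw [S.C.s_h hk] at this
    linarith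
  have h3 : T.d (S.C.w i) (S.C.w j) ≤ 132 * Ka T CL b m τ Λ * S.C.h j := by
    have := T.tri (S.C.w i) (S.C.w k) (S.C.w j)
    linarith
  have hhj := S.C.h_pos j
  have h4 : 1 / (132 * Ka T CL b m τ Λ) ≤ S.C.kp j (S.C.w i) := by
    unfold Cand.kp TS.kap
    rw [S.C.s_h hj, div_le_div_iff₀ (by positivity) (TS.d_pos (S.C.s_pos hj) _)]
    linarith
  have h5 : (1 / (132 * Ka T CL b m τ Λ)) ^ b ≤ S.C.kp j (S.C.w i) ^ b :=
    pow_le_pow_left₀ (by positivity) h4 b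
  have h6 : S.A j * S.C.kp j (S.C.w i) ^ b ≤ ∑ j' ∈ Finset.range i, S.A j' * S.C.kp j' (S.C.w i) ^ b :=
    Finset.single_le_sum (f := fun j => S.A j * S.C.kp j (S.C.w i) ^ b)
      (fun i' _ => mul_nonneg (S.A_nonneg i') (pow_nonneg (S.C.kp_nonneg _ _) _)) (Finset.mem_range.2 hji)
  have h7 : τ * ∑ j' ∈ Finset.range i, S.A j' * S.C.kp j' (S.C.w i) ^ b ≤ S.A i := by
    rw [(S.A_pos_iff hA).1]; exact le_max_right _ _
  have h8 := S.M_le_A (S.C.w k) hj hM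
  have hAj := S.A_nonneg j
  calc cB T CL b m τ Λ * S.M (S.C.w k) ≤ cB T CL b m τ Λ * (2 ^ m * S.A j) := by
        have := cB_pos (T := T) (b := b) (m := m) hCL hτ hΛ
        gcongr
    _ = τ * (S.A j * (1 / (132 * Ka T CL b m τ Λ)) ^ b) := by
        unfold cB; rw [one_div, inv_pow]; field_simp
    _ ≤ τ * (S.A j * S.C.kp j (S.C.w i) ^ b) := by gcongr
    _ ≤ τ * ∑ j' ∈ Finset.range i, S.A j' * S.C.kp j' (S.C.w i) ^ b := by gcongr
    _ ≤ _ := h7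

/-- number of levels on which the maximiser can live -/
noncomputable def Jm (T : TS E) (CL : ℝ) (b m : ℕ) (τ Λ : ℝ) : ℕ := ⌈2 * Ka T CL b m τ Λ⌉₊

lemma level_le (hCL : 0 ≤ CL) (hb : T.n + 1 ≤ b) (hbm : b + 1 ≤ m) (hτ : 0 < τ) (hτ1 : τ ≤ 1) (hΛ : 1 ≤ Λ)
    (hτD : τ * Dq T CL b ≤ 1/2) {k j : ℕ} (hk : k < S.C.N) (hj : j < S.C.N)
    (hM : S.M (S.C.w k) = S.A j * S.C.kp j (S.C.w k) ^ m) : S.C.L j ≤ S.C.L k + Jm T CL b m τ Λ := by
  have h1 := S.near_d hCL hb hbm hτ hτ1 hΛ hτD (S.C.w k) hj hM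
  have h2 : S.C.h k ≤ 2 * (Ka T CL b m τ Λ * S.C.h j) := by
    have := T.s_le (S.C.w k) (S.C.w j)
    rw [S.C.s_h hk] at this
    linarith
  by_contra hcon
  push Not at hcon
  have h3 : S.C.h j < (1/2:ℝ) ^ (S.C.L k + Jm T CL b m τ Λ) := by
    unfold Cand.h
    exact pow_lt_pow_right_of_lt_one₀ (by norm_num) (by norm_num) hcon
  have h4 : 2 * Ka T CL b m τ Λ < (2:ℝ) ^ (Jm T CL b m τ Λ) := by
    calc 2 * Ka T CL b m τ Λ ≤ (Jm T CL b m τ Λ : ℝ) := Nat.le_ceil _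
      _ < _ := by exact_mod_cast Nat.lt_two_pow_self
  have hKa := Ka_pos (T := T) (b := b) (m := m) hCL hτ hΛ
  have hhk := S.C.h_pos k
  have h5 : (1/2:ℝ) ^ (S.C.L k + Jm T CL b m τ Λ) * 2 ^ (Jm T CL b m τ Λ) = S.C.h k := by
    rw [pow_add, mul_assoc, ← mul_pow]; norm_num; rfl
  have h6 : 2 * (Ka T CL b m τ Λ * S.C.h j) < S.C.h k := by
    calc 2 * (Ka T CL b m τ Λ * S.C.h j) = (2 * Ka T CL b m τ Λ) * S.C.h j := by ring
      _ ≤ (2 * Ka T CL b m τ Λ) * (1/2:ℝ) ^ (S.C.L k + Jm T CL b m τ Λ) := by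
          apply mul_le_mul_of_nonneg_left h3.le; positivity
      _ < 2 ^ (Jm T CL b m τ Λ) * (1/2:ℝ) ^ (S.C.L k + Jm T CL b m τ Λ) := by
          apply mul_lt_mul_of_pos_right h4; positivity
      _ = _ := by rw [mul_comm]; exact h5
  linarith

/-- boxes on boundedly many levels of a tent -/
lemma few_levels {k : ℕ} (J0 : ℕ) (J : Finset ℕ) (hJ : J ⊆ S.tent k 16)
    (hJL : ∀ i ∈ J, S.C.L i ≤ S.C.L k + J0) :
    ∑ i ∈ J, S.C.h i ^ T.n ≤ (J0 + 1) * (CL * 16 ^ T.n) * S.C.h k ^ T.n := by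
  classical
  have hhk := S.C.h_pos k
  have h1 : ∑ i ∈ J, S.C.h i ^ T.n =
      ∑ l ∈ Finset.Icc (S.C.L k) (S.C.L k + J0), ∑ i ∈ J.filter (fun i => S.C.L i = l), S.C.h i ^ T.n := by
    rw [Finset.sum_fiberwise_of_maps_to]
    intro i hi
    rw [Finset.mem_Icc]
    exact ⟨((S.mem_tent).1 (hJ hi)).2.1, hJL i hi⟩
  rw [h1]
  have h2 : ∀ l ∈ Finset.Icc (S.C.L k) (S.C.L k + J0), ∑ i ∈ J.filter (fun i => S.C.L i = l), S.C.h i ^ T.n ≤
      CL * 16 ^ T.n * S.C.h k ^ T.n := by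
    intro l hl
    rw [Finset.mem_Icc] at hl
    have h3 : ∑ i ∈ J.filter (fun i => S.C.L i = l), S.C.h i ^ T.n =
        ((J.filter (fun i => S.C.L i = l)).card : ℝ) * ((1/2:ℝ)^l) ^ T.n := by
      rw [Finset.sum_congr rfl (g := fun _ => ((1/2:ℝ)^l) ^ T.n)]
      · rw [Finset.sum_const, nsmul_eq_mul]
      · intro i hi
        rw [Finset.mem_filter] at hi
        unfold Cand.h; rw [hi.2]
    rw [h3]
    have h4 := S.C.count l (S.C.w k) (16 * S.C.h k) (by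
      have : (1/2:ℝ)^l ≤ S.C.h k := by
        unfold Cand.h; exact pow_le_pow_of_le_one (by norm_num) (by norm_num) hl.1
      linarith)
    have h5 : ((J.filter (fun i => S.C.L i = l)).card : ℝ) ≤
        (((Finset.range S.C.N).filter (fun i => S.C.L i = l ∧ T.d (S.C.w i) (S.C.w k) < 16 * S.C.h k)).card : ℝ) := by
      exact_mod_cast Finset.card_le_card (by
        intro i hi
        rw [Finset.mem_filter] at hi
        have := (S.mem_tent).1 (hJ hi.1)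
        rw [Finset.mem_filter, Finset.mem_range]
        exact ⟨this.1, hi.2, this.2.2.1⟩)
    calc ((J.filter (fun i => S.C.L i = l)).card : ℝ) * ((1/2:ℝ)^l) ^ T.n
        ≤ (CL * (16 * S.C.h k * 2 ^ l) ^ T.n) * ((1/2:ℝ)^l) ^ T.n := by
          apply mul_le_mul_of_nonneg_right (h5.trans h4); positivity
      _ = CL * (16 * S.C.h k * (2 ^ l * (1/2:ℝ)^l)) ^ T.n := by rw [mul_assoc CL, ← mul_pow]; ring
      _ = CL * 16 ^ T.n * S.C.h k ^ T.n := by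
          rw [← mul_pow]; norm_num; rw [mul_pow]; ring
  refine (Finset.sum_le_sum h2).trans ?_
  rw [Finset.sum_const, nsmul_eq_mul, Nat.card_Icc]
  apply le_of_eq
  have : (((S.C.L k + J0 + 1 - S.C.L k : ℕ)) : ℝ) = J0 + 1 := by
    rw [show S.C.L k + J0 + 1 - S.C.L k = J0 + 1 by omega]; push_cast; ring
  rw [this]; ring

/-- candidate above a ball -/
lemma ball_cand (z : E) (ρ : ℝ) (hρ : 0 < ρ) (l0 : ℕ) (hl0 : l0 < S.C.N) (hd0 : T.d (S.C.w l0) z < ρ) :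
    ∃ k, k < S.C.N ∧ S.C.h k ≤ 24 * ρ ∧ (12 * ρ ≤ S.C.h k ∨ S.C.L k = 0) ∧
      ∀ i, i < S.C.N → T.d (S.C.w i) z < ρ → S.C.L k ≤ S.C.L i ∧ T.d (S.C.w i) (S.C.w k) < 16 * S.C.h k := by
  rcases le_or_gt (12 * ρ) 1 with h | h
  · obtain ⟨l, h1, h2⟩ := exists_level (x := 12 * ρ) (by positivity) h
    have hl : l ≤ S.C.Lmax := by
      by_contra hcon
      push Not at hcon
      have h3 : (1/2:ℝ)^l ≤ (1/2:ℝ)^(S.C.Lmax) := pow_le_pow_of_le_one (by norm_num) (by norm_num) hcon.le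
      have h4 : (1/2:ℝ)^(S.C.Lmax) ≤ S.C.h l0 := by
        unfold Cand.h; exact pow_le_pow_of_le_one (by norm_num) (by norm_num) (S.C.L_le l0 hl0)
      have h5 := T.s_le (S.C.w l0) z
      rw [S.C.s_h hl0] at h5
      linarith
    have hs : T.s z ≤ (1/2:ℝ)^l := by
      have h5 := T.s_le' (S.C.w l0) z
      linarith
    obtain ⟨k, hk1, hk2, hk3⟩ := S.C.cover z l hl hs
    have hhk : S.C.h k = (1/2:ℝ)^l := by unfold Cand.h; rw [hk2]
    refine ⟨k, hk1, ?_, Or.inl (by rw [hhk]; exact h1), ?_⟩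
    · rw [hhk]; linarith
    · intro i hi hd
      constructor
      · by_contra hcon
        push Not at hcon
        have h6 : S.C.h k ≤ S.C.h i := by
          unfold Cand.h; exact pow_le_pow_of_le_one (by norm_num) (by norm_num) hcon.le
        have h5 := T.s_le (S.C.w i) z
        rw [S.C.s_h hi] at h5
        rw [hhk] at h6
        linarith
      · have := T.tri (S.C.w i) z (S.C.w k)
        rw [hhk]
        linarith
  · obtain ⟨k, hk1, hk2, hk3⟩ := S.C.cover z 0 (Nat.zero_le _) (by simpa using T.s_le_one z)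
    have hhk : S.C.h k = 1 := by unfold Cand.h; rw [hk2]; simp
    refine ⟨k, hk1, by rw [hhk]; linarith, Or.inr hk2, ?_⟩
    intro i hi _
    refine ⟨by omega, ?_⟩
    have := T.d_le (S.C.w i) (S.C.w k)
    rw [hhk]; linarith

end own

section top
variable {b m : ℕ} {τ Λ : ℝ} (S : Sel T CL b m τ Λ)

lemma u_int : Integrable S.u.u T.σ := by
  apply T.integ S.u.meas (C := S.u.U)
  intro x
  rw [abs_of_nonneg (S.u.nonneg x)]; exact S.u.le x

lemma I0_nonneg : 0 ≤ ∫ ζ, S.u.u ζ ∂T.σ := integral_nonneg S.u.nonneg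

lemma A0_le (i : ℕ) (hi : i < S.C.N) (J0 : ℕ) (hL : S.C.L i ≤ J0) :
    S.u.A0 b (S.C.w i) ≤ 2 ^ b * (2 ^ J0) ^ T.n * ∫ ζ, S.u.u ζ ∂T.σ := by
  have hh := S.C.h_pos i
  have hI := S.I0_nonneg
  unfold Dens.A0
  rw [S.C.s_h hi, div_le_iff₀ (by positivity)]
  have h1 : ∫ ζ, S.u.u ζ * T.kap (S.C.w i) ζ ^ b ∂T.σ ≤ 2 ^ b * ∫ ζ, S.u.u ζ ∂T.σ := by
    rw [← integral_const_mul]
    apply integral_mono (S.u.integrable_mul b _) (S.u_int.const_mul _)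
    intro ζ
    have h2 := pow_le_pow_left₀ (TS.kap_nonneg (T := T) (S.C.w i) ζ) (TS.kap_le_two _ _) b
    have h3 := S.u.nonneg ζ
    simp only
    nlinarith
  refine h1.trans ?_
  have h2 : 1 ≤ (2:ℝ) ^ J0 * S.C.h i := by
    have : (1/2:ℝ)^J0 ≤ S.C.h i := by
      unfold Cand.h; exact pow_le_pow_of_le_one (by norm_num) (by norm_num) hL
    calc (1:ℝ) = 2 ^ J0 * (1/2:ℝ)^J0 := by rw [← mul_pow]; norm_num
      _ ≤ _ := by gcongr
  have h3 : 1 ≤ ((2:ℝ) ^ J0 * S.C.h i) ^ T.n := one_le_pow₀ h2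
  rw [mul_pow] at h3
  calc 2 ^ b * ∫ ζ, S.u.u ζ ∂T.σ = 1 * (2 ^ b * ∫ ζ, S.u.u ζ ∂T.σ) := by ring
    _ ≤ ((2 ^ J0) ^ T.n * S.C.h i ^ T.n) * (2 ^ b * ∫ ζ, S.u.u ζ ∂T.σ) := by gcongr
    _ = _ := by ring

lemma A0_ge (i : ℕ) (hi : i < S.C.N) (J0 : ℕ) (hL : S.C.L i ≤ J0) :
    ((1/2:ℝ) ^ (J0 + 1)) ^ b * ∫ ζ, S.u.u ζ ∂T.σ ≤ S.u.A0 b (S.C.w i) := by
  have hh := S.C.h_pos i
  have hh1 := S.C.h_le_one i
  have hI := S.I0_nonneg
  unfold Dens.A0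
  rw [S.C.s_h hi, le_div_iff₀ (by positivity)]
  have h1 : ((1/2:ℝ) ^ (J0 + 1)) ^ b * ∫ ζ, S.u.u ζ ∂T.σ ≤ ∫ ζ, S.u.u ζ * T.kap (S.C.w i) ζ ^ b ∂T.σ := by
    rw [← integral_const_mul]
    apply integral_mono (S.u_int.const_mul _) (S.u.integrable_mul b _)
    intro ζ
    have h4 : (1/2:ℝ)^(J0+1) ≤ T.kap (S.C.w i) ζ := by
      unfold TS.kap
      rw [S.C.s_h hi, le_div_iff₀ (TS.d_pos (S.C.s_pos hi) _)]
      have h5 : (1/2:ℝ)^J0 ≤ S.C.h i := by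
        unfold Cand.h; exact pow_le_pow_of_le_one (by norm_num) (by norm_num) hL
      have h6 := T.d_le ζ (S.C.w i)
      have h7 : (0:ℝ) < (1/2:ℝ)^J0 := by positivity
      rw [pow_succ]
      nlinarith
    have h2 := pow_le_pow_left₀ (by positivity) h4 b
    have h3 := S.u.nonneg ζ
    simp only
    nlinarith
  have h3 : S.C.h i ^ T.n ≤ 1 := pow_le_one₀ hh.le hh1
  have h4 : 0 ≤ ((1/2:ℝ) ^ (J0 + 1)) ^ b * ∫ ζ, S.u.u ζ ∂T.σ := by positivity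
  nlinarith

/-- crude upper bound for the top amplitudes -/
lemma A_top_le (hτ : 0 < τ) (hτ1 : τ ≤ 1) (J0 : ℕ) :
    ∀ j, j < S.C.N → S.C.L j ≤ J0 →
      S.A j ≤ (2 ^ b * (2 ^ J0) ^ T.n * ∫ ζ, S.u.u ζ ∂T.σ) * (1 + 2 ^ b) ^ j := by
  have hI := S.I0_nonneg
  set B := 2 ^ b * (2 ^ J0) ^ T.n * ∫ ζ, S.u.u ζ ∂T.σ with hB
  have hB0 : 0 ≤ B := by positivity
  intro j
  induction j using Nat.strong_induction_on with
  | _ j ih =>
    intro hj hL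
    refine (S.A_le_t hj).trans ?_
    unfold t
    have h1 : (1:ℝ) ≤ (1 + 2 ^ b) ^ j := one_le_pow₀ (by
      have : (0:ℝ) < 2 ^ b := by positivity
      linarith)
    apply max_le
    · have := S.A0_le j hj J0 hL
      nlinarith
    · have h2 : ∑ i ∈ Finset.range j, S.A i * S.C.kp i (S.C.w j) ^ b ≤
          ∑ i ∈ Finset.range j, (B * 2 ^ b) * (1 + 2 ^ b) ^ i := by
        apply Finset.sum_le_sum
        intro i hi
        have hi' := Finset.mem_range.1 hi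
        have h3 := ih i hi' (lt_trans hi' hj) ((S.C.L_mono i j hi'.le hj).trans hL)
        have h4 := pow_le_pow_left₀ (S.C.kp_nonneg i (S.C.w j)) (S.C.kp_le_two i (S.C.w j)) b
        calc S.A i * S.C.kp i (S.C.w j) ^ b ≤ (B * (1 + 2 ^ b) ^ i) * 2 ^ b :=
              mul_le_mul h3 h4 (pow_nonneg (S.C.kp_nonneg _ _) _) (by positivity)
          _ = _ := by ring
      have h5 : ∑ i ∈ Finset.range j, (B * 2 ^ b) * (1 + (2:ℝ) ^ b) ^ i = B * ((1 + 2 ^ b) ^ j - 1) := by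
        rw [← Finset.mul_sum, mul_assoc]
        congr 1
        have := geom_sum_mul (1 + (2:ℝ)^b) j
        linarith
      rw [h5] at h2
      have h6 : 0 ≤ B * ((1 + 2 ^ b) ^ j - 1) := by
        apply mul_nonneg hB0; linarith
      calc τ * ∑ i ∈ Finset.range j, S.A i * S.C.kp i (S.C.w j) ^ b ≤ τ * (B * ((1 + 2 ^ b) ^ j - 1)) := by gcongr
        _ ≤ 1 * (B * ((1 + 2 ^ b) ^ j - 1)) := by gcongr
        _ ≤ _ := by linarith

noncomputable def N0 (T : TS E) (CL : ℝ) (J0 : ℕ) : ℕ := ⌈(J0 + 1) * (CL * (3 * 2 ^ J0) ^ T.n)⌉₊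

lemma idx_le (hCL : 0 ≤ CL) (J0 : ℕ) (j : ℕ) (hj : j < S.C.N) (hL : S.C.L j ≤ J0) : j ≤ N0 T CL J0 := by
  classical
  have h1 : (Finset.range (j+1)) ⊆ (Finset.range (J0 + 1)).biUnion (fun l => S.C.lev l) := by
    intro i hi
    rw [Finset.mem_range] at hi
    rw [Finset.mem_biUnion]
    refine ⟨S.C.L i, ?_, ?_⟩
    · rw [Finset.mem_range]
      have := S.C.L_mono i j (by omega) hj
      omega
    · rw [S.C.mem_lev]; exact ⟨by omega, rfl⟩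
  have h2 := (Finset.card_le_card h1).trans Finset.card_biUnion_le
  rw [Finset.card_range] at h2
  have h3 : ∀ l ∈ Finset.range (J0 + 1), ((S.C.lev l).card : ℝ) ≤ CL * (3 * 2 ^ J0) ^ T.n := by
    intro l hl
    rw [Finset.mem_range] at hl
    have h4 := S.C.count l (S.C.w j) 3 (by
      have : (1/2:ℝ)^l ≤ 1 := pow_le_one₀ (by norm_num) (by norm_num)
      linarith)
    have h5 : (S.C.lev l) = (Finset.range S.C.N).filter (fun i => S.C.L i = l ∧ T.d (S.C.w i) (S.C.w j) < 3) := by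
      ext i
      rw [S.C.mem_lev, Finset.mem_filter, Finset.mem_range]
      constructor
      · rintro ⟨h, h'⟩
        have := T.d_le (S.C.w i) (S.C.w j)
        exact ⟨h, h', by linarith⟩
      · rintro ⟨h, h', _⟩; exact ⟨h, h'⟩
    rw [h5]
    refine h4.trans ?_
    have h6 : (2:ℝ)^l ≤ 2 ^ J0 := pow_le_pow_right₀ (by norm_num) (by omega)
    gcongr
  have h4 : ((j + 1 : ℕ) : ℝ) ≤ (J0 + 1) * (CL * (3 * 2 ^ J0) ^ T.n) := by
    calc ((j + 1 : ℕ) : ℝ) ≤ ((∑ l ∈ Finset.range (J0 + 1), (S.C.lev l).card : ℕ) : ℝ) := by exact_mod_cast h2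
      _ = ∑ l ∈ Finset.range (J0 + 1), ((S.C.lev l).card : ℝ) := by push_cast; rfl
      _ ≤ ∑ l ∈ Finset.range (J0 + 1), CL * (3 * 2 ^ J0) ^ T.n := Finset.sum_le_sum h3
      _ = _ := by rw [Finset.sum_const, Finset.card_range, nsmul_eq_mul]; push_cast; ring
  have h5 : ((j + 1 : ℕ) : ℝ) ≤ (N0 T CL J0 : ℝ) := h4.trans (Nat.le_ceil _)
  have h6 : j + 1 ≤ N0 T CL J0 := by exact_mod_cast h5
  omega

noncomputable def cT (T : TS E) (CL : ℝ) (b m J0 : ℕ) : ℝ :=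
  ((1/2:ℝ) ^ (J0 + 1)) ^ b / (2 ^ m * (2 ^ b * (2 ^ J0) ^ T.n) * (1 + 2 ^ b) ^ (N0 T CL J0))

lemma cT_pos (J0 : ℕ) : 0 < cT T CL b m J0 := by unfold cT; positivity

/-- top boxes: amplitude at least cT * M -/
lemma top_amp (hCL : 0 ≤ CL) (hτ : 0 < τ) (hτ1 : τ ≤ 1) (J0 : ℕ) {k j i : ℕ} (hj : j < S.C.N)
    (hM : S.M (S.C.w k) = S.A j * S.C.kp j (S.C.w k) ^ m) (hLj : S.C.L j ≤ J0)
    (hij : i ≤ j) (hA : 0 < S.A i) :
    cT T CL b m J0 * S.M (S.C.w k) ≤ S.A i := by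
  have hI := S.I0_nonneg
  have hiN : i < S.C.N := lt_of_le_of_lt hij hj
  have h1 := S.A_top_le hτ hτ1 J0 j hj hLj
  have h2 := S.A0_ge i hiN J0 ((S.C.L_mono i j hij hj).trans hLj)
  have h3 : S.u.A0 b (S.C.w i) ≤ S.A i := by
    rw [(S.A_pos_iff hA).1]; exact le_max_left _ _
  have h4 := S.M_le_A (S.C.w k) hj hM
  have h5 := S.idx_le hCL J0 j hj hLj
  have h6 : (1 + (2:ℝ) ^ b) ^ j ≤ (1 + 2 ^ b) ^ (N0 T CL J0) :=
    pow_le_pow_right₀ (by have : (0:ℝ) < 2 ^ b := by positivity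
                          linarith) h5
  have hcT := cT_pos (T := T) (CL := CL) (b := b) (m := m) J0
  set I := ∫ ζ, S.u.u ζ ∂T.σ with hI'
  calc cT T CL b m J0 * S.M (S.C.w k) ≤ cT T CL b m J0 * (2 ^ m * S.A j) := by gcongr
    _ ≤ cT T CL b m J0 * (2 ^ m * ((2 ^ b * (2 ^ J0) ^ T.n * I) * (1 + 2 ^ b) ^ j)) := by gcongr
    _ ≤ cT T CL b m J0 * (2 ^ m * ((2 ^ b * (2 ^ J0) ^ T.n * I) * (1 + 2 ^ b) ^ (N0 T CL J0))) := by gcongr
    _ = ((1/2:ℝ) ^ (J0 + 1)) ^ b * I := by unfold cT; field_simp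
    _ ≤ _ := h2.trans h3

end top

end Sel

end H262RU
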